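import Pool.Agent.Lib.MP_7ed551_gt.Cy.W.Net
import Pool.Agent.Lib.MP_7ed551_gt.Cy.Iface

/-! The dichotomy. -/

open scoped ContDiff Topology
open Set Filter Metric Real

noncomputable section

namespace Pool.Agent.Lib.MP_7ed551_gt.Cy

open Pool.Agent.Lib.MP_ccffa6_gt

theorem dich_sum {ι : Type} [Fintype ι] {φ : ι → ℝ} {v : ι → ℂ} {c : ℝ} (hc : 0 ≤ c)
    (h0 : ∀ j, 0 ≤ φ j) (h1 : ∑ j, φ j ≤ 1) (h : ∀ j, φ j ≠ 0 → ‖v j‖ ≤ c) :
    ‖∑ j, φ j • v j‖ ≤ c := by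
  refine (norm_sum_le _ _).trans ?_
  have h2 : ∀ j ∈ Finset.univ, ‖φ j • v j‖ ≤ φ j * c := fun j _ => by
    rw [norm_smul, Real.norm_of_nonneg (h0 j)]
    by_cases e : φ j = 0
    · rw [e, zero_mul, zero_mul]
    · exact mul_le_mul_of_nonneg_left (h j e) (h0 j)
  refine (Finset.sum_le_sum h2).trans ?_
  rw [← Finset.sum_mul]
  exact mul_le_of_le_one_left hc h1

theorem dich_unif {A : E → ℂ} (hA : Continuous A) (hc : HasCompactSupport A) {ε : ℝ} (hε : 0 < ε) :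
    ∃ δ > 0, ∀ a b z : ℂ, ‖a - b‖ ≤ δ → ‖A (a, z) - A (b, z)‖ ≤ ε := by
  obtain ⟨δ, h1, h2⟩ :=
    Metric.uniformContinuous_iff_le.1 (hc.uniformContinuous_of_continuous hA) ε hε
  refine ⟨δ, h1, fun a b z h => ?_⟩
  rw [← dist_eq_norm] at h ⊢
  refine h2 ?_
  rw [Prod.dist_eq, dist_self]
  exact max_le h h1.le

/- `σ` from `exists_sol`, a net of `closedBall 0 ρ`, `q y z = A (∑ j, φ j z • y j, z)`,
`exists_fixed` for `y ↦ fun j => S y (e j)`. -/
theorem exists_approx {A : E → ℂ} {ρ η : ℝ} (h0 : 0 < ρ) (h1 : ρ < 1) (hη : 0 < η)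
    (hA : ContDiff ℝ ∞ A) (hc : HasCompactSupport A) (hρ : ∀ x : E, ρ ≤ ‖x.2‖ → A x = 0) :
    ∃ (s : ℂ → ℂ) (d : ℝ) (F : ℂ → ℂ), ContDiff ℝ ∞ s ∧
      (∀ z, ‖z‖ ≤ 1 → ‖dbar s z - A (s z, z)‖ ≤ η) ∧ ContinuousOn F (sphere 0 1) ∧
      (∀ z, ‖z‖ = 1 → ‖F z‖ = d ∧ ‖s z - F z‖ ≤ η) ∧ (0 < d → ∃ m : ℕ, 1 ≤ m ∧ Wind (-m) F) := by
  obtain ⟨M, hM⟩ := hc.exists_bound_of_continuous hA.continuous
  have M0 : 0 ≤ M := (norm_nonneg _).trans (hM 0)
  obtain ⟨δ, hδ, hd⟩ := dich_unif hA.continuous hc hη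
  obtain ⟨σ, hσ, hS⟩ := exists_sol (M := M) h0 h1 (lt_min hη hδ)
  obtain ⟨ι, _, e, φ, e1, p1, p2, p3, p4, p5⟩ := exists_net (isCompact_closedBall (0 : ℂ) ρ) hσ
  have hq : Fam (fun (y : ι → ℂ) z => A (∑ j, φ j z • y j, z)) ρ M := by
    refine ⟨fun y => hA.comp ((ContDiff.sum fun j _ => (p1 j).smul contDiff_const).prodMk
      contDiff_id), fun y z hz => hρ _ hz, fun y z => hM _, fun y₀ ε hε => ?_⟩
    obtain ⟨δ', h2, h3⟩ := dich_unif hA.continuous hc hε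
    filter_upwards [closedBall_mem_nhds y₀ h2] with y hy z
    refine h3 _ _ _ ?_
    rw [← Finset.sum_sub_distrib]
    simp only [← smul_sub]
    refine dich_sum h2.le (fun j => p2 j z) (p4 z) fun j _ => ?_
    exact (norm_le_pi_norm (y - y₀) j).trans (mem_closedBall_iff_norm.1 hy)
  obtain ⟨S, s1, s2⟩ := hS _ _ hq
  have e2 : ∀ j, ‖e j‖ ≤ ρ := fun j => mem_closedBall_zero_iff.1 (e1 j)
  obtain ⟨y, hy⟩ := exists_fixed (F := fun (y : ι → ℂ) j => S y (e j))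
    (continuous_pi fun j => s1 _ (e2 j))
    ⟨20 * M, fun y => (pi_norm_le_iff_of_nonneg (by positivity)).2 fun j =>
      (s2 y).2.2.1 _ (e2 j)⟩
  obtain ⟨a1, a2, -, a4, d, F, a5, a6, a7⟩ := s2 y
  refine ⟨S y, d, F, a1, fun z hz => ?_, a5,
    fun z hz => ⟨(a6 z hz).1, (a6 z hz).2.trans (min_le_left _ _)⟩, a7⟩
  rw [a2 z hz]
  rcases le_total ρ ‖z‖ with h | h
  · rw [hρ _ h, hρ _ h, sub_zero, norm_zero]
    exact hη.le
  · refine hd _ _ _ ?_
    have h2 : ∑ j, φ j z • y j - S y z = ∑ j, φ j z • (y j - S y z) := by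
      simp only [smul_sub]
      rw [Finset.sum_sub_distrib, ← Finset.sum_smul, p3 z (mem_closedBall_zero_iff.2 h), one_smul]
    rw [h2]
    refine dich_sum hδ.le (fun j => p2 j z) (p4 z) fun j hj => ?_
    rw [← congrFun hy j, norm_sub_rev]
    exact (a4 _ _ h (e2 j) (p5 j z hj).le).trans (min_le_right _ _)

/- If `d + η < 1` take `s`; otherwise take `(1 + τ) s`, where `η` is small against `τ`. -/
theorem dich_one {A : E → ℂ} {ε : ℝ} (hε : 0 < ε) (hA : ContDiff ℝ ∞ A) (hc : HasCompactSupport A)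
    (hρ : ∃ ρ < 1, ∀ x : E, ρ ≤ ‖x.2‖ → A x = 0) :
    ∃ s : ℂ → ℂ, ContDiff ℝ ∞ s ∧ (∀ z, ‖z‖ ≤ 1 → ‖dbar s z - A (s z, z)‖ ≤ ε) ∧
      ((∀ z, ‖z‖ = 1 → ‖s z‖ < 1) ∨
        ((∀ z, ‖z‖ = 1 → 1 < ‖s z‖) ∧ ∃ m : ℕ, 1 ≤ m ∧ Wind (-m) s)) := by
  obtain ⟨ρ, h1, hρ⟩ := hρ
  obtain ⟨M, hM⟩ := hc.exists_bound_of_continuous hA.continuous
  have M0 : 0 ≤ M := (norm_nonneg _).trans (hM 0)
  obtain ⟨R, hR, hz⟩ := hc.exists_pos_le_norm
  obtain ⟨δ, hδ, hd⟩ := dich_unif hA.continuous hc (show 0 < ε / 3 by positivity)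
  obtain ⟨τ, t0, t1, t2⟩ : ∃ τ : ℝ, 0 < τ ∧ τ * R ≤ δ ∧ τ * (M + 1) ≤ ε / 3 :=
    ⟨min (δ / R) (ε / 3 / (M + 1)), by positivity, (le_div_iff₀ hR).1 (min_le_left _ _),
      (le_div_iff₀ (by positivity)).1 (min_le_right _ _)⟩
  obtain ⟨η, n0, n1, n2⟩ : ∃ η : ℝ, 0 < η ∧ η ≤ ε / 3 ∧ η * (4 * (1 + τ)) ≤ τ :=
    ⟨min (ε / 3) (τ / (4 * (1 + τ))), by positivity, min_le_left _ _,
      (le_div_iff₀ (by positivity)).1 (min_le_right _ _)⟩
  have n3 : η ≤ 1 / 4 := by nlinarith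
  obtain ⟨s, d, F, a1, a2, a3, a4, a5⟩ := exists_approx (ρ := max ρ (1 / 2))
    (lt_max_of_lt_right one_half_pos) (max_lt h1 one_half_lt_one) n0 hA hc
    fun x hx => hρ x ((le_max_left _ _).trans hx)
  rcases lt_or_ge (d + η) 1 with h | h
  · refine ⟨s, a1, fun z hz => (a2 z hz).trans (by linarith), Or.inl fun z hz => ?_⟩
    have h2 := norm_sub_norm_le (s z) (F z)
    have h3 := a4 z hz
    linarith [h3.1, h3.2]
  · have nt : ‖((1 + τ : ℝ) : ℂ)‖ = 1 + τ := by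
      rw [Complex.norm_real, Real.norm_of_nonneg (by positivity)]
    have nt' : ‖(τ : ℂ)‖ = τ := by rw [Complex.norm_real, Real.norm_of_nonneg t0.le]
    refine ⟨fun z => ((1 + τ : ℝ) : ℂ) * s z, contDiff_const.mul a1, fun z hz1 => ?_,
      Or.inr ⟨fun z hz1 => ?_, ?_⟩⟩
    · rw [dbar_mul (differentiableAt_const _) (a1.differentiable (by simp) z)]
      have b1 := a2 z hz1
      have b2 : ‖dbar s z‖ ≤ M + 1 := by
        have h2 := norm_sub_norm_le (dbar s z) (A (s z, z))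
        linarith [hM (s z, z)]
      have b3 : ‖A (s z, z) - A (((1 + τ : ℝ) : ℂ) * s z, z)‖ ≤ ε / 3 := by
        rcases le_total R ‖s z‖ with h2 | h2
        · rw [hz _ (h2.trans (norm_fst_le (s z, z))), hz _ (le_trans ?_
            (norm_fst_le (((1 + τ : ℝ) : ℂ) * s z, z))), sub_zero, norm_zero]
          · positivity
          · show R ≤ ‖((1 + τ : ℝ) : ℂ) * s z‖
            rw [norm_mul, nt]
            nlinarith
        · refine hd _ _ _ ?_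
          rw [show s z - ((1 + τ : ℝ) : ℂ) * s z = -(τ * s z) by push_cast; ring, norm_neg,
            norm_mul, nt']
          exact (mul_le_mul_of_nonneg_left h2 t0.le).trans t1
      have b4 : ‖(τ : ℂ) * dbar s z‖ ≤ ε / 3 := by
        rw [norm_mul, nt']
        exact (mul_le_mul_of_nonneg_left b2 t0.le).trans t2
      rw [show ((1 + τ : ℝ) : ℂ) * dbar s z - A (((1 + τ : ℝ) : ℂ) * s z, z) =
        (dbar s z - A (s z, z)) + τ * dbar s z +
          (A (s z, z) - A (((1 + τ : ℝ) : ℂ) * s z, z)) by push_cast; ring]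
      refine norm_add₃_le.trans ?_
      linarith
    · have h2 := norm_sub_norm_le (F z) (s z)
      have h3 := a4 z hz1
      rw [norm_sub_rev] at h2
      have h4 : 1 - 2 * η ≤ ‖s z‖ := by linarith [h3.1, h3.2]
      rw [norm_mul, nt]
      nlinarith
    · obtain ⟨m, m1, m2⟩ := a5 (by linarith)
      refine ⟨m, m1, ?_⟩
      have h2 : Wind (-m) s := m2.near a3 a1.continuous.continuousOn fun z hz1 => by
        have h3 := a4 z hz1
        linarith [h3.1, h3.2]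
      have h3 := (wind_const (a := ((1 + τ : ℝ) : ℂ))
        (Complex.ofReal_ne_zero.2 (by positivity))).mul h2
      rwa [zero_add] at h3

/- scaling: `A' x = A (r • x)`, `s z = r * s' (z / r)` -/
theorem dichStmt : DichStmt := by
  rintro A r ε hr hε hA hc ⟨ρ, h1, hρ⟩
  obtain ⟨s, a1, a2, a3⟩ := dich_one (A := fun x => A (r • x)) hε
    (hA.comp (contDiff_const_smul r)) (hc.comp_smul hr.ne')
    ⟨ρ / r, (div_lt_one hr).2 h1, fun x hx => hρ _ (by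
      rw [Prod.smul_snd, norm_smul, Real.norm_of_nonneg hr.le, mul_comm]
      exact (div_le_iff₀ hr).1 hx)⟩
  have n1 : ∀ z : ℂ, ‖r⁻¹ • z‖ = ‖z‖ / r := fun z => by
    rw [norm_smul, Real.norm_of_nonneg (inv_nonneg.2 hr.le), inv_mul_eq_div]
  have n2 : ∀ z : ℂ, ‖r • z‖ = r * ‖z‖ := fun z => by rw [norm_smul, Real.norm_of_nonneg hr.le]
  have n3 : ∀ z : ℂ, ‖z‖ = r → ‖r⁻¹ • z‖ = 1 := fun z hz => by rw [n1, hz, div_self hr.ne']
  refine ⟨fun z => r • s (r⁻¹ • z), (a1.comp (contDiff_const_smul r⁻¹)).const_smul r,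
    fun z hz => ?_, ?_⟩
  · have hd : HasFDerivAt (fun z => r • s (r⁻¹ • z)) (fderiv ℝ s (r⁻¹ • z)) z := by
      refine (((a1.differentiable (by simp) (r⁻¹ • z)).hasFDerivAt.comp z
        ((hasFDerivAt_id z).const_smul r⁻¹)).const_smul r).congr_fderiv ?_
      refine ContinuousLinearMap.ext fun h => ?_
      show r • fderiv ℝ s (r⁻¹ • z) (r⁻¹ • h) = _
      rw [map_smul, smul_smul, mul_inv_cancel₀ hr.ne', one_smul]
    have h2 : dbar (fun z => r • s (r⁻¹ • z)) z = dbar s (r⁻¹ • z) := by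
      unfold dbar px py
      rw [hd.fderiv]
    have h3 := a2 (r⁻¹ • z) (by rw [n1]; exact (div_le_one hr).2 hz)
    rw [Prod.smul_mk, smul_smul, mul_inv_cancel₀ hr.ne', one_smul] at h3
    rw [h2]
    exact h3
  · rcases a3 with h | ⟨h, m, m1, g, g1, g2, g3⟩
    · refine Or.inl fun z hz => ?_
      rw [n2]
      exact mul_lt_of_lt_one_right hr (h _ (n3 z hz))
    · refine Or.inr ⟨fun z hz => ?_, m, fun θ => g θ + (Real.log r : ℝ), m1,
        g1.add continuous_const, fun θ => by simp only [g2], fun θ => ?_⟩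
      · rw [n2]
        exact lt_mul_of_one_lt_right hr (h _ (n3 z hz))
      · show r • s (r⁻¹ • ((r : ℂ) * _)) = _
        rw [← Complex.real_smul, smul_smul, inv_mul_cancel₀ hr.ne', one_smul, g3, Complex.real_smul]
        have h4 : (r : ℂ) = Complex.exp (Real.log r : ℝ) := by
          rw [← Complex.ofReal_exp, Real.exp_log hr]
        rw [add_sub_right_comm, Complex.exp_add (_ - _), ← h4, mul_comm]
        push_cast
        rw [neg_mul, neg_mul, ← sub_eq_add_neg]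

end Pool.Agent.Lib.MP_7ed551_gt.Cy
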