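import Pool.Agent.Lib.MP_7ed551_gt.Cy.W.Mas1
import Pool.Agent.Lib.MP_7ed551_gt.Cy.Iface

/-! The periods in a trivialisation. -/

open scoped ContDiff Topology
open Set Filter Metric Real

noncomputable section

namespace Pool.Agent.Lib.MP_7ed551_gt.Cy

open Pool.Agent.Lib.MP_ccffa6_gt

theorem mas_surj {r : ℝ} {y : E} (hy : y ∈ Ls r) : ∃ x, std r x = y :=
  ⟨(y.2.arg, y.1.arg), Prod.ext (hy.1 ▸ Complex.norm_mul_exp_arg_mul_I y.1)
    (hy.2 ▸ Complex.norm_mul_exp_arg_mul_I y.2)⟩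

theorem masStmt : MasStmt := by
  intro f lam r Φ Φ' β k hf hm hr hΦ hβ h0 hp hk he
  have dΦ := fun y => (hΦ.sm.differentiable (by simp) y).hasFDerivAt
  have d1 : ∀ x v, fderiv ℝ (fun x => f (k x)) x v = fderiv ℝ Φ (std r x) (fderiv ℝ (std r) x v) :=
    fun x v => by
      rw [← funext he]
      exact DFunLike.congr_fun ((dΦ _).comp x (hasFDerivAt_std r x).1.hasFDerivAt).fderiv v
  have d2 : ∀ x v, fderiv ℝ (fun x => f (k x)) x v = fderiv ℝ f (k x) (fderiv ℝ k x v) :=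
    fun x v => DFunLike.congr_fun ((hf.sm.differentiable (by simp) _).hasFDerivAt.comp x
      (hk.sm.differentiable (by simp) x).hasFDerivAt).fderiv v
  have hl : LagS r (pb Φ lam0) := fun y hy => by
    obtain ⟨x, rfl⟩ := mas_surj hy
    rw [dF_pb (hΦ.sm.contDiffAt.of_le (WithTop.coe_le_coe.2 (le_top (a := (2 : ℕ∞)))))
      (contDiff_lam0.differentiable (by simp) _), dF_lam0, ← (hasFDerivAt_std r x).2.1,
      ← (hasFDerivAt_std r x).2.2, ← d1, ← d1, d2, d2, hf.om_eq]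
  obtain ⟨G, g1, g2, g3, g4⟩ := exists_wind hr hΦ hβ hp (fun y hy => by
    obtain ⟨x, rfl⟩ := mas_surj hy
    rw [he, h0]) hl
  rw [funext he] at g2
  have key : ∀ e : ℝ × ℝ, (∃ m n : ℤ, ∀ x, k (x + (2 * π) • e) = k x + (2 * π * m, 2 * π * n)) →
      (∀ x, G (x + (2 * π) • e) = G x + 2 * π * Complex.I) →
      ∫ θ in (0 : ℝ)..2 * π, pb Φ lam0 (std r (θ • e)) (fderiv ℝ (std r) (θ • e) e) = 2 * lam :=
    fun e ⟨m, n, a⟩ b => by
      have c := period hf.sm hm hk.sm e ⟨m, n, by simpa using a 0⟩ (G := fun θ => G (θ • e))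
        (by fun_prop) fun θ => g2 _
      have b0 := b 0
      rw [zero_add] at b0
      simp only [b0, zero_smul, add_sub_cancel_left, d1] at c
      simp only [← he] at c
      refine (intervalIntegral.integral_congr fun θ _ => lam0_apply _ _).trans (c.trans ?_)
      simp [mul_comm]
  refine ⟨hl, Eq.trans ?_ (key (1, 0) (by simpa using hk.p1) (by simpa using g3)),
    Eq.trans ?_ (key (0, 1) (by simpa using hk.p2) (by simpa using g4))⟩
  · simp only [perB, (hasFDerivAt_std r _).2.1, Prod.smul_mk, smul_eq_mul, mul_one, mul_zero]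
  · simp only [perF, (hasFDerivAt_std r _).2.2, Prod.smul_mk, smul_eq_mul, mul_one, mul_zero]

end Pool.Agent.Lib.MP_7ed551_gt.Cy
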