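import Pool.Agent.Lib.MP_7ed551_gt.Cy.W.Push

/-! A path of tamed structures. -/

open scoped ContDiff Topology
open Set Filter Metric Real

noncomputable section

namespace Pool.Agent.Lib.MP_7ed551_gt.Cy

open Pool.Agent.Lib.MP_ccffa6_gt

/-- The linear part plus `τ` times the antilinear part of `1 - J0 J`. -/
def cayC (J : E →L[ℝ] E) (τ : ℝ) : E →L[ℝ] E :=
  1 - (1 / 2 : ℝ) • (J0 * J + J * J0) + (τ / 2) • (J * J0 - J0 * J)

/-- The interpolation between `J` (at `τ = 0`) and `J0` (at `τ = 1`). -/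
def cay (J : E →L[ℝ] E) (τ : ℝ) : E →L[ℝ] E := cayC J τ * J * (cayC J τ).inverse

theorem cay_J0_sq (v : E) : J0 (J0 v) = -v := by
  rw [J0_apply, J0_apply, smul_smul, Complex.I_mul_I, neg_one_smul]

/-- The linear part. -/
def cayP (J : E →L[ℝ] E) (x : E) : E := x - (1 / 2 : ℝ) • (J0 (J x) + J (J0 x))

/-- The antilinear part. -/
def cayQ (J : E →L[ℝ] E) (x : E) : E := (1 / 2 : ℝ) • (J (J0 x) - J0 (J x))

theorem cayC_apply (J : E →L[ℝ] E) (τ : ℝ) (x : E) : cayC J τ x = cayP J x + τ • cayQ J x := by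
  simp only [cayC, cayP, cayQ, add_apply, sub_apply, smul_apply, mul_apply_eq_comp,
    one_apply_eq_self, smul_smul]
  congr 2
  ring

theorem cayC_J {J : E →L[ℝ] E} (sq : ∀ v, J (J v) = -v) (τ : ℝ) (x : E) :
    cayC J τ (J x) = J (cayP J x - τ • cayQ J x) := by
  rw [cayC_apply]
  simp only [cayP, cayQ, map_sub, map_smul, map_add, sq, map_neg]
  module

theorem cay_invertible {A : E →L[ℝ] E} (h : Function.Injective A) : A.IsInvertible :=
  ⟨(LinearEquiv.ofInjectiveEndo (A : E →ₗ[ℝ] E) h).toContinuousLinearEquiv, by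
    refine ContinuousLinearMap.ext fun x => rfl⟩

/- With `cayC J τ = P + τ Q`: `P J = J P`, `Q J = -J Q`, `g a b = w a (J b)` is symmetric,
`w (C x) (C (J x)) = g (P x) (P x) - τ ^ 2 * g (Q x) (Q x)`; at `τ = 1`, `C = 1 - J0 J` is injective
and `C J = J0 C`. -/
theorem cay_spec {w : E →L[ℝ] E →L[ℝ] ℝ} {J : E →L[ℝ] E} (anti : ∀ u v, w u v = -w v u)
    (h0 : ∀ v, v ≠ 0 → 0 < w v (J0 v)) (sq : ∀ v, J (J v) = -v)
    (h1 : ∀ v, v ≠ 0 → 0 < w v (J v)) (inv : ∀ u v, w (J u) (J v) = w u v) {τ : ℝ}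
    (hτ : τ ∈ Icc (0 : ℝ) 1) : (cayC J τ).IsInvertible ∧ (∀ v, cay J τ (cay J τ v) = -v) ∧
      (∀ v, v ≠ 0 → 0 < w v (cay J τ v)) ∧ (τ = 0 → cay J τ = J) ∧ (τ = 1 → cay J τ = J0) := by
  have gs : ∀ u v, w u (J v) = w v (J u) := fun u v => by
    rw [← inv u (J v), sq, map_neg, anti, neg_neg]
  have key : ∀ (s : ℝ) (x : E), w (cayC J s x) (cayC J s (J x)) =
      w (cayP J x) (J (cayP J x)) - s ^ 2 * w (cayQ J x) (J (cayQ J x)) := fun s x => by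
    rw [cayC_J sq, cayC_apply]
    simp only [map_sub, map_add, map_smul, add_apply, smul_apply, smul_eq_mul]
    rw [gs (cayQ J x) (cayP J x)]
    ring
  have c1 : ∀ x, cayC J 1 x = x - J0 (J x) := fun x => by
    rw [cayC_apply]
    simp only [cayP, cayQ]
    module
  have c1J : ∀ x, cayC J 1 (J x) = J0 (cayC J 1 x) := fun x => by
    rw [c1, c1, sq, map_neg, map_sub, cay_J0_sq]
    abel
  have c1i : ∀ x, x ≠ 0 → cayC J 1 x ≠ 0 := fun x hx e => by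
    rw [c1, sub_eq_zero] at e
    have e2 : J0 x = -J x := by rw [← cay_J0_sq, ← e]
    have a1 := h0 x hx
    have a2 := h1 x hx
    rw [e2, map_neg] at a1
    linarith
  have pos : ∀ x, x ≠ 0 → 0 < w (cayC J τ x) (cayC J τ (J x)) := fun x hx => by
    have a1 := h0 _ (c1i x hx)
    rw [← c1J, key] at a1
    have a2 : 0 ≤ w (cayQ J x) (J (cayQ J x)) := by
      by_cases hq : cayQ J x = 0
      · rw [hq]
        simp
      · exact (h1 _ hq).le
    have a3 : τ ^ 2 ≤ 1 := pow_le_one₀ hτ.1 hτ.2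
    rw [key]
    nlinarith
  have hi : (cayC J τ).IsInvertible := by
    refine cay_invertible ((injective_iff_map_eq_zero _).2 fun x e => ?_)
    by_contra hx
    have a1 := pos x hx
    rw [e] at a1
    simp at a1
  have ap : ∀ x, cay J τ (cayC J τ x) = cayC J τ (J x) := fun x => by
    simp only [cay, mul_apply_eq_comp, hi.inverse_apply_self]
  refine ⟨hi, fun v => ?_, fun v hv => ?_, fun e => ?_, fun e => ?_⟩
  · obtain ⟨x, rfl⟩ := hi.surjective v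
    rw [ap, ap, sq, map_neg]
  · obtain ⟨x, rfl⟩ := hi.surjective v
    rw [ap]
    exact pos x fun e => hv (by rw [e, map_zero])
  · refine ContinuousLinearMap.ext fun v => ?_
    obtain ⟨x, rfl⟩ := hi.surjective v
    rw [ap, cayC_J sq, cayC_apply, e, zero_smul, sub_zero, add_zero]
  · refine ContinuousLinearMap.ext fun v => ?_
    obtain ⟨x, rfl⟩ := hi.surjective v
    rw [ap, e, c1J]

variable {Λ : Form1 E} {Θ : E → E} {N c a : ℝ} {k : ℤ × ℤ}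

theorem Can.dF_eq (h : Can Λ Θ N c a k) (hΛ : ContDiff ℝ ∞ Λ) (hΘ : ContDiff ℝ ∞ Θ) {Z : E}
    (hZ : Z ∈ Box N) (u v : E) :
    dF Λ (Θ Z) (fderiv ℝ Θ Z u) (fderiv ℝ Θ Z v) = c * om u v := by
  obtain ⟨g, hg, -, -, he⟩ := h
  let r1 : E →L[ℝ] ℝ := Complex.reCLM.comp (ContinuousLinearMap.fst ℝ ℂ ℂ)
  let r2 : E →L[ℝ] ℝ := Complex.reCLM.comp (ContinuousLinearMap.snd ℝ ℂ ℂ)
  let i1 : E →L[ℝ] ℝ := Complex.imCLM.comp (ContinuousLinearMap.fst ℝ ℂ ℂ)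
  let i2 : E →L[ℝ] ℝ := Complex.imCLM.comp (ContinuousLinearMap.snd ℝ ℂ ℂ)
  let L : E →L[ℝ] E →L[ℝ] ℝ := (c • r1).smulRight i1 + (c • r2).smulRight i2
  let b : E →L[ℝ] ℝ := (a / (2 * π) * k.1) • i1 + (a / (2 * π) * k.2) • i2
  have e1 : pb Θ Λ =ᶠ[𝓝 Z] fun y => (L y + b) + fderiv ℝ g y := by
    filter_upwards [(isOpen_Box N).mem_nhds hZ] with y hy
    refine ContinuousLinearMap.ext fun x => ?_
    rw [he y hy x]
    simp [L, b, r1, r2, i1, i2]
    ring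
  have d1 : HasFDerivAt (fun y => L y + b) L Z := L.hasFDerivAt.add_const b
  have d2 : DifferentiableAt ℝ (fderiv ℝ g) Z :=
    (hg.fderiv_right (m := ∞) (by simp)).differentiable (by simp) Z
  have e2 : dF (pb Θ Λ) Z = dF (fun y => (L y + b) + fderiv ℝ g y) Z := by
    rw [dF, dF, e1.fderiv_eq]
  rw [← dF_pb (hΘ.contDiffAt.of_le (by norm_cast)) (hΛ.differentiable (by simp) _), e2,
    dF_add d1.differentiableAt d2, dF_fderiv (hg.contDiffAt.of_le (by norm_cast)), add_apply,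
    add_apply, dF_apply, d1.fderiv]
  simp [L, r1, r2, i1, i2, om, w1]
  ring

/- Push `cay (T * J0 * T.inverse) (1 - smoothTransition t * χ N Z) - J0`, `T = fderiv ℝ Θ Z`. -/
theorem exists_path (hT : Tube Θ (3 * N)) (hN : 0 < N) (hc : 0 < c) (h : Can Λ Θ (3 * N) c a k)
    (hΛ : ContDiff ℝ ∞ Λ) (h0 : ∀ x v, v ≠ 0 → 0 < dF Λ x v (J0 v)) :
    ∃ J : ℝ × E → E →L[ℝ] E, ContDiff ℝ ∞ J ∧ (∀ p v, J p (J p v) = -v) ∧
      (∀ p v, v ≠ 0 → 0 < dF Λ p.2 v (J p v)) ∧ (∀ p : ℝ × E, p.2 ∉ Θ '' CBox (2 * N) → J p = J0) ∧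
      (∀ x, J (0, x) = J0) ∧ ∀ Z ∈ Box N, ∀ v,
        J (1, Θ Z) (fderiv ℝ Θ Z v) = fderiv ℝ Θ Z (Complex.I • v) := by
  obtain ⟨χ, C, -, hχ⟩ := exists_cut
  obtain ⟨χs, χp, χi, χ1, χ0, -⟩ := hχ N hN
  let T : E → E →L[ℝ] E := fun Z => fderiv ℝ Θ Z * J0 * (fderiv ℝ Θ Z).inverse
  let τ : ℝ × E → ℝ := fun p => 1 - smoothTransition p.1 * χ N p.2
  have τi : ∀ p, τ p ∈ Icc (0 : ℝ) 1 := fun p => by
    have a1 := smoothTransition.nonneg p.1
    have a2 := smoothTransition.le_one p.1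
    have a3 := χi p.2
    have a4 := mul_nonneg a1 a3.1
    have a5 := mul_le_one₀ a2 a3.1 a3.2
    exact ⟨by simp only [τ]; linarith, by simp only [τ]; linarith⟩
  have Ta : ∀ Z ∈ Box (3 * N), ∀ u, T Z (fderiv ℝ Θ Z u) = fderiv ℝ Θ Z (J0 u) := fun Z hZ u => by
    simp only [T, mul_apply_eq_comp, (hT.inv hZ).inverse_apply_self]
  have sp : ∀ (t : ℝ), ∀ Z ∈ Box (3 * N), (cayC (T Z) (τ (t, Z))).IsInvertible ∧
      (∀ v, cay (T Z) (τ (t, Z)) (cay (T Z) (τ (t, Z)) v) = -v) ∧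
      (∀ v, v ≠ 0 → 0 < dF Λ (Θ Z) v (cay (T Z) (τ (t, Z)) v)) ∧
      (τ (t, Z) = 0 → cay (T Z) (τ (t, Z)) = T Z) ∧ (τ (t, Z) = 1 → cay (T Z) (τ (t, Z)) = J0) := by
    intro t Z hZ
    have hs := (hT.inv hZ).surjective
    refine cay_spec (fun u v => ?_) (h0 _) (fun v => ?_) (fun v hv => ?_) (fun u v => ?_) (τi _)
    · rw [dF_apply, dF_apply, neg_sub]
    · obtain ⟨x, rfl⟩ := hs v
      rw [Ta Z hZ, Ta Z hZ, cay_J0_sq, map_neg]
    · obtain ⟨x, rfl⟩ := hs v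
      rw [Ta Z hZ, h.dF_eq hΛ hT.sm hZ]
      refine mul_pos hc ?_
      have hx : x ≠ 0 := fun e => hv (by rw [e, map_zero])
      have a1 : om x (J0 x) = Complex.normSq x.1 + Complex.normSq x.2 := by
        simp [J0_apply, om, w1, Complex.normSq_apply]
      rw [a1]
      by_cases e1 : x.1 = 0
      · have e2 : x.2 ≠ 0 := fun e2 => hx (Prod.ext e1 e2)
        exact add_pos_of_nonneg_of_pos (Complex.normSq_nonneg _) (Complex.normSq_pos.2 e2)
      · exact add_pos_of_pos_of_nonneg (Complex.normSq_pos.2 e1) (Complex.normSq_nonneg _)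
    · obtain ⟨x, rfl⟩ := hs u
      obtain ⟨y, rfl⟩ := hs v
      rw [Ta Z hZ, Ta Z hZ, h.dF_eq hΛ hT.sm hZ, h.dF_eq hΛ hT.sm hZ]
      simp [J0_apply, om, w1]
      left
      ring
  have Ts : ContDiffOn ℝ ∞ (fun p : ℝ × E => T p.2) (univ ×ˢ Box (3 * N)) := by
    have a1 : ContDiffOn ℝ ∞ T (Box (3 * N)) :=
      ((hT.sm.fderiv_right (m := ∞) (by simp)).contDiffOn.mul contDiffOn_const).mul hT.sm_inv
    exact a1.comp contDiffOn_snd fun p hp => hp.2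
  have τs : ContDiff ℝ ∞ τ :=
    contDiff_const.sub ((smoothTransition.contDiff.comp contDiff_fst).mul (χs.comp contDiff_snd))
  have Cs : ContDiffOn ℝ ∞ (fun p : ℝ × E => cayC (T p.2) (τ p)) (univ ×ˢ Box (3 * N)) :=
    (contDiffOn_const.sub (((contDiffOn_const.mul Ts).add (Ts.mul contDiffOn_const)).const_smul
      (1 / 2 : ℝ))).add ((τs.div_const 2).contDiffOn.smul
        ((Ts.mul contDiffOn_const).sub (contDiffOn_const.mul Ts)))
  have Is : ContDiffOn ℝ ∞ (fun p : ℝ × E => (cayC (T p.2) (τ p)).inverse)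
      (univ ×ˢ Box (3 * N)) := fun p hp =>
    ContDiffAt.comp_contDiffWithinAt (g := ContinuousLinearMap.inverse) p
      (sp p.1 p.2 hp.2).1.contDiffAt_map_inverse (Cs p hp)
  obtain ⟨ψ, ψs, ψe, ψ0⟩ := hT.push (ε := 2 * N) (by linarith)
    (φ := fun p : ℝ × E => cay (T p.2) (τ p) - J0) (((Cs.mul Ts).mul Is).sub contDiffOn_const)
    (fun t => ⟨fun Z => by simp only [T, τ, hT.per.fderiv.1 Z, χp.1 Z],
      fun Z => by simp only [T, τ, hT.per.fderiv.2 Z, χp.2 Z]⟩)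
    fun t Z hZ hZ' => sub_eq_zero.2 ((sp t Z hZ).2.2.2.2 (by simp only [τ, χ0 Z hZ']; ring))
  have cs : ∀ p : ℝ × E, (∃ Z ∈ Box (3 * N), p.2 = Θ Z ∧ ψ p + J0 = cay (T Z) (τ (p.1, Z))) ∨
      ψ p + J0 = J0 := fun p => by
    by_cases hp : p.2 ∈ Θ '' CBox (2 * N)
    · obtain ⟨Z, hZ, e⟩ := hp
      have hZ' : Z ∈ Box (3 * N) := CBox_sub (by linarith) hZ
      refine Or.inl ⟨Z, hZ', e.symm, ?_⟩
      have a1 := ψe p.1 Z hZ'
      rw [e] at a1
      rw [show ψ p = _ from a1, sub_add_cancel]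
    · exact Or.inr (by rw [show ψ p = 0 from ψ0 p.1 p.2 hp, zero_add])
  refine ⟨fun p => ψ p + J0, ψs.add contDiff_const, fun p v => ?_, fun p v hv => ?_,
    fun p hp => ?_, fun x => ?_, fun Z hZ v => ?_⟩
  · rcases cs p with ⟨Z, hZ, -, e⟩ | e
    · simp only [e]
      exact (sp p.1 Z hZ).2.1 v
    · simp only [e]
      exact cay_J0_sq v
  · rcases cs p with ⟨Z, hZ, e', e⟩ | e
    · simp only [e, e']
      exact (sp p.1 Z hZ).2.2.1 v hv
    · simp only [e]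
      exact h0 _ v hv
  · simp only [show ψ p = 0 from ψ0 p.1 p.2 hp, zero_add]
  · rcases cs (0, x) with ⟨Z, hZ, -, e⟩ | e
    · exact e.trans ((sp 0 Z hZ).2.2.2.2 (by simp [τ]))
    · exact e
  · have hZ' : Z ∈ Box (3 * N) := Box_mono (by linarith) hZ
    have a1 := (sp 1 Z hZ').2.2.2.1 (by simp [τ, χ1 Z (Box_sub le_rfl hZ)])
    simp only [ψe 1 Z hZ', sub_add_cancel, a1, Ta Z hZ', J0_apply]

end Pool.Agent.Lib.MP_7ed551_gt.Cy
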