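import Pool.Agent.Lib.MP_7ed551_gt.Cy.W.Frm
import Pool.Agent.Lib.MP_7ed551_gt.Cy.W.Cay
import Pool.Agent.Lib.MP_7ed551_gt.Cy.Iface

/-! The chart and the path. -/

open scoped ContDiff Topology
open Set Filter Metric Real

noncomputable section

namespace Pool.Agent.Lib.MP_7ed551_gt.Cy

open Pool.Agent.Lib.MP_ccffa6_gt

/-- Scaling of the real parts. -/
def scl (c : ℝ) : E →L[ℝ] E :=
  (c • Complex.ofRealCLM.comp Complex.reCLM + Complex.I • Complex.ofRealCLM.comp Complex.imCLM).prodMap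
    (c • Complex.ofRealCLM.comp Complex.reCLM + Complex.I • Complex.ofRealCLM.comp Complex.imCLM)

variable {Λ : Form1 E} {Θ : E → E} {N c a : ℝ} {k : ℤ × ℤ}

theorem scl_re (c : ℝ) (Z : E) : (scl c Z).1.re = c * Z.1.re ∧ (scl c Z).2.re = c * Z.2.re ∧
    (scl c Z).1.im = Z.1.im ∧ (scl c Z).2.im = Z.2.im := by
  simp [scl]

theorem scl_mem (hc : 0 < c) {Z : E} (hZ : Z ∈ Box N) : scl c Z ∈ Box (c * N) := by
  obtain ⟨a1, a2, -⟩ := scl_re c Z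
  constructor
  · rw [a1, abs_mul, abs_of_pos hc]
    exact mul_lt_mul_of_pos_left hZ.1 hc
  · rw [a2, abs_mul, abs_of_pos hc]
    exact mul_lt_mul_of_pos_left hZ.2 hc

theorem scl_fix (c : ℝ) {W : E} (h1 : W.1.re = 0) (h2 : W.2.re = 0) : scl c W = W := by
  obtain ⟨a1, a2, a3, a4⟩ := scl_re c W
  exact Prod.ext (Complex.ext (by rw [a1, h1, mul_zero]) a3)
    (Complex.ext (by rw [a2, h2, mul_zero]) a4)

theorem scl_inj (hc : 0 < c) : Function.Injective (scl c) := fun Z W e => by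
  obtain ⟨a1, a2, a3, a4⟩ := scl_re c Z
  obtain ⟨b1, b2, b3, b4⟩ := scl_re c W
  rw [e] at a1 a2 a3 a4
  exact Prod.ext (Complex.ext (mul_left_cancel₀ hc.ne' (a1.symm.trans b1)) (a3.symm.trans b3))
    (Complex.ext (mul_left_cancel₀ hc.ne' (a2.symm.trans b2)) (a4.symm.trans b4))

theorem scl_per {X : Type} {φ : E → X} (h : Per2 φ) (c : ℝ) : Per2 fun Z => φ (scl c Z) :=
  ⟨fun Z => by simp only [map_add]; rw [scl_fix c (W := (_, 0)) (by simp) (by simp), h.1],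
    fun Z => by simp only [map_add]; rw [scl_fix c (W := (0, _)) (by simp) (by simp), h.2]⟩

theorem scl_fd {V : Type} [NormedAddCommGroup V] [NormedSpace ℝ V] {φ : E → V}
    (h : ContDiff ℝ ∞ φ) (c : ℝ) (Z : E) :
    fderiv ℝ (fun Z => φ (scl c Z)) Z = (fderiv ℝ φ (scl c Z)).comp (scl c) :=
  (((h.differentiable (by simp)) _).hasFDerivAt.comp Z (scl c).hasFDerivAt).fderiv

theorem Tube.scl (h : Tube Θ (c * N)) (hc : 0 < c) : Tube (fun Z => Θ (scl c Z)) N := by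
  refine ⟨h.sm.comp (Cy.scl c).contDiff, scl_per h.per c, fun Z hZ Z' hZ' e => ?_, fun Z hZ => ?_⟩
  · obtain ⟨m, n, e'⟩ := h.inj _ (scl_mem hc hZ) _ (scl_mem hc hZ') e
    refine ⟨m, n, scl_inj hc ?_⟩
    rw [map_add, e', scl_fix c (W := (2 * π * Complex.I * m, _)) (by simp) (by simp)]
  · rw [scl_fd h.sm]
    exact (h.imm _ (scl_mem hc hZ)).comp (scl_inj hc)

theorem Can.scl (h : Can Λ Θ (c * N) 1 a k) (hΘ : ContDiff ℝ ∞ Θ) (hc : 0 < c) :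
    Can Λ (fun Z => Θ (scl c Z)) N c a k := by
  obtain ⟨g, h1, h2, h3, h4⟩ := h
  have p := scl_per (φ := g) ⟨h2, h3⟩ c
  refine ⟨fun Z => g (Cy.scl c Z), h1.comp (Cy.scl c).contDiff, p.1, p.2, fun Z hZ v => ?_⟩
  have k := h4 _ (scl_mem hc hZ) (Cy.scl c v)
  obtain ⟨a1, a2, -⟩ := scl_re c Z
  obtain ⟨-, -, a3, a4⟩ := scl_re c v
  rw [a1, a2, a3, a4, one_mul, one_mul] at k
  rw [scl_fd h1, ContinuousLinearMap.comp_apply, ← k, pb, pb, scl_fd hΘ]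
  rfl

theorem Can.mono (h : Can Λ Θ N c a k) {N' : ℝ} (hN : N' ≤ N) : Can Λ Θ N' c a k :=
  let ⟨g, h1, h2, h3, h4⟩ := h
  ⟨g, h1, h2, h3, fun Z hZ => h4 Z (Box_mono hN hZ)⟩

theorem chartU {f : ℝ × ℝ → E} {lam : ℝ} {U : Set E} (hf : Tor f) (hm : IsMonotone f lam)
    (hU : IsOpen U) (hR : ∀ x, f x ∈ U) :
    ∃ (β : Form1 E) (e : ℝ) (k : ℤ × ℤ), Small β ∧ 0 < e ∧
      (∀ x, β (f x) = 0 ∧ dF β (f x) = 0) ∧ ∀ N : ℝ, 0 < N →
      ∃ (J : ℝ × E → E →L[ℝ] E) (K : Set E) (Θ : E → E),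
        Path (fun x => lam0 x + β x) J K ∧ (∀ x ∈ K, x ∈ U) ∧
        Cht (fun x => J (1, x)) Θ N ∧ Can (fun x => lam0 x + β x) Θ N (e / N) (2 * lam) k ∧
        (∀ Z ∈ Box N, Θ Z ∈ U) ∧
        ∀ x : ℝ × ℝ, Θ (x.1 * Complex.I, x.2 * Complex.I) = f x := by
  obtain ⟨Θ, β, e, k, K, e0, hT, hβ, b0, k1, k2, k3, hC, hB, hf'⟩ := exists_core hf hm hU hR
  refine ⟨β, e / 3, k, hβ, by positivity, b0, fun N hN => ?_⟩
  have hc : 0 < e / 3 / N := by positivity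
  have he : e / 3 / N * (3 * N) = e := by field_simp
  have hT' := Tube.scl (he.symm ▸ hT) hc
  have hC' := Can.scl (he.symm ▸ hC) hT.sm hc
  have hΛ : ContDiff ℝ ∞ fun x => lam0 x + β x := contDiff_lam0.add hβ.sm
  have hB' : ∀ Z ∈ Box (3 * N), Θ (scl (e / 3 / N) Z) ∈ U := fun Z hZ =>
    hB _ ((congrArg Box he).subset (scl_mem hc hZ))
  obtain ⟨J, j1, j2, j3, j4, j5, j6⟩ := exists_path hT' hN hc hC' hΛ hβ.tame
  have hT'' := hT'.mono (by linarith : N ≤ 3 * N)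
  refine ⟨J, K ∪ (fun Z => Θ (scl (e / 3 / N) Z)) '' CBox (2 * N), _,
    ⟨hΛ, j1, j2, j3, k1.union (hT'.per.compact hT'.sm.continuous.continuousOn),
      fun x hx => by rw [k3 x fun h => hx (Or.inl h), add_zero],
      fun p hp => j4 p fun h => hp (Or.inr h), j5⟩, ?_,
    ⟨hT'.sm, hT'.per.1, hT'.per.2, hT''.inj, hT''.imm, j6⟩, hC'.mono (by linarith),
    fun Z hZ => hB' Z (Box_mono (by linarith) hZ), fun x => ?_⟩
  · rintro x (hx | ⟨Z, hZ, rfl⟩)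
    · exact k2 x hx
    · exact hB' Z (CBox_sub (by linarith) hZ)
  · rw [← hf']
    obtain ⟨a1, a2, a3, a4⟩ := scl_re (e / 3 / N) (x.1 * Complex.I, x.2 * Complex.I)
    exact congrArg Θ (Prod.ext (Complex.ext (by simpa using a1) a3)
      (Complex.ext (by simpa using a2) a4))

theorem chartStmt : ChartStmt := fun _ _ R0 hf hm hR =>
  chartU (U := {y | ‖y.1‖ < R0}) hf hm (isOpen_lt continuous_fst.norm continuous_const) hR

end Pool.Agent.Lib.MP_7ed551_gt.Cy
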