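import Pool.Agent.Lib.MP_7ed551_gt.Cy.W.Cay

/-! The Cayley transform of tamed structures. -/

open scoped ContDiff Topology
open Set Filter Metric Real

noncomputable section

namespace Pool.Agent.Lib.MP_7ed551_gt.Cy

open Pool.Agent.Lib.MP_ccffa6_gt

/-- The Cayley transform. -/
def cayT (S : E →L[ℝ] E) : E →L[ℝ] E := J0 * (1 + S) * (1 - S).inverse

/-- Its inverse. -/
def cayI (J : E →L[ℝ] E) : E →L[ℝ] E := (J + J0).inverse * (J - J0)

/-- Antilinear maps. -/
def Anti (S : E →L[ℝ] E) : Prop := ∀ x, S (J0 x) = -J0 (S x)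

/-- The convex set of the maps whose Cayley transform is tamed by `w`. -/
def Ctr (w : E →L[ℝ] E →L[ℝ] ℝ) (S : E →L[ℝ] E) : Prop :=
  ∀ x, x ≠ 0 → 0 < w (x - S x) (J0 (x + S x))

variable {w : E →L[ℝ] E →L[ℝ] ℝ} {S S' J : E →L[ℝ] E} {τ : ℝ}

theorem Anti.smul (h : Anti S) (τ : ℝ) : Anti (τ • S) := fun x => by
  simp only [smul_apply, h x, map_smul, smul_neg]

theorem Anti.add (h : Anti S) (h' : Anti S') : Anti (S + S') := fun x => by
  simp only [add_apply, h x, h' x, map_add, neg_add]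

theorem Ctr.inv (h : Ctr w S) : (1 - S).IsInvertible :=
  cay_invertible ((injective_iff_map_eq_zero _).2 fun x e => by_contra fun hx => by
    have a1 := h x hx
    rw [show x - S x = 0 from e] at a1
    simp at a1)

theorem Ctr.mix (h : Ctr w S) (h' : Ctr w S') (h0 : ∀ v, v ≠ 0 → 0 < w v (J0 v))
    (hτ : τ ∈ Icc (0 : ℝ) 1) : Ctr w ((1 - τ) • S + τ • S') := fun x hx => by
  have a1 := h x hx
  have a2 := h' x hx
  have a3 : 0 ≤ w (S x - S' x) (J0 (S x - S' x)) := by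
    by_cases e : S x - S' x = 0
    · simp [e]
    · exact (h0 _ e).le
  have a4 := mul_nonneg (mul_nonneg hτ.1 (sub_nonneg.2 hτ.2)) a3
  have a5 : 0 < (1 - τ) * w (x - S x) (J0 (x + S x)) + τ * w (x - S' x) (J0 (x + S' x)) := by
    rcases hτ.1.eq_or_lt with e | e
    · simpa [← e] using a1
    · exact add_pos_of_nonneg_of_pos (mul_nonneg (sub_nonneg.2 hτ.2) a1.le) (mul_pos e a2)
  simp only [map_sub, map_add, map_smul, add_apply, sub_apply, smul_apply, smul_eq_mul] at *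
  linarith

theorem ctr_zero (h0 : ∀ v, v ≠ 0 → 0 < w v (J0 v)) : Ctr w 0 := fun x hx => by
  simpa using h0 x hx

theorem Ctr.smul (h : Ctr w S) (h0 : ∀ v, v ≠ 0 → 0 < w v (J0 v)) (hτ : τ ∈ Icc (0 : ℝ) 1) :
    Ctr w (τ • S) := fun x hx => by
  simpa using (ctr_zero h0).mix h h0 hτ x hx

theorem ctr_om : Ctr omL S ↔ ∀ x, x ≠ 0 → om (S x) (J0 (S x)) < om x (J0 x) :=
  forall₂_congr fun x _ => by
    rw [← sub_pos (a := om x (J0 x))]
    refine iff_of_eq (congrArg _ ?_)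
    simp [omL_apply, om, w1, J0_apply]
    ring

theorem cayT_apply (h : (1 - S).IsInvertible) (x : E) : cayT S (x - S x) = J0 (x + S x) :=
  congrArg (fun y => J0 (y + S y)) (h.inverse_apply_self x)

theorem cayT_sq (h : (1 - S).IsInvertible) (ha : Anti S) (v : E) : cayT S (cayT S v) = -v := by
  obtain ⟨x, rfl⟩ := h.surjective v
  have e : J0 (x + S x) = J0 x - S (J0 x) := by rw [ha, map_add, sub_neg_eq_add]
  change cayT S (cayT S (x - S x)) = -(x - S x)
  rw [cayT_apply h, e, cayT_apply h, ha, ← map_neg, ← map_add, cay_J0_sq, sub_eq_add_neg]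

theorem Ctr.tame (h : Ctr w S) (v : E) (hv : v ≠ 0) : 0 < w v (cayT S v) := by
  obtain ⟨x, rfl⟩ := h.inv.surjective v
  change 0 < w (x - S x) (cayT S (x - S x))
  rw [cayT_apply h.inv]
  exact h x fun e => hv (by rw [e, map_zero])

theorem cayT_zero : cayT 0 = J0 := by
  rw [cayT, add_zero, sub_zero, mul_one, ContinuousLinearMap.one_def,
    ContinuousLinearMap.inverse_id, ← ContinuousLinearMap.one_def, mul_one]

theorem contDiffAt_cayT (h : (1 - S).IsInvertible) : ContDiffAt ℝ ∞ cayT S :=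
  (contDiffAt_const.mul (contDiffAt_const.add contDiffAt_id)).mul
    (h.contDiffAt_map_inverse.comp S (contDiffAt_const.sub contDiffAt_id))

theorem inv_add_J0 (h0 : ∀ v, v ≠ 0 → 0 < w v (J0 v)) (h1 : ∀ v, v ≠ 0 → 0 < w v (J v)) :
    (J + J0).IsInvertible :=
  cay_invertible ((injective_iff_map_eq_zero _).2 fun x e => by_contra fun hx => by
    have a1 := add_pos (h1 x hx) (h0 x hx)
    rw [← map_add, show J x + J0 x = 0 from e] at a1
    simp at a1)

theorem cayI_eq (h : (J + J0).IsInvertible) (x : E) : J (x - cayI J x) = J0 (x + cayI J x) := by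
  have e : J (cayI J x) + J0 (cayI J x) = J x - J0 x := h.self_apply_inverse _
  rw [map_sub, map_add]
  linear_combination (norm := module) -e

theorem cayI_anti (h : (J + J0).IsInvertible) (sq : ∀ v, J (J v) = -v) : Anti (cayI J) :=
  fun x => h.injective (by
    have e1 := cayI_eq h (J0 x)
    have e2 := congrArg J (cayI_eq h x)
    simp only [add_apply, map_sub, map_add, map_neg, sq, cay_J0_sq] at e1 e2 ⊢
    linear_combination (norm := module) -e1 - e2)

theorem cayI_ctr (h0 : ∀ v, v ≠ 0 → 0 < w v (J0 v)) (h1 : ∀ v, v ≠ 0 → 0 < w v (J v)) :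
    Ctr w (cayI J) := fun x hx => by
  have e := cayI_eq (inv_add_J0 h0 h1) x
  rw [← e]
  refine h1 _ fun a => ?_
  have a1 := h0 _ (show x + x ≠ 0 from fun b => hx (by rwa [← two_smul ℝ, smul_eq_zero_iff_right
    two_ne_zero] at b))
  rw [a, map_zero, ← sub_eq_zero.1 a] at e
  rw [← e] at a1
  simp at a1

theorem cayT_cayI (h0 : ∀ v, v ≠ 0 → 0 < w v (J0 v)) (h1 : ∀ v, v ≠ 0 → 0 < w v (J v)) :
    cayT (cayI J) = J := ContinuousLinearMap.ext fun v => by
  obtain ⟨x, rfl⟩ := (cayI_ctr h0 h1).inv.surjective v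
  exact (cayT_apply (cayI_ctr h0 h1).inv x).trans (cayI_eq (inv_add_J0 h0 h1) x).symm

theorem cayI_cayT (h0 : ∀ v, v ≠ 0 → 0 < w v (J0 v)) (h : Ctr w S) : cayI (cayT S) = S :=
  ContinuousLinearMap.ext fun x => (inv_add_J0 h0 h.tame).injective (by
    have e1 := cayI_eq (inv_add_J0 h0 h.tame) x
    have e2 := cayT_apply h.inv x
    simp only [add_apply, map_sub, map_add] at e1 e2 ⊢
    linear_combination (norm := module) e2 - e1)

theorem cayI_J0 : cayI J0 = 0 := by rw [cayI, sub_self, mul_zero]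

theorem contDiffAt_cayI (h : (J + J0).IsInvertible) : ContDiffAt ℝ ∞ cayI J :=
  (h.contDiffAt_map_inverse.comp J (contDiffAt_id.add contDiffAt_const)).mul
    (contDiffAt_id.sub contDiffAt_const)

theorem Amb.exists_path {Λ : Form1 E} {J : E → E →L[ℝ] E} {K : Set E} (h : Amb Λ J K)
    (h0 : ∀ x v, v ≠ 0 → 0 < dF Λ x v (J0 v)) :
    ∃ Jt : ℝ × E → E →L[ℝ] E, Path Λ Jt K ∧ ∀ x, Jt (1, x) = J x := by
  have a1 := fun x => inv_add_J0 (h0 x) (h.tame x)
  have a2 : ∀ p : ℝ × E, Ctr (dF Λ p.2) (smoothTransition p.1 • cayI (J p.2)) := fun p =>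
    (cayI_ctr (h0 _) (h.tame _)).smul (h0 _) ⟨smoothTransition.nonneg _, smoothTransition.le_one _⟩
  have a3 : ContDiff ℝ ∞ fun x => cayI (J x) := contDiff_iff_contDiffAt.2 fun x =>
    (contDiffAt_cayI (a1 x)).comp x h.smJ.contDiffAt
  refine ⟨fun p => cayT (smoothTransition p.1 • cayI (J p.2)), ⟨h.smΛ,
    contDiff_iff_contDiffAt.2 fun p => ContDiffAt.comp (g := cayT) p (contDiffAt_cayT (a2 p).inv)
      ((smoothTransition.contDiff.comp contDiff_fst).smul (a3.comp contDiff_snd)).contDiffAt,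
    fun p => cayT_sq (a2 p).inv ((cayI_anti (a1 _) (h.sq _)).smul _), fun p => (a2 p).tame,
    h.cpt, h.farΛ, fun p hp => ?_, fun x => ?_⟩, fun x => ?_⟩
  · rw [h.farJ _ hp, cayI_J0, ← cayT_zero]
    exact congrArg cayT (ContinuousLinearMap.ext fun v => by simp)
  · rw [← cayT_zero]
    exact congrArg cayT (ContinuousLinearMap.ext fun v => by simp)
  · rw [← cayT_cayI (h0 x) (h.tame x)]
    exact congrArg cayT (ContinuousLinearMap.ext fun v => by simp)

theorem om_J0_pos (v : E) (hv : v ≠ 0) : 0 < om v (J0 v) := by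
  have a1 : om v (J0 v) = Complex.normSq v.1 + Complex.normSq v.2 := by
    simp [J0_apply, om, w1, Complex.normSq_apply]
  rw [a1]
  by_cases e1 : v.1 = 0
  · exact add_pos_of_nonneg_of_pos (Complex.normSq_nonneg _)
      (Complex.normSq_pos.2 fun e2 => hv (Prod.ext e1 e2))
  · exact add_pos_of_pos_of_nonneg (Complex.normSq_pos.2 e1) (Complex.normSq_nonneg _)

theorem exists_path_om {J : E → E →L[ℝ] E} {K : Set E} (hJ : ContDiff ℝ ∞ J)
    (sq : ∀ x v, J x (J x v) = -v) (tame : ∀ x v, v ≠ 0 → 0 < om v (J x v)) (hK : IsCompact K)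
    (far : ∀ x, x ∉ K → J x = J0) :
    ∃ Jt : ℝ × E → E →L[ℝ] E, Path lam0 Jt K ∧ ∀ x, Jt (1, x) = J x :=
  Amb.exists_path ⟨contDiff_lam0, hJ, sq, fun x v hv => dF_lam0 x _ _ ▸ tame x v hv, hK,
    fun _ _ => rfl, far⟩ fun x v hv => dF_lam0 x _ _ ▸ om_J0_pos v hv

end Pool.Agent.Lib.MP_7ed551_gt.Cy
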