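import Pool.Agent.Lib.MP_7ed551_gt.Cy.W.Sch

/-! The extremal problem of Caratheodory and Fejer, with parameters. -/

open scoped ContDiff Topology
open Set Filter Metric Real

noncomputable section

namespace Pool.Agent.Lib.MP_7ed551_gt.Cy

open Pool.Agent.Lib.MP_ccffa6_gt

/-- `h` is holomorphic in the disc and `G + z ^ N h` is bounded by `d`. -/
def Cor (N : ℕ) (G : ℂ → ℂ) (d : ℝ) (h : ℂ → ℂ) : Prop :=
  DifferentiableOn ℂ h (ball 0 1) ∧ ∀ z ∈ ball (0 : ℂ) 1, ‖G z + z ^ N * h z‖ ≤ d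

variable {N : ℕ} {G h : ℂ → ℂ} {d M : ℝ}

/- copy `montel` of `MP_7b5e47_an/Hn/PMontel` or `rmt_montel` of `MP_e9d8ca_an/RMT` -/
theorem cf_montel {ι : Type} (𝒰 : Ultrafilter ι) {f : ι → ℂ → ℂ} {B : ℝ}
    (h : ∀ᶠ i in (𝒰 : Filter ι), Sch B (f i)) :
    ∃ g, DifferentiableOn ℂ g (ball 0 1) ∧
      ∀ z ∈ ball (0 : ℂ) 1, Tendsto (fun i => f i z) 𝒰 (𝓝 (g z)) := by
  have h1 : ∀ z, ∃ y, z ∈ ball (0 : ℂ) 1 → Tendsto (fun n => f n z) 𝒰 (𝓝 y) := by
    intro z
    by_cases hz : z ∈ ball (0 : ℂ) 1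
    · obtain ⟨y, -, hy⟩ := (isCompact_closedBall (0 : ℂ) B).ultrafilter_le_nhds
        (𝒰.map fun n => f n z) (by
          rw [Ultrafilter.coe_map, le_principal_iff, mem_map]
          exact h.mono fun n hn => mem_closedBall_zero_iff.2 (hn.2 z hz))
      exact ⟨y, fun _ => hy⟩
    · exact ⟨0, fun h => absurd h hz⟩
  choose g hg using h1
  refine ⟨g, TendstoLocallyUniformlyOn.differentiableOn (F := f) (φ := 𝒰) ?_
    (h.mono fun _ a => a.1) isOpen_ball, hg⟩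
  rw [Metric.tendstoLocallyUniformlyOn_iff]
  intro ε hε z hz
  obtain ⟨r, hr, hs⟩ := Metric.mem_nhds_iff.1 (isOpen_ball.mem_nhds hz)
  have hc : Tendsto (fun w => 2 * B / r * dist w z) (𝓝 z) (𝓝 0) :=
    Continuous.tendsto' (by fun_prop) _ _ (by simp)
  have hL : ∀ᶠ n in (𝒰 : Filter ι), ∀ w ∈ ball z r ∩ {w | 2 * B / r * dist w z < ε / 4},
      dist (f n w) (f n z) ≤ ε / 4 := by
    filter_upwards [h] with n h1 w hw
    refine (Complex.dist_le_div_mul_dist_of_mapsTo_ball (h1.1.mono hs)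
      (fun y hy => ?_) hw.1).trans hw.2.le
    rw [mem_closedBall, dist_eq_norm]
    linarith [norm_sub_le (f n y) (f n z), h1.2 y (hs hy), h1.2 z hz]
  refine ⟨_, mem_nhdsWithin_of_mem_nhds (inter_mem (ball_mem_nhds z hr)
    (hc.eventually (gt_mem_nhds (by positivity : 0 < ε / 4)))), ?_⟩
  filter_upwards [Metric.tendsto_nhds.1 (hg z hz) (ε / 4) (by positivity), hL] with n hn h2 w hw
  have h3 : dist (g w) (g z) ≤ ε / 4 :=
    le_of_tendsto ((hg w (hs hw.1)).dist (hg z hz)) (hL.mono fun n hn => hn w hw)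
  have h4 := dist_triangle4 (g w) (g z) (f n z) (f n w)
  rw [dist_comm (g z), dist_comm (f n z) (f n w)] at h4
  linarith [h2 w hw]

/- maximum principle on `ball 0 t`, `t → 1` -/
theorem Cor.bound (hh : Cor N G d h) (hM : ∀ z ∈ ball (0 : ℂ) 1, ‖G z‖ ≤ M) :
    Sch (d + M) h := by
  refine ⟨hh.1, fun z hz => ?_⟩
  have h1 : Tendsto (fun t : ℝ => (d + M) / t ^ N) (𝓝[<] 1) (𝓝 (d + M)) :=
    tendsto_nhdsWithin_of_tendsto_nhds (by
      simpa [Pi.div_def] using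
        (tendsto_const_nhds (x := d + M)).div ((continuous_pow N).tendsto (1 : ℝ)) (by simp))
  refine ge_of_tendsto h1 ?_
  filter_upwards [Ioo_mem_nhdsLT (mem_ball_zero_iff.1 hz)] with t ht
  have t0 : 0 < t := (norm_nonneg z).trans_lt ht.1
  refine Complex.norm_le_of_forall_mem_frontier_norm_le (U := ball 0 t) isBounded_ball
    (hh.1.diffContOnCl_ball (closedBall_subset_ball ht.2)) (fun w hw => ?_)
    (subset_closure (mem_ball_zero_iff.2 ht.1))
  rw [frontier_ball _ t0.ne', mem_sphere_zero_iff_norm] at hw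
  have hw' : w ∈ ball (0 : ℂ) 1 := mem_ball_zero_iff.2 (hw ▸ ht.2)
  rw [le_div_iff₀ (pow_pos t0 N), mul_comm, ← hw, ← norm_pow, ← norm_mul]
  linarith [norm_sub_le (G w + w ^ N * h w) (G w), hh.2 w hw', hM w hw',
    congrArg norm (add_sub_cancel_left (G w) (w ^ N * h w))]

theorem cf_zero (hM : ∀ z ∈ ball (0 : ℂ) 1, ‖G z‖ ≤ M) : Cor N G M fun _ => 0 :=
  ⟨differentiableOn_const _, fun z hz => by simpa using hM z hz⟩

theorem cf_lim {ι : Type} (𝒰 : Ultrafilter ι) {Gs f : ι → ℂ → ℂ} {ds : ι → ℝ}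
    (hM : ∀ i, ∀ z ∈ ball (0 : ℂ) 1, ‖Gs i z‖ ≤ M)
    (h1 : ∀ᶠ i in (𝒰 : Filter ι), Cor N (Gs i) (ds i) (f i))
    (h2 : ∀ z ∈ ball (0 : ℂ) 1, Tendsto (fun i => Gs i z) 𝒰 (𝓝 (G z)))
    (h3 : ∀ ε > 0, ∀ᶠ i in (𝒰 : Filter ι), ds i ≤ d + ε) :
    ∃ g, Cor N G d g ∧ ∀ z ∈ ball (0 : ℂ) 1, Tendsto (fun i => f i z) 𝒰 (𝓝 (g z)) := by
  obtain ⟨g, a, b⟩ := cf_montel 𝒰 (f := f) (B := d + 1 + M) (by
    filter_upwards [h1, h3 1 one_pos] with i a b
    exact ⟨a.1, fun z hz => ((a.bound (hM i)).2 z hz).trans (by linarith)⟩)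
  refine ⟨g, ⟨a, fun z hz => le_of_forall_pos_le_add fun ε hε => ?_⟩, b⟩
  refine le_of_tendsto ((h2 z hz).add ((b z hz).const_mul _)).norm ?_
  filter_upwards [h1, h3 ε hε] with i a b using (a.2 z hz).trans b

/- `d` is the infimum; `cf_montel` along an ultrafilter below `𝓝[>] d` -/
theorem exists_min (hM : ∀ z ∈ ball (0 : ℂ) 1, ‖G z‖ ≤ M) :
    ∃ d h, Cor N G d h ∧ 0 ≤ d ∧ ∀ d' h', Cor N G d' h' → d ≤ d' := by
  have hb : ∀ d' h', Cor N G d' h' → 0 ≤ d' := fun d' h' a =>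
    (norm_nonneg _).trans (a.2 0 (mem_ball_self one_pos))
  have hne : {d | ∃ h, Cor N G d h}.Nonempty := ⟨M, _, cf_zero hM⟩
  set d := sInf {d | ∃ h, Cor N G d h}
  have h1 : ∀ e, ∃ h, d < e → Cor N G e h := fun e => by
    by_cases he : d < e
    · obtain ⟨e', ⟨h, a⟩, b⟩ := exists_lt_of_csInf_lt hne he
      exact ⟨h, fun _ => ⟨a.1, fun z hz => (a.2 z hz).trans b.le⟩⟩
    · exact ⟨0, fun a => absurd a he⟩
  choose f hf using h1
  have h2 := Ultrafilter.of_le (𝓝[>] d)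
  obtain ⟨g, a, -⟩ := cf_lim (Ultrafilter.of (𝓝[>] d)) (G := G) (d := d) (ds := id) (fun _ => hM)
    (h2 (eventually_mem_nhdsWithin.mono hf)) (fun _ _ => tendsto_const_nhds)
    fun ε hε => h2 (mem_nhdsWithin_of_mem_nhds (Iic_mem_nhds (lt_add_of_pos_right d hε)))
  exact ⟨d, g, a, hb _ _ a, fun d' h' b => csInf_le ⟨0, fun _ ⟨_, c⟩ => hb _ _ c⟩ ⟨h', b⟩⟩

theorem cf_at0 {f g : ℂ → ℂ} (hf : ContinuousAt f 0) (hg : ContinuousAt g 0)
    (h : ∀ᶠ z in 𝓝[≠] 0, f z = g z) : f 0 = g 0 :=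
  tendsto_nhds_unique_of_eventuallyEq (hf.tendsto.mono_left nhdsWithin_le_nhds)
    (hg.tendsto.mono_left nhdsWithin_le_nhds) h

/- `Complex.differentiableOn_update_limUnder_of_bddAbove` or iterated `dslope` -/
theorem Jet.div {f : ℂ → ℂ} (hj : Jet N f G) {U : Set ℂ} (hU : IsOpen U) (h0 : (0 : ℂ) ∈ U)
    (hf : DifferentiableOn ℂ f U) (hG : DifferentiableOn ℂ G U) :
    ∃ h, DifferentiableOn ℂ h U ∧ ∀ z ∈ U, f z = G z + z ^ N * h z := by
  have hd : DifferentiableOn ℂ (fun z => (f z - G z) / z ^ N) (U \ {0}) :=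
    ((hf.sub hG).mono sdiff_subset).div (by fun_prop) fun z hz => pow_ne_zero N hz.2
  have h1 := Complex.differentiableOn_update_limUnder_of_isLittleO (hU.mem_nhds h0) hd
    (IsBoundedUnder.isLittleO_sub_self_inv ((Asymptotics.isBigO_one_iff ℝ).1
      (((Asymptotics.div_isBoundedUnder_of_isBigO hj).isBigO_one ℝ).sub
        (Asymptotics.isBigO_const_one ℝ _ _))))
  have h2 : ∀ z : ℂ, z ≠ 0 → ∀ c, f z = G z + z ^ N *
      Function.update (fun z => (f z - G z) / z ^ N) 0 c z := fun z hz c => by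
    rw [Function.update_of_ne hz, mul_div_cancel₀ _ (pow_ne_zero N hz), add_sub_cancel]
  refine ⟨_, h1, fun z hz => ?_⟩
  by_cases e : z = 0
  · subst e
    exact cf_at0 (hf.continuousOn.continuousAt (hU.mem_nhds h0))
      ((hG.add ((differentiableOn_pow N).mul h1)).continuousOn.continuousAt (hU.mem_nhds h0))
      (eventually_mem_nhdsWithin.mono fun z hz => h2 z hz _)
  · exact h2 z e _

theorem cf_cancel {h' : ℂ → ℂ} (h1 : DifferentiableOn ℂ h' (ball 0 1))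
    (h2 : DifferentiableOn ℂ h (ball 0 1))
    (e : ∀ z ∈ ball (0 : ℂ) 1, G z + z ^ N * h' z = G z + z ^ N * h z) : EqOn h' h (ball 0 1) := by
  have k : ∀ z ∈ ball (0 : ℂ) 1, z ≠ 0 → h' z = h z := fun z hz z0 =>
    mul_left_cancel₀ (pow_ne_zero N z0) (add_left_cancel (e z hz))
  intro z hz
  by_cases z0 : z = 0
  · subst z0
    have := isOpen_ball.mem_nhds hz
    refine cf_at0 (h1.continuousOn.continuousAt this) (h2.continuousOn.continuousAt this) ?_
    filter_upwards [self_mem_nhdsWithin, mem_nhdsWithin_of_mem_nhds this] with w a b using k w b a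
  · exact k z hz z0

theorem cf_jet {f : ℂ → ℂ} (h1 : DifferentiableOn ℂ h (ball 0 1))
    (e : ∀ z ∈ ball (0 : ℂ) 1, f z = G z + z ^ N * h z) : Jet N f G := by
  have hb := ball_mem_nhds (0 : ℂ) one_pos
  have h2 := (Asymptotics.isBigO_refl (fun z : ℂ => z ^ N) _).mul
    ((h1.continuousOn.continuousAt hb).tendsto.isBigO_one ℂ)
  refine (h2.congr' ?_ (Eventually.of_forall fun _ => mul_one _)).mono nhdsWithin_le_nhds
  filter_upwards [hb] with z hz
  rw [e z hz, add_sub_cancel_left]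

/- `d = 0`: `G + z ^ N h = 0`, `Jet.div` on `univ`.  `0 < d`: `schur` for `(G + z ^ N h) / d`; the
first case contradicts minimality.  Equality at `z = 0` by continuity. -/
theorem Cor.extremal (hG : Differentiable ℂ G) (hh : Cor N G d h) (h0 : 0 ≤ d)
    (hm : ∀ d' h', Cor N G d' h' → d ≤ d') :
    (∀ h', Cor N G d h' → EqOn h' h (ball 0 1)) ∧ ∃ H, AnalyticOnNhd ℂ H (closedBall 0 1) ∧
      EqOn H h (ball 0 1) ∧ (∀ z, ‖z‖ = 1 → ‖G z + z ^ N * H z‖ = d) ∧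
      (0 < d → ∃ k : ℕ, k < N ∧ Wind k fun z => G z + z ^ N * H z) := by
  have hs : ∀ h', Cor N G d h' → DifferentiableOn ℂ (fun z => G z + z ^ N * h' z) (ball 0 1) :=
    fun h' a => hG.differentiableOn.add (DifferentiableOn.mul (by fun_prop) a.1)
  rcases h0.eq_or_lt with rfl | h0
  · have e : ∀ h', Cor N G 0 h' → ∀ z ∈ ball (0 : ℂ) 1, G z + z ^ N * h' z = 0 :=
      fun h' a z hz => norm_le_zero_iff.1 (a.2 z hz)
    obtain ⟨H, a, b⟩ := (cf_jet (f := fun _ => 0) hh.1 fun z hz => (e h hh z hz).symm).div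
      isOpen_univ trivial (differentiableOn_const _) hG.differentiableOn
    exact ⟨fun h' c => cf_cancel c.1 hh.1 fun z hz => (e h' c z hz).trans (e h hh z hz).symm, H,
      (a.analyticOnNhd isOpen_univ).mono (subset_univ _), cf_cancel (a.mono (subset_univ _)) hh.1
        fun z hz => (b z trivial).symm.trans (e h hh z hz).symm,
      fun z _ => by rw [← b z trivial, norm_zero], fun c => absurd c (lt_irrefl _)⟩
  have d0 : (d : ℂ) ≠ 0 := Complex.ofReal_ne_zero.2 h0.ne'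
  have nd : ∀ w : ℂ, ‖d * w‖ = d * ‖w‖ := fun w => by
    rw [norm_mul, Complex.norm_real, Real.norm_of_nonneg h0.le]
  have h1 : ∀ h', Cor N G d h' → Sch 1 fun z => (G z + z ^ N * h' z) / d := fun h' a =>
    ⟨(hs h' a).div_const _, fun z hz => by
      rw [norm_div, Complex.norm_real, Real.norm_of_nonneg h0.le, div_le_one h0]
      exact a.2 z hz⟩
  rcases schur N (h1 h hh) with ⟨c, c1, g, g1, g2⟩ | ⟨u, F, k, hk, f1, f2, f3, f4⟩
  · have j : Jet N (fun z => d * g z) G :=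
      ((g2.const_mul_left d).add (cf_jet (G := G) hh.1 fun _ _ => rfl)).congr_left fun z => by
        field_simp
        ring
    obtain ⟨h', a, b⟩ := j.div isOpen_ball (mem_ball_self one_pos) (g1.1.const_mul _)
      hG.differentiableOn
    have := hm (d * c) h' ⟨a, fun z hz => by
      rw [← b z hz, nd]
      exact mul_le_mul_of_nonneg_left (g1.2 z hz) h0.le⟩
    nlinarith
  have e : ∀ z ∈ ball (0 : ℂ) 1, d * F z = G z + z ^ N * h z := fun z hz => by
    rw [f2 hz, mul_div_cancel₀ _ d0]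
  obtain ⟨H, a, b⟩ := (cf_jet (f := fun z => d * F z) hh.1 e).div (isOpen_analyticAt ℂ F)
    (f1 0 (mem_closedBall_self zero_le_one))
    (fun z hz => (hz.differentiableAt.const_mul _).differentiableWithinAt) hG.differentiableOn
  have b' : ∀ z, ‖z‖ = 1 → G z + z ^ N * H z = d * F z := fun z hz =>
    (b z (f1 z (mem_closedBall_zero_iff.2 hz.le))).symm
  refine ⟨fun h' c => cf_cancel c.1 hh.1 fun z hz => (div_left_inj' d0).1 (u _ (h1 h' c)
      (cf_jet (h := fun z => (h' z - h z) / d) ((c.1.sub hh.1).div_const _) fun z _ => by ring) hz),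
    H, (a.analyticOnNhd (isOpen_analyticAt ℂ F)).mono f1,
    cf_cancel (a.mono fun z hz => f1 z (ball_subset_closedBall hz)) hh.1
      fun z hz => (b z (f1 z (ball_subset_closedBall hz))).symm.trans (e z hz),
    fun z hz => by rw [b' z hz, nd, f3 z hz, mul_one], fun _ => ⟨k, hk, ?_⟩⟩
  exact (zero_add (k : ℤ) ▸ (wind_const d0).mul f4).congr b'

/- Continuity: `tendsto_iff_ultrafilter`; the minimal values satisfy `d y ≤ d y₀ + ε` near `y₀`, so
a limit of minimisers is a minimiser. -/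
theorem cf {Y : Type} [TopologicalSpace Y] (N : ℕ) {G : Y → ℂ → ℂ} {M : ℝ}
    (hG : ∀ y, Differentiable ℂ (G y)) (hM : ∀ y, ∀ z ∈ ball (0 : ℂ) 1, ‖G y z‖ ≤ M)
    (hc : ∀ y₀, ∀ ε > 0, ∀ᶠ y in 𝓝 y₀, ∀ z ∈ ball (0 : ℂ) 1, ‖G y z - G y₀ z‖ ≤ ε) :
    ∃ H : Y → ℂ → ℂ, (∀ z ∈ ball (0 : ℂ) 1, Continuous fun y => H y z) ∧ ∀ y,
      AnalyticOnNhd ℂ (H y) (closedBall 0 1) ∧ Sch (2 * M) (H y) ∧ ∃ d : ℝ,
        (∀ z, ‖z‖ = 1 → ‖G y z + z ^ N * H y z‖ = d) ∧
        (0 < d → ∃ k : ℕ, k < N ∧ Wind k fun z => G y z + z ^ N * H y z) := by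
  choose d h h1 h2 h3 using fun y => exists_min (N := N) (hM y)
  choose hu H a1 a2 a3 using fun y => (h1 y).extremal (hG y) (h2 y) (h3 y)
  refine ⟨H, fun z hz => continuous_iff_continuousAt.2 fun y => ?_, fun y => ⟨a1 y,
    ⟨(a1 y).differentiableOn.mono ball_subset_closedBall, fun z hz => ?_⟩, d y, a3 y⟩⟩
  · refine (tendsto_iff_ultrafilter _ _ _).2 fun 𝒰 hU => ?_
    obtain ⟨g, g1, g2⟩ := cf_lim 𝒰 (G := G y) (d := d y) hM (Eventually.of_forall h1)
      (fun w hw => Metric.tendsto_nhds.2 fun ε hε => hU ((hc y _ (half_pos hε)).mono fun x hx =>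
        (dist_eq_norm _ _).trans_lt ((hx w hw).trans_lt (half_lt_self hε))))
      fun ε hε => hU ((hc y ε hε).mono fun x hx => h3 x _ (h y) ⟨(h1 y).1, fun w hw => by
        have := norm_add_le (G y w + w ^ N * h y w) (G x w - G y w)
        rw [show G y w + w ^ N * h y w + (G x w - G y w) = G x w + w ^ N * h y w by ring] at this
        linarith [(h1 y).2 w hw, hx w hw]⟩)
    simpa only [a2 _ hz, ← hu y g g1 hz] using g2 z hz
  · rw [a2 y hz]
    linarith [((h1 y).bound (hM y)).2 z hz, h3 y _ _ (cf_zero (hM y))]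

end Pool.Agent.Lib.MP_7ed551_gt.Cy
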