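import Pool.Agent.Lib.MP_7ed551_gt.Cy.W.Lin

/-! Logarithms and periods. -/

open scoped ContDiff Topology
open Set Filter Metric Real

noncomputable section

namespace Pool.Agent.Lib.MP_7ed551_gt.Cy

open Pool.Agent.Lib.MP_ccffa6_gt

/- `Complex.isCoveringMapOn_exp.existsUnique_continuousMap_lifts` -/
theorem exists_log {V : Type} [NormedAddCommGroup V] [NormedSpace ℝ V] {p : V → ℂ}
    (hp : Continuous p) (h0 : ∀ x, p x ≠ 0) :
    ∃ l : V → ℂ, Continuous l ∧ ∀ x, Complex.exp (l x) = p x := by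
  obtain ⟨l, ⟨-, hl⟩, -⟩ := Complex.isCoveringMapOn_exp.existsUnique_continuousMap_lifts
    ⟨p, hp⟩ (a₀ := 0) (Complex.exp_log (h0 0)) h0
  exact ⟨l, l.continuous, fun x => congrFun hl x⟩

theorem log_lin (A : ℝ × ℝ →L[ℝ] E) (v : ℝ × ℝ) : A v = v.1 • A (1, 0) + v.2 • A (0, 1) := by
  rw [← map_smul, ← map_smul, ← map_add]
  simp

theorem fdet_comp {f : ℝ × ℝ → E} {κ : ℝ × ℝ → ℝ × ℝ} {x : ℝ × ℝ}
    (hf : DifferentiableAt ℝ f (κ x)) (hκ : DifferentiableAt ℝ κ x) :
    ∃ D : ℝ, fdet (fun x => f (κ x)) x = D * fdet f (κ x) := by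
  refine ⟨(fderiv ℝ κ x (1, 0)).1 * (fderiv ℝ κ x (0, 1)).2 -
    (fderiv ℝ κ x (1, 0)).2 * (fderiv ℝ κ x (0, 1)).1, ?_⟩
  simp only [fdet]
  rw [fderiv_fun_comp x hf hκ, ContinuousLinearMap.comp_apply, ContinuousLinearMap.comp_apply,
    log_lin _ (fderiv ℝ κ x (1, 0)), log_lin _ (fderiv ℝ κ x (0, 1))]
  simp only [Prod.fst_add, Prod.snd_add, Prod.smul_fst, Prod.smul_snd, Complex.real_smul]
  push_cast
  ring

/- `IsMonotone` for `c t = κ ((2 * π * t) • e)`, `ϑ t = 2 * (G (2 * π * t)).im` -/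
theorem period {f : ℝ × ℝ → E} {κ : ℝ × ℝ → ℝ × ℝ} {lam : ℝ} (hf : ContDiff ℝ ∞ f)
    (hm : IsMonotone f lam) (hκ : ContDiff ℝ ∞ κ) (e : ℝ × ℝ)
    (hc : ∃ m n : ℤ, κ ((2 * π) • e) = κ 0 + (2 * π * m, 2 * π * n)) {G : ℝ → ℂ}
    (hG : Continuous G) (he : ∀ θ : ℝ, fdet (fun x => f (κ x)) (θ • e) = Complex.exp (G θ)) :
    ∫ θ in (0 : ℝ)..2 * π, om (f (κ (θ • e))) (fderiv ℝ (fun x => f (κ x)) (θ • e) e) / 2 =
      lam * ((G (2 * π) - G 0).im / π) := by
  have hf' := hf.differentiable (by simp)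
  have hκ' := hκ.differentiable (by simp)
  have h1 := hm (fun t => κ ((2 * π * t) • e)) (fun t => 2 * (G (2 * π * t)).im)
    ((hκ.of_le (by simp)).comp (by fun_prop)) (by fun_prop) (by simpa using hc) fun t => by
      obtain ⟨D, hD⟩ := fdet_comp (hf' _) (hκ' ((2 * π * t) • e))
      rw [he] at hD
      have h2 : D ≠ 0 := fun h => Complex.exp_ne_zero _ (by rw [hD, h]; simp)
      have h3 : (D : ℂ) ≠ 0 := Complex.ofReal_ne_zero.2 h2
      refine ⟨Real.exp (2 * (G (2 * π * t)).re) / D ^ 2, by positivity, ?_⟩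
      push_cast
      rw [div_mul_eq_mul_div, eq_div_iff (pow_ne_zero 2 h3), ← mul_pow, mul_comm, ← hD,
        ← Complex.exp_add, ← Complex.exp_nat_mul]
      refine congrArg Complex.exp ?_
      linear_combination (-2) * Complex.re_add_im (G (2 * π * t))
  have h4 : ∀ t : ℝ, om (f (κ ((2 * π * t) • e))) (deriv (fun s => f (κ ((2 * π * s) • e))) t) / 2 =
      2 * π * (om (f (κ ((2 * π * t) • e)))
        (fderiv ℝ (fun x => f (κ x)) ((2 * π * t) • e) e) / 2) := fun t => by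
    have h5 : HasDerivAt (fun s : ℝ => (2 * π * s) • e) ((2 * π) • e) t := by
      simpa using ((hasDerivAt_id' t).const_mul (2 * π)).smul_const e
    have h6 : deriv (fun s => f (κ ((2 * π * s) • e))) t = _ :=
      ((hf'.fun_comp hκ' _).hasFDerivAt.comp_hasDerivAt t h5).deriv
    rw [h6, map_smul, ← omL_apply, ← omL_apply, map_smul, smul_eq_mul, mul_div_assoc]
  simp only [h4] at h1
  rw [intervalIntegral.integral_const_mul, intervalIntegral.mul_integral_comp_mul_left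
    (f := fun θ => om (f (κ (θ • e))) (fderiv ℝ (fun x => f (κ x)) (θ • e) e) / 2), mul_zero,
    mul_one] at h1
  rw [h1, Complex.sub_im, ← mul_sub, mul_div_mul_left _ _ two_ne_zero]

theorem Tor.om_eq {f : ℝ × ℝ → E} (h : Tor f) (x u v : ℝ × ℝ) :
    om (fderiv ℝ f x u) (fderiv ℝ f x v) = 0 := by
  have h1 := h.lag x
  rw [log_lin _ u, log_lin _ v]
  simp only [om, w1, Prod.fst_add, Prod.snd_add, Prod.smul_fst, Prod.smul_snd, Complex.add_re,
    Complex.add_im, Complex.smul_re, Complex.smul_im, smul_eq_mul] at h1 ⊢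
  linear_combination (u.1 * v.2 - u.2 * v.1) * h1

theorem Tor.fdet_ne {f : ℝ × ℝ → E} (h : Tor f) (x : ℝ × ℝ) : fdet f x ≠ 0 := by
  intro h0
  have h1 := h.lag x
  have h2 := congrArg Complex.re h0
  have h3 := congrArg Complex.im h0
  have h4 := fun v => (injective_iff_map_eq_zero _).1 (h.imm x) v
  simp only [fdet, om, w1, Complex.sub_re, Complex.sub_im, Complex.mul_re, Complex.mul_im,
    Complex.zero_re, Complex.zero_im] at h1 h2 h3
  have h5 : fderiv ℝ f x (1, 0) ≠ 0 := fun e => one_ne_zero (congrArg Prod.fst (h4 _ e))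
  have h6 : ∀ v : ℝ × ℝ, v.1 • fderiv ℝ f x (1, 0) + v.2 • fderiv ℝ f x (0, 1) = 0 → v = 0 :=
    fun v e => h4 v ((log_lin _ v).trans e)
  generalize fderiv ℝ f x (1, 0) = A at h1 h2 h3 h5 h6
  generalize fderiv ℝ f x (0, 1) = B at h1 h2 h3 h6
  have h7 := h6 (-(A.1.re * B.1.re + A.1.im * B.1.im + A.2.re * B.2.re + A.2.im * B.2.im),
    A.1.re ^ 2 + A.1.im ^ 2 + A.2.re ^ 2 + A.2.im ^ 2) (by
      refine Prod.ext (Complex.ext ?_ ?_) (Complex.ext ?_ ?_) <;>
        simp only [Prod.fst_add, Prod.snd_add, Prod.smul_fst, Prod.smul_snd, Complex.add_re,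
          Complex.add_im, Complex.smul_re, Complex.smul_im, smul_eq_mul, Prod.fst_zero,
          Prod.snd_zero, Complex.zero_re, Complex.zero_im]
      · linear_combination -A.1.im * h1 - A.2.re * h2 - A.2.im * h3
      · linear_combination A.1.re * h1 - A.2.re * h3 + A.2.im * h2
      · linear_combination -A.2.im * h1 + A.1.re * h2 + A.1.im * h3
      · linear_combination A.2.re * h1 + A.1.re * h3 - A.1.im * h2)
  have h8 : A.1.re ^ 2 + A.1.im ^ 2 + A.2.re ^ 2 + A.2.im ^ 2 = 0 := congrArg Prod.snd h7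
  have h9 := sq_nonneg A.1.re
  have h10 := sq_nonneg A.1.im
  have h11 := sq_nonneg A.2.re
  have h12 := sq_nonneg A.2.im
  refine h5 (Prod.ext (Complex.ext ?_ ?_) (Complex.ext ?_ ?_)) <;>
    exact pow_eq_zero_iff two_ne_zero |>.1 (by linarith)

theorem log_fd {f : ℝ × ℝ → E} {p : ℝ × ℝ} (hp : ∀ x, f (x + p) = f x) (x : ℝ × ℝ) :
    fderiv ℝ f (x + p) = fderiv ℝ f x := by
  rw [← fderiv_comp_add_right, funext hp]

theorem log_per {f : ℝ × ℝ → E} {lam : ℝ} (h : Tor f) (hm : IsMonotone f lam) {u : ℝ × ℝ → ℝ}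
    (hu : ∀ x, HasFDerivAt u (pb f lam0 x) x) {e p : ℝ × ℝ} (he : (2 * π) • e = p)
    (hp : ∀ x, f (x + p) = f x) (hc : ∃ m n : ℤ, p = (2 * π * m, 2 * π * n)) :
    ∃ k : ℤ, ∀ x, u (x + p) = u x + 2 * lam * k := by
  have hd : Continuous (fderiv ℝ f) := h.sm.continuous_fderiv (by simp)
  obtain ⟨l, h1, h2⟩ := exists_log (p := fdet f) (by unfold fdet; fun_prop) h.fdet_ne
  have h3 := period (κ := fun x => x) h.sm hm contDiff_id e (by simpa only [zero_add, he] using hc)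
    (G := fun θ => l (θ • e)) (by fun_prop) fun θ => (h2 _).symm
  have h4 : Complex.exp (l p) = Complex.exp (l 0) := by
    rw [h2, h2, fdet, fdet, ← log_fd hp 0, zero_add]
  obtain ⟨k, hk⟩ := Complex.exp_eq_exp_iff_exists_int.1 h4
  have h5 : ∀ x, HasFDerivAt (fun x => u (x + p) - u x) (0 : ℝ × ℝ →L[ℝ] ℝ) x := fun x => by
    have h6 := ((hasFDerivAt_comp_add_right p).2 (hu (x + p))).fun_sub (hu x)
    rwa [pb, pb, hp, log_fd hp, sub_self] at h6
  have h6 := is_const_of_fderiv_eq_zero (fun x => (h5 x).differentiableAt) fun x => (h5 x).fderiv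
  have h7 := intervalIntegral.integral_eq_sub_of_hasDerivAt (a := 0) (b := 2 * π)
    (f := fun θ : ℝ => u (θ • e)) (f' := fun θ => om (f (θ • e)) (fderiv ℝ f (θ • e) e) / 2)
    (fun θ _ => by
      have h8 := (hu (θ • e)).comp_hasDerivAt θ ((hasDerivAt_id' θ).smul_const e)
      rwa [one_smul, pb, ContinuousLinearMap.comp_apply, lam0_apply] at h8)
    (Continuous.intervalIntegrable (by
      have := h.sm.continuous
      unfold om w1
      fun_prop) _ _)
  refine ⟨k, fun x => ?_⟩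
  have h9 := h6 x 0
  simp only [he, zero_smul, hk, add_sub_cancel_left] at h3 h7
  simp only [zero_add] at h9
  have h10 : ((k : ℂ) * (2 * π * Complex.I)).im / π = 2 * k := by
    simp
    field_simp
  rw [h10] at h3
  linarith

/- The pull-back of `lam0` is closed; `Convex.exists_forall_hasFDerivAt_of_fderiv_symmetric` gives
a primitive `u`; `u (x + period) - u x` is constant and equal to the period; `exists_log`,
`period` with `κ = id`, `Complex.exp_eq_exp_iff_exists_int`. -/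
theorem exists_prim {f : ℝ × ℝ → E} {lam : ℝ} (h : Tor f) (hm : IsMonotone f lam) :
    ∃ (k : ℤ × ℤ) (g : ℝ × ℝ → ℝ), ContDiff ℝ ∞ g ∧ (∀ x, g (x + (2 * π, 0)) = g x) ∧
      (∀ x, g (x + (0, 2 * π)) = g x) ∧ ∀ x v, om (f x) (fderiv ℝ f x v) / 2 =
        2 * lam / (2 * π) * k.1 * v.1 + 2 * lam / (2 * π) * k.2 * v.2 + fderiv ℝ g x v := by
  have hα := contDiff_pb h.sm contDiff_lam0
  obtain ⟨u, hu⟩ := convex_univ.exists_forall_hasFDerivAt_of_fderiv_symmetric isOpen_univ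
    (hα.differentiable (by simp)).differentiableOn fun x _ a b => by
      rw [← sub_eq_zero, ← dF_apply, dF_pb (h.sm.contDiffAt.of_le (by norm_cast))
        (contDiff_lam0.differentiable (by simp) _), dF_lam0, h.om_eq]
  replace hu := fun x => hu x (mem_univ x)
  have h1 : ContDiff ℝ ∞ u := contDiff_infty_iff_fderiv.2
    ⟨fun x => (hu x).differentiableAt, by rwa [funext fun x => (hu x).fderiv]⟩
  obtain ⟨k, hk⟩ := log_per h hm hu (e := (1, 0)) (by simp) h.p1 ⟨1, 0, by simp⟩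
  obtain ⟨k', hk'⟩ := log_per h hm hu (e := (0, 1)) (by simp) h.p2 ⟨0, 1, by simp⟩
  let L : ℝ × ℝ →L[ℝ] ℝ := (2 * lam / (2 * π) * k) • ContinuousLinearMap.fst ℝ ℝ ℝ +
    (2 * lam / (2 * π) * k') • ContinuousLinearMap.snd ℝ ℝ ℝ
  have hL : ∀ v, L v = 2 * lam / (2 * π) * k * v.1 + 2 * lam / (2 * π) * k' * v.2 := fun _ => rfl
  refine ⟨(k, k'), fun x => u x - L x, h1.sub L.contDiff, fun x => ?_, fun x => ?_, fun x v => ?_⟩
  · simp only [hk, map_add L, hL (2 * π, 0)]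
    field_simp
    ring
  · simp only [hk', map_add L, hL (0, 2 * π)]
    field_simp
    ring
  · rw [((hu x).fun_sub L.hasFDerivAt).fderiv, sub_apply, hL, pb, ContinuousLinearMap.comp_apply,
      lam0_apply]
    ring

end Pool.Agent.Lib.MP_7ed551_gt.Cy
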