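import Pool.Agent.Lib.MP_7ed551_gt.Cy.W.Push
import Pool.Agent.Lib.MP_7ed551_gt.Cy.W.Log

/-! The chart near the torus. -/

open scoped ContDiff Topology
open Set Filter Metric Real

noncomputable section

namespace Pool.Agent.Lib.MP_7ed551_gt.Cy

open Pool.Agent.Lib.MP_ccffa6_gt

/-- The imaginary parts. -/
def imL : E →L[ℝ] ℝ × ℝ :=
  (Complex.imCLM.comp (ContinuousLinearMap.fst ℝ ℂ ℂ)).prod
    (Complex.imCLM.comp (ContinuousLinearMap.snd ℝ ℂ ℂ))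

theorem imL_apply (Z : E) : imL Z = (Z.1.im, Z.2.im) := rfl

variable {f : ℝ × ℝ → E}

/-- The Euclidean inner product. -/
def frIp (u v : E) : ℝ := u.1.re * v.1.re + u.1.im * v.1.im + u.2.re * v.2.re + u.2.im * v.2.im

theorem frIp_eq (u v : E) : frIp u v = omL (-J0 u) v := by
  simp [frIp, omL_apply, om, w1, J0_apply]
  ring

theorem frIp_self {u : E} (h : frIp u u = 0) : u = 0 := by
  unfold frIp at h
  have a1 := mul_self_nonneg u.1.re
  have a2 := mul_self_nonneg u.1.im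
  have a3 := mul_self_nonneg u.2.re
  have a4 := mul_self_nonneg u.2.im
  have h1 : u.1.re = 0 := mul_self_eq_zero.1 (by linarith)
  have h2 : u.1.im = 0 := mul_self_eq_zero.1 (by linarith)
  have h3 : u.2.re = 0 := mul_self_eq_zero.1 (by linarith)
  have h4 : u.2.im = 0 := mul_self_eq_zero.1 (by linarith)
  exact Prod.ext (Complex.ext h1 h2) (Complex.ext h3 h4)

theorem fr_split (L : ℝ × ℝ →L[ℝ] E) (v : ℝ × ℝ) : L v = v.1 • L (1, 0) + v.2 • L (0, 1) := by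
  rw [← map_smul, ← map_smul, ← map_add]
  congr 1
  ext <;> simp

theorem fr_det {L : ℝ × ℝ →L[ℝ] E} (h : Function.Injective L) :
    frIp (L (1, 0)) (L (1, 0)) * frIp (L (0, 1)) (L (0, 1)) - frIp (L (1, 0)) (L (0, 1)) ^ 2
      ≠ 0 := by
  intro h0
  have h1 : L (frIp (L (0, 1)) (L (0, 1)), -frIp (L (1, 0)) (L (0, 1))) = 0 := by
    apply frIp_self
    rw [fr_split]
    generalize L (1, 0) = a at h0 ⊢
    generalize L (0, 1) = b at h0 ⊢
    have h2 : frIp ((frIp b b, -frIp a b).1 • a + (frIp b b, -frIp a b).2 • b)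
        ((frIp b b, -frIp a b).1 • a + (frIp b b, -frIp a b).2 • b) =
        frIp b b * (frIp a a * frIp b b - frIp a b ^ 2) := by
      simp [frIp]
      ring
    rw [h2, h0, mul_zero]
  have h2 := h (h1.trans (map_zero L).symm)
  have h3 := h ((frIp_self (congrArg Prod.fst h2)).trans (map_zero L).symm)
  simpa using congrArg Prod.snd h3

theorem fr_per {V : Type} [NormedAddCommGroup V] [NormedSpace ℝ V] {g : ℝ × ℝ → V} {p : ℝ × ℝ}
    (h : ∀ x, g (x + p) = g x) (x : ℝ × ℝ) : fderiv ℝ g (x + p) = fderiv ℝ g x := by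
  rw [← fderiv_comp_add_right p]
  congr 1
  exact funext h

theorem exists_frame (h : Tor f) : ∃ n₁ n₂ : ℝ × ℝ → E, ContDiff ℝ ∞ n₁ ∧ ContDiff ℝ ∞ n₂ ∧
    (∀ x y, fderiv ℝ f x = fderiv ℝ f y → n₁ x = n₁ y ∧ n₂ x = n₂ y) ∧
    (∀ x v, om (n₁ x) (fderiv ℝ f x v) = v.1) ∧ (∀ x v, om (n₂ x) (fderiv ℝ f x v) = v.2) ∧
    ∀ x, om (n₁ x) (n₂ x) = 0 := by
  have hD : ContDiff ℝ ∞ (fderiv ℝ f) := h.sm.fderiv_right (by simp)
  let a : ℝ × ℝ → E := fun x => fderiv ℝ f x (1, 0)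
  let b : ℝ × ℝ → E := fun x => fderiv ℝ f x (0, 1)
  have ha : ContDiff ℝ ∞ a := hD.clm_apply contDiff_const
  have hb : ContDiff ℝ ∞ b := hD.clm_apply contDiff_const
  have hip : ∀ {u v : ℝ × ℝ → E}, ContDiff ℝ ∞ u → ContDiff ℝ ∞ v →
      ContDiff ℝ ∞ fun x => frIp (u x) (v x) := fun hu hv => by
    simp only [frIp_eq]
    exact (omL.contDiff.comp (J0.contDiff.comp hu).neg).clm_apply hv
  let D : ℝ × ℝ → ℝ := fun x => frIp (a x) (a x) * frIp (b x) (b x) - frIp (a x) (b x) ^ 2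
  have hD0 : ∀ x, D x ≠ 0 := fun x => fr_det (h.imm x)
  have hDs : ContDiff ℝ ∞ fun x => (D x)⁻¹ :=
    (((hip ha ha).mul (hip hb hb)).sub ((hip ha hb).pow 2)).inv hD0
  refine ⟨fun x => (D x)⁻¹ • -J0 (frIp (b x) (b x) • a x - frIp (a x) (b x) • b x),
    fun x => (D x)⁻¹ • -J0 (frIp (a x) (a x) • b x - frIp (a x) (b x) • a x),
    hDs.smul (J0.contDiff.comp (((hip hb hb).smul ha).sub ((hip ha hb).smul hb))).neg,
    hDs.smul (J0.contDiff.comp (((hip ha ha).smul hb).sub ((hip ha hb).smul ha))).neg,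
    fun x y e => by simp only [D, a, b, e, and_self], fun x v => ?_, fun x v => ?_, fun x => ?_⟩
  · have h1 : om ((D x)⁻¹ • -J0 (frIp (b x) (b x) • a x - frIp (a x) (b x) • b x))
        (v.1 • a x + v.2 • b x) = (D x)⁻¹ * D x * v.1 := by
      generalize (D x)⁻¹ = c
      simp [D, om, w1, J0_apply, frIp]
      ring
    rw [fr_split]
    rw [h1, inv_mul_cancel₀ (hD0 x), one_mul]
  · have h1 : om ((D x)⁻¹ • -J0 (frIp (a x) (a x) • b x - frIp (a x) (b x) • a x))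
        (v.1 • a x + v.2 • b x) = (D x)⁻¹ * D x * v.2 := by
      generalize (D x)⁻¹ = c
      simp [D, om, w1, J0_apply, frIp]
      ring
    rw [fr_split]
    rw [h1, inv_mul_cancel₀ (hD0 x), one_mul]
  · have h1 : om ((D x)⁻¹ • -J0 (frIp (b x) (b x) • a x - frIp (a x) (b x) • b x))
        ((D x)⁻¹ • -J0 (frIp (a x) (a x) • b x - frIp (a x) (b x) • a x)) =
        (D x)⁻¹ * (D x)⁻¹ * D x * om (a x) (b x) := by
      generalize (D x)⁻¹ = c
      simp only [D]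
      generalize frIp (a x) (a x) = p
      generalize frIp (b x) (b x) = q
      generalize frIp (a x) (b x) = r
      simp [om, w1, J0_apply]
      ring
    rw [h1, h.lag x, mul_zero]

theorem imL_p1 (Z : E) : imL (Z + (2 * π * Complex.I, 0)) = imL Z + (2 * π, 0) := by
  simp [imL_apply]

theorem imL_p2 (Z : E) : imL (Z + (0, 2 * π * Complex.I)) = imL Z + (0, 2 * π) := by
  simp [imL_apply]

theorem cbox_zero {Z : E} (hZ : Z ∈ CBox 0) : Z.1.re = 0 ∧ Z.2.re = 0 :=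
  ⟨abs_nonpos_iff.1 hZ.1, abs_nonpos_iff.1 hZ.2⟩

/- `n_i = -I • ∑ j, g^{ij} ∂_j f` with the inverse of the Gram matrix
`g_ij = om (-I • ∂_i f) (∂_j f)`, and `ν Z = Z.1.re • n₁ (imL Z) + Z.2.re • n₂ (imL Z)` -/
theorem exists_normal (h : Tor f) : ∃ ν : E → E, ContDiff ℝ ∞ ν ∧ Per2 ν ∧
    (∀ Z v, om (ν Z) (fderiv ℝ f (imL Z) v) = Z.1.re * v.1 + Z.2.re * v.2) ∧
    ∀ Z ∈ CBox 0, ν Z = 0 ∧ (∀ u v, om (fderiv ℝ ν Z u) (fderiv ℝ ν Z v) = 0) ∧
      (∀ u v, om (fderiv ℝ ν Z u) (fderiv ℝ f (imL Z) v) = u.1.re * v.1 + u.2.re * v.2) ∧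
      ∀ u : E, u.1.re = 0 → u.2.re = 0 → fderiv ℝ ν Z u = 0 := by
  obtain ⟨n₁, n₂, s1, s2, hp, o1, o2, o3⟩ := exists_frame h
  let r₁ : E →L[ℝ] ℝ := Complex.reCLM.comp (ContinuousLinearMap.fst ℝ ℂ ℂ)
  let r₂ : E →L[ℝ] ℝ := Complex.reCLM.comp (ContinuousLinearMap.snd ℝ ℂ ℂ)
  have t1 : ContDiff ℝ ∞ fun Z => n₁ (imL Z) := s1.comp imL.contDiff
  have t2 : ContDiff ℝ ∞ fun Z => n₂ (imL Z) := s2.comp imL.contDiff
  have key : ∀ (x v : ℝ × ℝ) (s t : ℝ),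
      om (s • n₁ x + t • n₂ x) (fderiv ℝ f x v) = s * v.1 + t * v.2 := fun x v s t => by
    rw [← o1 x v, ← o2 x v]
    simp only [← omL_apply, map_add, map_smul, add_apply,
      smul_apply, smul_eq_mul]
  refine ⟨fun Z => r₁ Z • n₁ (imL Z) + r₂ Z • n₂ (imL Z),
    (r₁.contDiff.smul t1).add (r₂.contDiff.smul t2), ⟨fun Z => ?_, fun Z => ?_⟩,
    fun Z v => key _ v _ _, fun Z hZ => ?_⟩
  · obtain ⟨e1, e2⟩ := hp _ _ (fr_per h.p1 (imL Z))
    simp only [imL_p1, e1, e2]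
    simp [r₁, r₂]
  · obtain ⟨e1, e2⟩ := hp _ _ (fr_per h.p2 (imL Z))
    simp only [imL_p2, e1, e2]
    simp [r₁, r₂]
  · obtain ⟨z1, z2⟩ := cbox_zero hZ
    have y1 : r₁ Z = 0 := z1
    have y2 : r₂ Z = 0 := z2
    have hd : ∀ u, fderiv ℝ (fun Z => r₁ Z • n₁ (imL Z) + r₂ Z • n₂ (imL Z)) Z u =
        u.1.re • n₁ (imL Z) + u.2.re • n₂ (imL Z) := fun u => by
      rw [((r₁.hasFDerivAt.fun_smul (t1.differentiable (by simp) Z).hasFDerivAt).fun_add
        (r₂.hasFDerivAt.fun_smul (t2.differentiable (by simp) Z).hasFDerivAt)).fderiv]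
      simp [y1, y2, r₁, r₂]
    refine ⟨by simp only [y1, y2, zero_smul, add_zero], fun u v => ?_, fun u v => ?_,
      fun u u1 u2 => ?_⟩
    · have h1 := o3 (imL Z)
      have h2 : om (u.1.re • n₁ (imL Z) + u.2.re • n₂ (imL Z))
          (v.1.re • n₁ (imL Z) + v.2.re • n₂ (imL Z)) =
          (u.1.re * v.2.re - u.2.re * v.1.re) * om (n₁ (imL Z)) (n₂ (imL Z)) := by
        simp [om, w1]
        ring
      rw [hd, hd, h2, h1, mul_zero]
    · rw [hd, key]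
    · rw [hd, u1, u2, zero_smul, zero_smul, add_zero]

theorem pb_add {F ν : E → E} (hF : ContDiff ℝ ∞ F) (hν : ContDiff ℝ ∞ ν) (Z v : E) :
    pb (fun Z => F Z + ν Z) lam0 Z v - pb ν lam0 Z v = pb F lam0 Z v +
      om (ν Z) (fderiv ℝ F Z v) + fderiv ℝ (fun Z => om (F Z) (ν Z) / 2) Z v := by
  have h1 := (hF.differentiable (by simp) Z).hasFDerivAt
  have h2 := (hν.differentiable (by simp) Z).hasFDerivAt
  have h3 := ((omL.hasFDerivAt.comp Z h1).clm_apply h2).const_mul (1 / 2 : ℝ)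
  have h4 : (fun Z => om (F Z) (ν Z) / 2) = fun Z => (1 / 2 : ℝ) * (omL ∘ F) Z (ν Z) := by
    funext Z
    simp only [Function.comp, omL_apply]
    ring
  rw [h4, h3.fderiv]
  simp only [pb, ContinuousLinearMap.comp_apply, lam0_apply, (h1.fun_add h2).fderiv,
    add_apply, smul_apply, ContinuousLinearMap.flip_apply,
    Function.comp, omL_apply, smul_eq_mul]
  simp [om, w1]
  ring

theorem pb_flat {ν : E → E} (hν : ContDiff ℝ ∞ ν) {Z : E} (h0 : ν Z = 0)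
    (h1 : ∀ u v, om (fderiv ℝ ν Z u) (fderiv ℝ ν Z v) = 0) :
    pb ν lam0 Z = 0 ∧ HasFDerivAt (pb ν lam0) (0 : E →L[ℝ] E →L[ℝ] ℝ) Z := by
  have l0 : lam0 (ν Z) = 0 := by simp [lam0, h0]
  refine ⟨by simp [pb, l0], ?_⟩
  have h2 := (((1 / 2 : ℝ) • omL).hasFDerivAt (x := ν Z)).comp Z
    (hν.differentiable (by simp) Z).hasFDerivAt
  have h3 := ((hν.fderiv_right (m := ∞) (by simp)).differentiable (by simp) Z).hasFDerivAt
  refine (h2.clm_comp h3).congr_fderiv ?_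
  refine ContinuousLinearMap.ext fun u => ContinuousLinearMap.ext fun v => ?_
  simp [h0, omL_apply, h1]

/- `Θ Z = f (imL Z) + ν Z`, `exists_tube`, `Tube.small` for
`φ Z = -(pb ν lam0 Z).comp (fderiv ℝ Θ Z).inverse`, `pb_add`, `exists_prim` -/
theorem exists_core {lam : ℝ} {U : Set E} (h : Tor f) (hm : IsMonotone f lam) (hU : IsOpen U)
    (hR : ∀ x, f x ∈ U) :
    ∃ (Θ : E → E) (β : Form1 E) (e : ℝ) (k : ℤ × ℤ) (K : Set E), 0 < e ∧ Tube Θ e ∧ Small β ∧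
      (∀ x, β (f x) = 0 ∧ dF β (f x) = 0) ∧ IsCompact K ∧ (∀ x ∈ K, x ∈ U) ∧
      (∀ x, x ∉ K → β x = 0) ∧ Can (fun x => lam0 x + β x) Θ e 1 (2 * lam) k ∧
      (∀ Z ∈ Box e, Θ Z ∈ U) ∧
      ∀ x : ℝ × ℝ, Θ (x.1 * Complex.I, x.2 * Complex.I) = f x := by
  obtain ⟨ν, hν, νp, νo, ν0⟩ := exists_normal h
  obtain ⟨k, g, hg, g1, g2, g3⟩ := exists_prim h hm
  let F : E → E := fun Z => f (imL Z)
  have hF : ContDiff ℝ ∞ F := h.sm.comp imL.contDiff
  have dFF : ∀ Z u, fderiv ℝ F Z u = fderiv ℝ f (imL Z) (imL u) := fun Z u => by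
    rw [show fderiv ℝ F Z = _ from
      ((h.sm.differentiable (by simp) (imL Z)).hasFDerivAt.comp Z imL.hasFDerivAt).fderiv]
    rfl
  have Fp : Per2 F := ⟨fun Z => by simp only [F, imL_p1, h.p1], fun Z => by
    simp only [F, imL_p2, h.p2]⟩
  let Θ : E → E := fun Z => F Z + ν Z
  have hΘ : ContDiff ℝ ∞ Θ := hF.add hν
  have Θp : Per2 Θ := ⟨fun Z => by simp only [Θ, Fp.1, νp.1], fun Z => by
    simp only [Θ, Fp.2, νp.2]⟩
  have Θ0 : ∀ Z ∈ CBox 0, Θ Z = f (imL Z) := fun Z hZ => by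
    simp only [Θ, F, (ν0 Z hZ).1, add_zero]
  obtain ⟨e, e0, hT, hO⟩ := exists_tube hΘ Θp (O := U)
    (fun Z hZ Z' hZ' he => by
      rw [Θ0 Z hZ, Θ0 Z' hZ'] at he
      obtain ⟨m, n, h1⟩ := h.inj _ _ he
      obtain ⟨a1, a2⟩ := cbox_zero hZ
      obtain ⟨b1, b2⟩ := cbox_zero hZ'
      have c1 := congrArg Prod.fst h1
      have c2 := congrArg Prod.snd h1
      simp only [imL_apply, Prod.fst_add, Prod.snd_add] at c1 c2
      exact ⟨m, n, Prod.ext (Complex.ext (by simp [a1, b1]) (by simp [c1]))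
        (Complex.ext (by simp [a2, b2]) (by simp [c2]))⟩)
    (fun Z hZ => (injective_iff_map_eq_zero _).2 fun u hu => by
      obtain ⟨-, -, a2, a3⟩ := ν0 Z hZ
      rw [show fderiv ℝ Θ Z = _ from fderiv_fun_add (hF.differentiable (by simp) Z)
        (hν.differentiable (by simp) Z), add_apply, dFF] at hu
      have h1 : ∀ v : ℝ × ℝ, u.1.re * v.1 + u.2.re * v.2 = 0 := fun v => by
        have h2 := h.om_eq (imL Z) (imL u) v
        rw [eq_neg_of_add_eq_zero_left hu, ← omL_apply, map_neg, neg_apply,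
          omL_apply, a2] at h2
        linarith
      have u1 : u.1.re = 0 := by simpa using h1 (1, 0)
      have u2 : u.2.re = 0 := by simpa using h1 (0, 1)
      rw [a3 u u1 u2, add_zero] at hu
      have h3 := h.imm _ (hu.trans (map_zero _).symm)
      exact Prod.ext (Complex.ext u1 (congrArg Prod.fst h3)) (Complex.ext u2 (congrArg Prod.snd h3)))
    hU (fun Z hZ => by rw [Θ0 Z hZ]; exact hR _)
  have hP : ContDiff ℝ ∞ (pb ν lam0) := contDiff_pb hν contDiff_lam0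
  have B0 : CBox 0 ⊆ Box e := CBox_sub e0
  have φ0 : ∀ Z ∈ CBox 0, -(pb ν lam0 Z).comp (fderiv ℝ Θ Z).inverse = 0 := fun Z hZ => by
    rw [(pb_flat hν (ν0 Z hZ).1 (ν0 Z hZ).2.1).1, ContinuousLinearMap.zero_comp, neg_zero]
  obtain ⟨ε, β, ε0, ε1, hβ, b1, b2, b3⟩ := hT.small e0
    (φ := fun Z => -(pb ν lam0 Z).comp (fderiv ℝ Θ Z).inverse)
    (hP.contDiffOn.clm_comp hT.sm_inv).neg
    ⟨fun Z => by simp only [pb, νp.1, νp.fderiv.1, Θp.fderiv.1],
      fun Z => by simp only [pb, νp.2, νp.fderiv.2, Θp.fderiv.2]⟩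
    (fun Z hZ => ⟨φ0 Z hZ, by
      obtain ⟨a1, a2⟩ := pb_flat hν (ν0 Z hZ).1 (ν0 Z hZ).2.1
      have a3 := ((hT.sm_inv.contDiffAt ((isOpen_Box e).mem_nhds (B0 hZ))).differentiableAt
        (by simp)).hasFDerivAt
      rw [(a2.clm_comp a3).fun_neg.fderiv, a1]
      simp⟩)
  have hx : ∀ x : ℝ × ℝ, ((x.1 * Complex.I, x.2 * Complex.I) : E) ∈ CBox 0 := fun x => by
    simp [CBox]
  have hfx : ∀ x : ℝ × ℝ, Θ (x.1 * Complex.I, x.2 * Complex.I) = f x := fun x => by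
    rw [Θ0 _ (hx x)]
    simp [imL_apply]
  have εe : ε ≤ e := by linarith
  have gs : ContDiff ℝ ∞ fun Z => g (imL Z) := hg.comp imL.contDiff
  have os : ContDiff ℝ ∞ fun Z => om (F Z) (ν Z) / 2 := by
    simp only [← omL_apply]
    exact ((omL.contDiff.comp hF).clm_apply hν).div_const 2
  refine ⟨Θ, β, ε, k, Θ '' CBox (2 * ε), ε0, hT.mono εe, hβ, fun x => ?_,
    Θp.compact hΘ.continuous.continuousOn, ?_, b3,
    ⟨fun Z => g (imL Z) + om (F Z) (ν Z) / 2, gs.add os, fun Z => ?_, fun Z => ?_,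
      fun Z hZ v => ?_⟩, fun Z hZ => hO Z (Box_mono εe hZ), hfx⟩
  · rw [← hfx x]
    exact ⟨(b1 _ (CBox_sub ε0 (hx x))).trans (φ0 _ (hx x)), b2 _ (hx x)⟩
  · rintro _ ⟨Z, hZ, rfl⟩
    exact hO Z (CBox_sub ε1 hZ)
  · simp only [imL_p1, g1, Fp.1, νp.1]
  · simp only [imL_p2, g2, Fp.2, νp.2]
  · have a1 : pb Θ (fun x => lam0 x + β x) Z v = pb Θ lam0 Z v - pb ν lam0 Z v := by
      have a2 := (hT.inv (Box_mono εe hZ)).inverse_apply_self v
      simp only [pb, ContinuousLinearMap.comp_apply, add_apply, b1 Z hZ,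
        neg_apply, a2, sub_eq_add_neg]
    have a3 : pb F lam0 Z v = om (f (imL Z)) (fderiv ℝ f (imL Z) (imL v)) / 2 := by
      simp only [pb, ContinuousLinearMap.comp_apply, lam0_apply, dFF, F]
    have a4 : fderiv ℝ (fun Z => g (imL Z)) Z v = fderiv ℝ g (imL Z) (imL v) := by
      rw [show fderiv ℝ (fun Z => g (imL Z)) Z = _ from
        ((hg.differentiable (by simp) (imL Z)).hasFDerivAt.comp Z imL.hasFDerivAt).fderiv]
      rfl
    rw [a1, pb_add hF hν, a3, g3, dFF, νo, fderiv_fun_add (gs.differentiable (by simp) Z)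
      (os.differentiable (by simp) Z), add_apply, a4]
    simp only [imL_apply]
    ring

end Pool.Agent.Lib.MP_7ed551_gt.Cy
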