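import Pool.Agent.Lib.MP_7ed551_gt.Cy.Defs

/-! Linear algebra for the Maslov class. -/

open scoped ContDiff Topology
open Set Filter Metric Real

noncomputable section

namespace Pool.Agent.Lib.MP_7ed551_gt.Cy

open Pool.Agent.Lib.MP_ccffa6_gt

/-- The complex volume form. -/
def det2 (u v : E) : ℂ := u.1 * v.2 - u.2 * v.1

theorem lin_dep {u v : E} (h : det2 u v = 0) :
    ∃ α γ : ℂ, (α ≠ 0 ∨ γ ≠ 0) ∧ α • v + γ • u = 0 := by
  unfold det2 at h
  by_cases h1 : v.1 = 0
  · by_cases h2 : v.2 = 0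
    · exact ⟨1, 0, Or.inl one_ne_zero, Prod.ext (by simp [h1]) (by simp [h2])⟩
    · refine ⟨-u.2, v.2, Or.inr h2, Prod.ext ?_ ?_⟩
      · simp only [Prod.fst_add, Prod.smul_fst, smul_eq_mul, Prod.fst_zero]
        linear_combination h
      · simp only [Prod.snd_add, Prod.smul_snd, smul_eq_mul, Prod.snd_zero]
        ring
  · refine ⟨-u.1, v.1, Or.inr h1, Prod.ext ?_ ?_⟩
    · simp only [Prod.fst_add, Prod.smul_fst, smul_eq_mul, Prod.fst_zero]
      ring
    · simp only [Prod.snd_add, Prod.smul_snd, smul_eq_mul, Prod.snd_zero]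
      linear_combination -h

/- Otherwise `α • (a - I • b) + γ • (c - I • d) = 0` with `(α, γ) ≠ 0`; put
`m = α.re • a + α.im • b + γ.re • c + γ.im • d`, `n = α.re • b - α.im • a + γ.re • d - γ.im • c`;
then `m = I • n`, `w m n > 0` and `w m n = -w n (I • n) ≤ 0`. -/
theorem det2_ne {w : E →L[ℝ] E →L[ℝ] ℝ} (anti : ∀ u v, w u v = -w v u)
    (tame : ∀ v, 0 ≤ w v (Complex.I • v)) {a b c d : E} (hab : 0 < w a b) (hcd : 0 < w c d)
    (hac : w a c = 0) (had : w a d = 0) (hbc : w b c = 0) (hbd : w b d = 0) :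
    det2 (c - Complex.I • d) (a - Complex.I • b) ≠ 0 := by
  intro h
  obtain ⟨α, γ, h0, e⟩ := lin_dep h
  have hs : ∀ u, w u u = 0 := fun u => by linarith [anti u u]
  have e' : α.re • a + α.im • b + γ.re • c + γ.im • d =
      Complex.I • (α.re • b - α.im • a + γ.re • d - γ.im • c) := by
    have e1 := congrArg Prod.fst e
    have e2 := congrArg Prod.snd e
    rw [← Complex.re_add_im α, ← Complex.re_add_im γ] at e1 e2
    refine Prod.ext ?_ ?_
    · simp only [Prod.fst_add, Prod.fst_sub, Prod.smul_fst, smul_eq_mul, Prod.fst_zero,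
        Complex.real_smul] at e1 ⊢
      linear_combination e1 + (α.im * b.1 + γ.im * d.1) * Complex.I_mul_I
    · simp only [Prod.snd_add, Prod.snd_sub, Prod.smul_snd, smul_eq_mul, Prod.snd_zero,
        Complex.real_smul] at e2 ⊢
      linear_combination e2 + (α.im * b.2 + γ.im * d.2) * Complex.I_mul_I
  have h1 : w (α.re • a + α.im • b + γ.re • c + γ.im • d)
      (α.re • b - α.im • a + γ.re • d - γ.im • c) =
      Complex.normSq α * w a b + Complex.normSq γ * w c d := by
    simp only [map_add, map_sub, map_smul, add_apply, smul_apply, smul_eq_mul, hs, anti b a,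
      anti c a, anti d a, anti c b, anti d b, anti d c, hac, had, hbc, hbd, Complex.normSq_apply]
    ring
  rw [e', anti] at h1
  have h2 := tame (α.re • b - α.im • a + γ.re • d - γ.im • c)
  have h3 := mul_nonneg (Complex.normSq_nonneg α) hab.le
  have h4 := mul_nonneg (Complex.normSq_nonneg γ) hcd.le
  rcases h0 with h0 | h0
  · linarith [mul_pos (Complex.normSq_pos.2 h0) hab]
  · linarith [mul_pos (Complex.normSq_pos.2 h0) hcd]

/-- The real inner product. -/
def linG (u v : E) : ℝ := u.1.re * v.1.re + u.1.im * v.1.im + u.2.re * v.2.re + u.2.im * v.2.im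

theorem lin_pos {a b : E} (h : om a b ≠ 0) : 0 < linG a a := by
  by_contra h0
  unfold linG at h0
  have h1 : a.1.re = 0 := by nlinarith [sq_nonneg a.1.im, sq_nonneg a.2.re, sq_nonneg a.2.im]
  have h2 : a.1.im = 0 := by nlinarith [sq_nonneg a.1.re, sq_nonneg a.2.re, sq_nonneg a.2.im]
  have h3 : a.2.re = 0 := by nlinarith [sq_nonneg a.1.im, sq_nonneg a.1.re, sq_nonneg a.2.im]
  have h4 : a.2.im = 0 := by nlinarith [sq_nonneg a.1.im, sq_nonneg a.2.re, sq_nonneg a.1.re]
  exact h (by simp [om, w1, h1, h2, h3, h4])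

theorem lin_om {a c : E} (hac : om a c = 0) (β₁ β₂ δ₁ δ₂ : ℂ) :
    om (β₁ • a + β₂ • c) (δ₁ • a + δ₂ • c) =
      β₁.re * (linG a a * δ₁.im + linG a c * δ₂.im) + β₂.re * (linG a c * δ₁.im + linG c c * δ₂.im) -
      δ₁.re * (linG a a * β₁.im + linG a c * β₂.im) -
      δ₂.re * (linG a c * β₁.im + linG c c * β₂.im) := by
  simp only [om, w1, linG, Prod.fst_add, Prod.snd_add, Prod.smul_fst, Prod.smul_snd, smul_eq_mul,
    Complex.add_re, Complex.add_im, Complex.mul_re, Complex.mul_im] at hac ⊢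
  linear_combination (β₁.re * δ₂.re + β₁.im * δ₂.im - β₂.re * δ₁.re - β₂.im * δ₁.im) * hac

/- `‖det2 c a‖ ^ 2 = |a|² |c|² - ⟨a,c⟩²`; `a`, `c` are independent over the reals -/
theorem det2_lag {a b c d : E} (hab : 0 < om a b) (hcd : 0 < om c d) (hac : om a c = 0)
    (had : om a d = 0) (hbc : om b c = 0) : det2 c a ≠ 0 := by
  intro h
  have ha := lin_pos hab.ne'
  obtain ⟨l, rfl⟩ : ∃ l : ℂ, c = l • a := by
    obtain ⟨α, γ, h0, e⟩ := lin_dep h
    have hγ : γ ≠ 0 := by
      rintro rfl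
      rw [zero_smul, add_zero, smul_eq_zero] at e
      rcases e with e | e
      · simp [e] at h0
      · simp [e, linG] at ha
    refine ⟨-(γ⁻¹ * α), ?_⟩
    rw [neg_smul, mul_smul, eq_neg_of_add_eq_zero_left e, smul_neg, neg_neg, inv_smul_smul₀ hγ]
  have h1 : l.im * linG a a = 0 := by
    simp only [om, w1, linG, Prod.smul_fst, Prod.smul_snd, smul_eq_mul, Complex.mul_re,
      Complex.mul_im] at hac ⊢
    linear_combination hac
  have h2 : l.im = 0 := (mul_eq_zero.1 h1).resolve_right ha.ne'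
  have h3 : om (l • a) d = l.re * om a d := by
    simp only [om, w1, Prod.smul_fst, Prod.smul_snd, smul_eq_mul, Complex.mul_re,
      Complex.mul_im, h2]
    ring
  rw [h3, had, mul_zero] at hcd
  exact lt_irrefl _ hcd

theorem lin_cramer {a c : E} (h : det2 c a ≠ 0) (z : E) : ∃ β₁ β₂ : ℂ, z = β₁ • a + β₂ • c := by
  refine ⟨det2 c z / det2 c a, det2 z a / det2 c a, Prod.ext ?_ ?_⟩
  · simp only [Prod.fst_add, Prod.smul_fst, smul_eq_mul]
    field_simp
    unfold det2
    ring
  · simp only [Prod.snd_add, Prod.smul_snd, smul_eq_mul]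
    field_simp
    unfold det2
    ring

theorem lin_real {a b r v u x w : ℝ} (ha : 0 < a) (hb : 0 < b) (hr : 0 < r) (h : r * v ^ 2 < a * b)
    (e : b * x + a * u = 2 * r * w * v) : 0 < a * b - r * v ^ 2 - u * x + r * w ^ 2 := by
  have h1 : 4 * (a * b) * (u * x) ≤ (b * x + a * u) ^ 2 := by nlinarith [sq_nonneg (b * x - a * u)]
  have h2 : (2 * r * w * v) ^ 2 ≤ 4 * (a * b) * (r * w ^ 2) := by
    nlinarith [mul_nonneg (mul_nonneg hr.le (sq_nonneg w)) (sub_nonneg.2 h.le)]
  rw [e] at h1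
  have h3 : u * x ≤ r * w ^ 2 := le_of_mul_le_mul_left (h1.trans h2) (by positivity)
  linarith

/- Write `b = β₁ • a + β₂ • c`, `d = δ₁ • a + δ₂ • c` (Cramer).  The quotient is
`(1 - I β₁) (1 - I δ₂) + β₂ δ₁ = (A - I x) (B - I y) - κ (m - I n) ^ 2` with `κ = om a b * om c d`,
`A, B > 0`, `κ m ^ 2 < A B`.  If its imaginary part vanishes, `x y ≤ κ n ^ 2`. -/
theorem det2_slit {a b c d : E} (hab : 0 < om a b) (hcd : 0 < om c d) (hac : om a c = 0)
    (had : om a d = 0) (hbc : om b c = 0) (hbd : om b d = 0) :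
    det2 (c - Complex.I • d) (a - Complex.I • b) / det2 c a ∈ Complex.slitPlane := by
  have hD := det2_lag hab hcd hac had hbc
  have hA := lin_pos hab.ne'
  have hC := lin_pos hcd.ne'
  have hΔ : 0 < linG a a * linG c c - linG a c ^ 2 := by
    have h1 := Complex.normSq_pos.2 hD
    have h2 : Complex.normSq (det2 c a) = linG a a * linG c c - linG a c ^ 2 - om a c ^ 2 := by
      simp only [om, w1, linG, det2, Complex.normSq_apply, Complex.sub_re, Complex.sub_im,
        Complex.mul_re, Complex.mul_im]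
      ring
    rw [h2, hac] at h1
    linarith
  obtain ⟨β₁, β₂, rfl⟩ := lin_cramer hD b
  obtain ⟨δ₁, δ₂, rfl⟩ := lin_cramer hD d
  have e1 := lin_om hac 1 0 β₁ β₂
  have e2 := lin_om hac 0 1 δ₁ δ₂
  have e3 := lin_om hac 1 0 δ₁ δ₂
  have e4 := lin_om hac β₁ β₂ 0 1
  have e5 := lin_om hac β₁ β₂ δ₁ δ₂
  simp only [one_smul, zero_smul, add_zero, zero_add, Complex.one_re, Complex.one_im,
    Complex.zero_re, Complex.zero_im, mul_zero, zero_mul, one_mul, sub_zero] at e1 e2 e3 e4
  rw [had] at e3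
  rw [hbc] at e4
  rw [hbd, ← e1, ← e2, ← e3] at e5
  have eq : det2 (c - Complex.I • (δ₁ • a + δ₂ • c)) (a - Complex.I • (β₁ • a + β₂ • c)) /
      det2 c a = (1 - Complex.I * β₁) * (1 - Complex.I * δ₂) + β₂ * δ₁ := by
    rw [div_eq_iff hD]
    simp only [det2, Prod.fst_add, Prod.snd_add, Prod.fst_sub, Prod.snd_sub, Prod.smul_fst,
      Prod.smul_snd, smul_eq_mul]
    linear_combination (β₂ * δ₁ * (a.1 * c.2 - a.2 * c.1)) * Complex.I_mul_I
  rw [eq]
  generalize om a (β₁ • a + β₂ • c) = p at *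
  generalize om c (δ₁ • a + δ₂ • c) = q at *
  generalize linG a a = A at *
  generalize linG a c = B at *
  generalize linG c c = C at *
  have f1 : 0 < β₁.im := pos_of_mul_pos_left (b := A * C - B ^ 2) (by
    have : β₁.im * (A * C - B ^ 2) = C * p := by linear_combination (-C) * e1 + (-B) * e4
    rw [this]
    positivity) hΔ.le
  have f2 : 0 < δ₂.im := pos_of_mul_pos_left (b := A * C - B ^ 2) (by
    have : δ₂.im * (A * C - B ^ 2) = A * q := by linear_combination (-A) * e2 + B * e3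
    rw [this]
    positivity) hΔ.le
  have f3 : 0 < β₁.im * δ₂.im - δ₁.im * β₂.im := pos_of_mul_pos_left (b := A * C - B ^ 2) (by
    have : (β₁.im * δ₂.im - δ₁.im * β₂.im) * (A * C - B ^ 2) = p * q := by
      rw [e1, e2]
      linear_combination (B * β₁.im + C * β₂.im) * e3
    rw [this]
    positivity) hΔ.le
  have f4 : β₂.im = p / q * δ₁.im := by
    have : (A * C - B ^ 2) * (q * β₂.im - p * δ₁.im) = 0 := by
      linear_combination q * B * e1 + q * A * e4 - p * B * e2 + p * C * e3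
    have h1 := (mul_eq_zero.1 this).resolve_left hΔ.ne'
    field_simp
    linear_combination h1
  have f5 : β₂.re = p / q * δ₁.re := by
    field_simp
    linear_combination -e5 + δ₂.re * e4
  rw [Complex.mem_slitPlane_iff, or_iff_not_imp_right, not_not]
  simp only [Complex.add_re, Complex.add_im, Complex.mul_re, Complex.mul_im, Complex.sub_re,
    Complex.sub_im, Complex.one_re, Complex.one_im, Complex.I_re, Complex.I_im]
  intro h
  have h1 := lin_real (a := 1 + β₁.im) (b := 1 + δ₂.im) (r := p / q) (v := δ₁.im) (u := δ₂.re)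
    (x := β₁.re) (w := δ₁.re) (by linarith) (by linarith) (div_pos hab hcd)
    (by rw [f4] at f3; nlinarith) (by rw [f4, f5] at h; linear_combination -h)
  rw [f4, f5]
  linarith

theorem Small.tame {β : Form1 E} (h : Small β) (x v : E) (hv : v ≠ 0) :
    0 < dF (fun x => lam0 x + β x) x v (Complex.I • v) := by
  have h1 : om v (Complex.I • v) = ‖v.1‖ ^ 2 + ‖v.2‖ ^ 2 := by
    simp only [om, w1, Prod.smul_fst, Prod.smul_snd, smul_eq_mul, Complex.mul_re, Complex.mul_im,
      Complex.I_re, Complex.I_im, Complex.sq_norm, Complex.normSq_apply]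
    ring
  have h2 : ‖v‖ ^ 2 ≤ ‖v.1‖ ^ 2 + ‖v.2‖ ^ 2 := by
    rw [Prod.norm_def]
    rcases le_total ‖v.1‖ ‖v.2‖ with e | e
    · rw [max_eq_right e]
      exact le_add_of_nonneg_left (sq_nonneg _)
    · rw [max_eq_left e]
      exact le_add_of_nonneg_right (sq_nonneg _)
  have h3 := (abs_le.1 (h.le x v (Complex.I • v))).1
  rw [norm_smul, Complex.norm_I, one_mul] at h3
  rw [dF_add (contDiff_lam0.differentiable (by simp) x) (h.sm.differentiable (by simp) x),
    add_apply, add_apply, dF_lam0, h1]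
  nlinarith [norm_pos_iff.2 hv]

end Pool.Agent.Lib.MP_7ed551_gt.Cy
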