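import Pool.Agent.Lib.MP_7ed551_gt.Cy.W.Log
import Pool.Agent.Lib.MP_7ed551_gt.Cy.B.Cov

/-! The Maslov class in a trivialisation. -/

open scoped ContDiff Topology
open Set Filter Metric Real

noncomputable section

namespace Pool.Agent.Lib.MP_7ed551_gt.Cy

open Pool.Agent.Lib.MP_ccffa6_gt

/-- A multiple of the part of `u` that is orthogonal to the fibre. -/
def hor (w : E →L[ℝ] E →L[ℝ] ℝ) (u : E) : E :=
  w (1, 0) (Complex.I, 0) • u - w u (Complex.I, 0) • ((1, 0) : E) +
    w u (1, 0) • ((Complex.I, 0) : E)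

variable {Φ Φ' : E → E} {β : Form1 E} {r : ℝ}

theorem hasFDerivAt_std (r : ℝ) (x : ℝ × ℝ) : DifferentiableAt ℝ (std r) x ∧
    fderiv ℝ (std r) x (1, 0) = (0, Complex.I * (std r x).2) ∧
    fderiv ℝ (std r) x (0, 1) = (Complex.I * (std r x).1, 0) := by
  have h2 : HasFDerivAt (fun x : ℝ × ℝ => (r : ℂ) * Complex.exp (x.2 * Complex.I))
      ((r : ℂ) • (Complex.exp (x.2 * Complex.I) • (Complex.I •
        (Complex.ofRealCLM.comp (ContinuousLinearMap.snd ℝ ℝ ℝ))))) x :=
    (((Complex.ofRealCLM.comp (ContinuousLinearMap.snd ℝ ℝ ℝ)).hasFDerivAt.mul_const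
      Complex.I).cexp).const_mul (r : ℂ)
  have h1 : HasFDerivAt (fun x : ℝ × ℝ => (r : ℂ) * Complex.exp (x.1 * Complex.I))
      ((r : ℂ) • (Complex.exp (x.1 * Complex.I) • (Complex.I •
        (Complex.ofRealCLM.comp (ContinuousLinearMap.fst ℝ ℝ ℝ))))) x :=
    (((Complex.ofRealCLM.comp (ContinuousLinearMap.fst ℝ ℝ ℝ)).hasFDerivAt.mul_const
      Complex.I).cexp).const_mul (r : ℂ)
  have h3 : HasFDerivAt (std r) _ x := h2.prodMk h1
  refine ⟨h3.differentiableAt, ?_, ?_⟩
  · rw [h3.fderiv]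
    refine Prod.ext ?_ ?_ <;> simp [std]
    ring
  · rw [h3.fderiv]
    refine Prod.ext ?_ ?_ <;> simp [std]
    ring

theorem mas1_fib (z : ℂ) : ((z, 0) : E) = z.re • ((1, 0) : E) + z.im • ((Complex.I, 0) : E) := by
  refine Prod.ext ?_ ?_ <;> simp

theorem mas1_base (z : ℂ) : ((0, z) : E) = z.re • ((0, 1) : E) + z.im • ((0, Complex.I) : E) := by
  refine Prod.ext ?_ ?_ <;> simp

theorem mas1_anti (Λ : Form1 E) (x u v : E) : dF Λ x u v = -dF Λ x v u := by
  rw [dF_apply, dF_apply]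
  ring

theorem mas1_hor_lin (w : E →L[ℝ] E →L[ℝ] ℝ) (s t : ℝ) (a b : E) :
    hor w (s • a + t • b) = s • hor w a + t • hor w b := by
  simp only [hor, map_add, map_smul, add_apply,
    smul_apply, smul_eq_mul]
  module

theorem mas1_hor_e {w : E →L[ℝ] E →L[ℝ] ℝ} (anti : ∀ u v, w u v = -w v u) (u : E) :
    w (hor w u) (1, 0) = 0 ∧ w (hor w u) (Complex.I, 0) = 0 := by
  have h1 := anti (1, 0) (1, 0)
  have h2 := anti (Complex.I, 0) (Complex.I, 0)
  have h3 := anti (Complex.I, 0) (1, 0)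
  have h4 : w (1, 0) (1, 0) = 0 := by linarith
  have h5 : w (Complex.I, 0) (Complex.I, 0) = 0 := by linarith
  simp only [hor, map_add, map_sub, map_smul, add_apply,
    sub_apply, smul_apply, smul_eq_mul, h3, h4, h5]
  constructor <;> ring

theorem mas1_hor_fib {w : E →L[ℝ] E →L[ℝ] ℝ} (anti : ∀ u v, w u v = -w v u) (u : E) (z : ℂ) :
    w (z, 0) (hor w u) = 0 := by
  rw [anti, mas1_fib z, map_add, map_smul, map_smul, (mas1_hor_e anti u).1, (mas1_hor_e anti u).2]
  simp

theorem mas1_rot {w : E →L[ℝ] E →L[ℝ] ℝ} (anti : ∀ u v, w u v = -w v u) (a b : E) (s t : ℝ) :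
    w (s • a + t • b) ((-t) • a + s • b) = (s ^ 2 + t ^ 2) * w a b := by
  have h1 := anti a a
  have h2 := anti b b
  have h4 : w a a = 0 := by linarith
  have h5 : w b b = 0 := by linarith
  simp only [map_add, map_smul, add_apply, smul_apply,
    smul_eq_mul, anti b a, h4, h5]
  ring

theorem mas1_cont_hor {W : E → E →L[ℝ] E →L[ℝ] ℝ} (hW : Continuous W) (u : E) :
    Continuous fun y => hor (W y) u := by
  have h : ∀ a b : E, Continuous fun y => W y a b := fun a b =>
    (hW.clm_apply continuous_const).clm_apply continuous_const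
  exact (((h _ _).smul continuous_const).sub ((h _ _).smul continuous_const)).add
    ((h _ _).smul continuous_const)

theorem mas1_sm (hβ : Small β) : ContDiff ℝ ∞ fun x => lam0 x + β x := contDiff_lam0.add hβ.sm

theorem mas1_pb (hΦ : Dif Φ Φ') {Λ : Form1 E} (hΛ : ContDiff ℝ ∞ Λ) (x u v : E) :
    dF (pb Φ Λ) x u v = dF Λ (Φ x) (fderiv ℝ Φ x u) (fderiv ℝ Φ x v) :=
  dF_pb (hΦ.sm.contDiffAt.of_le (by norm_cast)) (hΛ.differentiable (by simp) _) u v

theorem mas1_om (hΦ : Dif Φ Φ') (hβ : Small β) {x : E} (h0 : dF β (Φ x) = 0) (u v : E) :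
    dF (pb Φ fun x => lam0 x + β x) x u v = om (fderiv ℝ Φ x u) (fderiv ℝ Φ x v) := by
  rw [mas1_pb hΦ (mas1_sm hβ), dF_add (contDiff_lam0.differentiable (by simp) _)
    (hβ.sm.differentiable (by simp) _), h0, add_apply, add_apply, dF_lam0]
  simp

theorem mas1_ker {w : E →L[ℝ] E →L[ℝ] ℝ} (anti : ∀ u v, w u v = -w v u)
    (hp : 0 < w (1, 0) (Complex.I, 0)) (h : w (hor w (0, 1)) (hor w (0, Complex.I)) = 0) (v : E) :
    w (hor w (0, 1)) v = 0 := by
  have h1 := anti (hor w (0, 1)) (hor w (0, 1))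
  have h2 : w (hor w (0, 1)) (hor w (0, 1)) = 0 := by linarith
  obtain ⟨h3, h4⟩ := mas1_hor_e anti (0, 1)
  have key : ∀ u, w (hor w (0, 1)) (hor w u) = w (1, 0) (Complex.I, 0) * w (hor w (0, 1)) u := by
    intro u
    generalize hor w (0, 1) = a at h3 h4
    simp only [hor, map_add, map_sub, map_smul, smul_eq_mul, h3, h4]
    ring
  rw [key] at h h2
  have h5 := (mul_eq_zero.1 h).resolve_left hp.ne'
  have h6 := (mul_eq_zero.1 h2).resolve_left hp.ne'
  have h7 : v = (v.1, 0) + (0, v.2) := by simp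
  rw [h7, mas1_fib v.1, mas1_base v.2]
  simp only [map_add, map_smul, h3, h4, h5, h6, smul_zero, add_zero]

/- The function of `x` is continuous, equal to one far away, and has no zero: the form is
nondegenerate since `fderiv ℝ Φ x` is bijective and `Small.tame` holds. -/
theorem hor_pos (hΦ : Dif Φ Φ') (hβ : Small β) (hp : FibPos (pb Φ fun x => lam0 x + β x)) (x : E) :
    0 < dF (pb Φ fun x => lam0 x + β x) x (hor (dF (pb Φ fun x => lam0 x + β x) x) (0, 1))
      (hor (dF (pb Φ fun x => lam0 x + β x) x) (0, Complex.I)) := by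
  have hW : Continuous (dF (pb Φ fun x => lam0 x + β x)) :=
    (contDiff_dF (contDiff_pb hΦ.sm (mas1_sm hβ))).continuous
  have hc := (hW.clm_apply (mas1_cont_hor hW (0, 1))).clm_apply (mas1_cont_hor hW (0, Complex.I))
  have hne : ∀ y, dF (pb Φ fun x => lam0 x + β x) y
      (hor (dF (pb Φ fun x => lam0 x + β x) y) (0, 1))
      (hor (dF (pb Φ fun x => lam0 x + β x) y) (0, Complex.I)) ≠ 0 := by
    intro y h
    have h1 := mas1_ker (mas1_anti _ y) (hp y) h
    have h2 : hor (dF (pb Φ fun x => lam0 x + β x) y) (0, 1) ≠ 0 := by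
      intro e
      have h3 := congrArg Prod.snd e
      simp only [hor, Prod.snd_add, Prod.snd_sub, Prod.smul_snd, smul_zero, sub_zero, add_zero,
        Prod.snd_zero, smul_eq_zero, one_ne_zero, or_false] at h3
      exact (hp y).ne' h3
    generalize hor (dF (pb Φ fun x => lam0 x + β x) y) (0, 1) = a at h1 h2
    have hi := hΦ.inj_fderiv y
    obtain ⟨v, hv⟩ := LinearMap.surjective_of_injective
      (f := (fderiv ℝ Φ y : E →ₗ[ℝ] E)) hi (Complex.I • fderiv ℝ Φ y a)
    have h4 := hβ.tame (Φ y) (fderiv ℝ Φ y a) fun e => h2 (hi (e.trans (map_zero _).symm))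
    have h5 := h1 v
    rw [mas1_pb hΦ (mas1_sm hβ), show fderiv ℝ Φ y v = _ from hv] at h5
    exact h4.ne' h5
  obtain ⟨R, hR⟩ := hΦ.far
  obtain ⟨R', hR'⟩ := hβ.cpt.isCompact.isBounded.subset_closedBall 0
  obtain ⟨z, hz⟩ := NormedSpace.exists_lt_norm ℝ E (max R R')
  have hz1 : Φ =ᶠ[𝓝 z] id := by
    filter_upwards [(isOpen_lt continuous_const continuous_norm).mem_nhds
      (show R < ‖z‖ from (le_max_left _ _).trans_lt hz)] with y hy using hR y (le_of_lt hy)
  have hz2 : β =ᶠ[𝓝 z] 0 := notMem_tsupport_iff_eventuallyEq.1 fun e => by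
    have := mem_closedBall_zero_iff.1 (hR' e)
    exact absurd ((le_max_right _ _).trans_lt hz) (not_lt.2 this)
  have hz3 : dF β (Φ z) = 0 := by
    rw [hz1.eq_of_nhds]
    refine ContinuousLinearMap.ext fun u => ContinuousLinearMap.ext fun v => ?_
    rw [dF_apply, id, hz2.fderiv_eq]
    simp
  have hz4 : ∀ u v, dF (pb Φ fun x => lam0 x + β x) z u v = om u v := by
    intro u v
    rw [mas1_om hΦ hβ hz3, hz1.fderiv_eq, fderiv_id]
    rfl
  have hz5 : 0 < dF (pb Φ fun x => lam0 x + β x) z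
      (hor (dF (pb Φ fun x => lam0 x + β x) z) (0, 1))
      (hor (dF (pb Φ fun x => lam0 x + β x) z) (0, Complex.I)) := by
    simp [hor, hz4, om, w1]
  by_contra hx
  obtain ⟨y, hy⟩ := intermediate_value_univ x z hc ⟨not_lt.1 hx, hz5.le⟩
  exact hne y hy

theorem mas1_conj (a b : E) (z : ℂ) :
    z.re • a + z.im • b - Complex.I • ((-z.im) • a + z.re • b) = z • (a - Complex.I • b) := by
  refine Prod.ext ?_ ?_ <;> apply Complex.ext <;> simp <;> ring

/-- The pointwise statement on the torus. -/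
theorem mas1_slit {w : E →L[ℝ] E →L[ℝ] ℝ} (T : E →L[ℝ] E) (hw : ∀ u v, w u v = om (T u) (T v))
    (hp : 0 < w (1, 0) (Complex.I, 0)) (hq : 0 < w (hor w (0, 1)) (hor w (0, Complex.I)))
    {a b : ℂ} (ha : a ≠ 0) (hb : b ≠ 0) (hl : w (0, b) (a, 0) = 0) :
    a * b * det2 (T (hor w (0, 1)) - Complex.I • T (hor w (0, Complex.I)))
      (T (1, 0) - Complex.I • T (Complex.I, 0)) / det2 (T (0, b)) (T (a, 0))
      ∈ Complex.slitPlane := by
  have anti : ∀ u v, w u v = -w v u := by
    intro u v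
    simp only [hw, om, w1]
    ring
  have pos : ∀ z : ℂ, z ≠ 0 → 0 < z.re ^ 2 + z.im ^ 2 := by
    intro z hz
    have := Complex.normSq_pos.2 hz
    rw [Complex.normSq_apply] at this
    nlinarith
  have ea : ((Complex.I * a, 0) : E) = (-a.im) • ((1, 0) : E) + a.re • ((Complex.I, 0) : E) := by
    rw [mas1_fib]
    simp
  have h1 := det2_slit (a := T (a, 0)) (b := T (Complex.I * a, 0)) (c := T (hor w (0, b)))
    (d := T ((-b.im) • hor w (0, 1) + b.re • hor w (0, Complex.I)))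
    (by rw [← hw, ea, mas1_fib a, mas1_rot anti]; exact mul_pos (pos a ha) hp)
    (by rw [← hw, mas1_base b, mas1_hor_lin, mas1_rot anti]; exact mul_pos (pos b hb) hq)
    (by rw [← hw, mas1_hor_fib anti]) (by rw [← hw, ← mas1_hor_lin, mas1_hor_fib anti])
    (by rw [← hw, mas1_hor_fib anti]) (by rw [← hw, ← mas1_hor_lin, mas1_hor_fib anti])
  have h2 : det2 (T (hor w (0, b))) (T (a, 0)) =
      (w (1, 0) (Complex.I, 0) : ℂ) * det2 (T (0, b)) (T (a, 0)) := by
    rw [mas1_fib a, map_add, map_smul, map_smul, smul_eq_mul, smul_eq_mul] at hl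
    have hl' := congrArg (fun t : ℝ => (t : ℂ)) hl
    push_cast at hl'
    rw [hor, mas1_fib a]
    simp only [map_add, map_sub, map_smul, det2, Prod.fst_add, Prod.snd_add, Prod.fst_sub,
      Prod.snd_sub, Prod.smul_fst, Prod.smul_snd, Complex.real_smul]
    linear_combination
      ((T (Complex.I, 0)).1 * (T (1, 0)).2 - (T (Complex.I, 0)).2 * (T (1, 0)).1) * hl'
  have h3 : T (hor w (0, b)) - Complex.I • T ((-b.im) • hor w (0, 1) + b.re • hor w (0, Complex.I))
      = b • (T (hor w (0, 1)) - Complex.I • T (hor w (0, Complex.I))) := by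
    rw [← mas1_conj, mas1_base b, mas1_hor_lin]
    simp only [map_add, map_smul]
  have h4 : T (a, 0) - Complex.I • T (Complex.I * a, 0)
      = a • (T (1, 0) - Complex.I • T (Complex.I, 0)) := by
    rw [← mas1_conj, ea, mas1_fib a]
    simp only [map_add, map_smul]
  rw [h2, h3, h4] at h1
  have h5 : (w (1, 0) (Complex.I, 0) : ℂ) ≠ 0 := Complex.ofReal_ne_zero.2 hp.ne'
  have h6 : ∀ c d : E, ∀ D : ℂ, a * b * det2 c d / D =
      (w (1, 0) (Complex.I, 0) : ℂ) * (det2 (b • c) (a • d) / (w (1, 0) (Complex.I, 0) * D)) := by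
    intro c d D
    rw [← mul_div_assoc, mul_div_mul_left _ _ h5]
    simp only [det2, Prod.smul_fst, Prod.smul_snd, smul_eq_mul]
    ring
  rw [h6, Complex.mem_slitPlane_iff, Complex.re_ofReal_mul, Complex.im_ofReal_mul]
  exact (Complex.mem_slitPlane_iff.1 h1).imp (mul_pos hp) (mul_ne_zero hp.ne')

/- With `T = fderiv ℝ Φ x`, `w = dF (pb Φ Λ) x`: `p x = det2 (T (hor w (0,1)) - I • T (hor w (0,I)))
(T (1,0) - I • T (I,0))` is continuous and has no zero (`det2_ne`), so it has a logarithm on `E`.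
At `y = std r x` apply `det2_slit` to `T v, T (I • v), T (hor w u), T (hor w (I • u))`,
`u = (0, I y.2)`, `v = (I y.1, 0)`: `ρ * fdet * q = -y.1 * y.2 * p y` with `q` in the slit plane. -/
theorem exists_wind (hr : 0 < r) (hΦ : Dif Φ Φ') (hβ : Small β)
    (hp : FibPos (pb Φ fun x => lam0 x + β x)) (h0 : ∀ y ∈ Ls r, dF β (Φ y) = 0)
    (hl : LagS r (pb Φ lam0)) : ∃ G : ℝ × ℝ → ℂ, Continuous G ∧
      (∀ x, fdet (fun x => Φ (std r x)) x = Complex.exp (G x)) ∧
      (∀ x, G (x + (2 * π, 0)) = G x + 2 * π * Complex.I) ∧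
      ∀ x, G (x + (0, 2 * π)) = G x + 2 * π * Complex.I := by
  have hW : Continuous (dF (pb Φ fun x => lam0 x + β x)) :=
    (contDiff_dF (contDiff_pb hΦ.sm (mas1_sm hβ))).continuous
  have hT : Continuous (fderiv ℝ Φ) := hΦ.sm.continuous_fderiv (by simp)
  have cdet : ∀ {a b : E → E}, Continuous a → Continuous b →
      Continuous fun y => det2 (a y) (b y) := fun ha hb =>
    (ha.fst.mul hb.snd).sub (ha.snd.mul hb.fst)
  set p : E → ℂ := fun y => det2
    (fderiv ℝ Φ y (hor (dF (pb Φ fun x => lam0 x + β x) y) (0, 1)) -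
      Complex.I • fderiv ℝ Φ y (hor (dF (pb Φ fun x => lam0 x + β x) y) (0, Complex.I)))
    (fderiv ℝ Φ y (1, 0) - Complex.I • fderiv ℝ Φ y (Complex.I, 0)) with hpd
  have pc : Continuous p := cdet
    ((hT.clm_apply (mas1_cont_hor hW _)).sub
      ((hT.clm_apply (mas1_cont_hor hW _)).const_smul Complex.I))
    ((hT.clm_apply continuous_const).sub ((hT.clm_apply continuous_const).const_smul Complex.I))
  have p0 : ∀ y, p y ≠ 0 := by
    intro y
    have e := mas1_pb hΦ (mas1_sm hβ) y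
    refine det2_ne (w := dF (fun x => lam0 x + β x) (Φ y)) (mas1_anti _ _) (fun v => ?_)
      (e _ _ ▸ hp y) (e _ _ ▸ hor_pos hΦ hβ hp y) ?_ ?_ ?_ ?_
    · by_cases hv : v = 0
      · simp [hv]
      · exact (hβ.tame _ v hv).le
    all_goals rw [← e, mas1_hor_fib (mas1_anti _ _)]
  obtain ⟨l, lc, hl'⟩ := exists_log pc p0
  set D : E → ℂ := fun y =>
    det2 (fderiv ℝ Φ y (0, Complex.I * y.2)) (fderiv ℝ Φ y (Complex.I * y.1, 0)) with hD
  have Dc : Continuous D := cdet (hT.clm_apply (by fun_prop)) (hT.clm_apply (by fun_prop))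
  have sc : Continuous (std r) := continuous_iff_continuousAt.2 fun x =>
    (hasFDerivAt_std r x).1.continuousAt
  have sL : ∀ x, std r x ∈ Ls r := fun x => by
    constructor <;> simp [std, Complex.norm_exp_ofReal_mul_I, hr.le]
  have slit : ∀ y ∈ Ls r, Complex.I * y.1 * (Complex.I * y.2) * p y / D y ∈ Complex.slitPlane := by
    intro y hy
    refine mas1_slit (fderiv ℝ Φ y) (mas1_om hΦ hβ (h0 y hy)) (hp y) (hor_pos hΦ hβ hp y)
      (mul_ne_zero Complex.I_ne_zero (norm_pos_iff.1 (hy.1 ▸ hr)))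
      (mul_ne_zero Complex.I_ne_zero (norm_pos_iff.1 (hy.2 ▸ hr))) ?_
    rw [mas1_om hΦ hβ (h0 y hy), ← dF_lam0 (Φ y), ← mas1_pb hΦ contDiff_lam0]
    exact hl y hy
  have D0 : ∀ x, D (std r x) ≠ 0 := fun x e => by
    have := slit _ (sL x)
    rw [e, div_zero] at this
    exact Complex.zero_notMem_slitPlane this
  have r0 : (-(r : ℂ) ^ 2) ≠ 0 := neg_ne_zero.2 (pow_ne_zero _ (Complex.ofReal_ne_zero.2 hr.ne'))
  have s1 : ∀ x, std r (x + (2 * π, 0)) = std r x := fun x => by
    simp [std, add_mul, Complex.exp_add]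
  have s2 : ∀ x, std r (x + (0, 2 * π)) = std r x := fun x => by
    simp [std, add_mul, Complex.exp_add]
  refine ⟨fun x => l (std r x) + x.2 * Complex.I + x.1 * Complex.I + Complex.log (-(r : ℂ) ^ 2) -
    Complex.log (Complex.I * (std r x).1 * (Complex.I * (std r x).2) * p (std r x) / D (std r x)),
    ?_, fun x => ?_, fun x => ?_, fun x => ?_⟩
  · refine ((((lc.comp sc).add (by fun_prop)).add (by fun_prop)).add continuous_const).sub
      (Continuous.clog (Continuous.div ?_ (Dc.comp sc) D0) fun x => slit _ (sL x))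
    exact ((continuous_const.mul sc.fst).mul (continuous_const.mul sc.snd)).mul (pc.comp sc)
  · have e : fdet (fun x => Φ (std r x)) x = D (std r x) := by
      obtain ⟨d0, d1, d2⟩ := hasFDerivAt_std r x
      unfold fdet
      rw [fderiv_fun_comp x (hΦ.sm.differentiable (by simp) _) d0]
      simp only [ContinuousLinearMap.comp_apply, d1, d2]
      rfl
    have e0 := Complex.slitPlane_ne_zero (slit _ (sL x))
    rw [e, Complex.exp_sub, Complex.exp_add, Complex.exp_add, Complex.exp_add, hl',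
      Complex.exp_log r0, Complex.exp_log e0, eq_div_iff e0, mul_div_cancel₀ _ (D0 x)]
    simp only [std]
    linear_combination (r : ℂ) ^ 2 * Complex.exp (x.2 * Complex.I) * Complex.exp (x.1 * Complex.I) *
      p (r * Complex.exp (x.2 * Complex.I), r * Complex.exp (x.1 * Complex.I)) * Complex.I_sq
  · simp only [s1, Prod.fst_add, Prod.snd_add, add_zero]
    push_cast
    ring
  · simp only [s2, Prod.fst_add, Prod.snd_add, add_zero]
    push_cast
    ring

end Pool.Agent.Lib.MP_7ed551_gt.Cy
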