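import Pool.Agent.Lib.MP_7ed551_gt.Cy.Defs

/-! Moebius maps of the disc and winding numbers on the unit circle. -/

open scoped ContDiff Topology
open Set Filter Metric Real

noncomputable section

namespace Pool.Agent.Lib.MP_7ed551_gt.Cy

open Pool.Agent.Lib.MP_ccffa6_gt

/-- The Moebius map that sends `a` to zero; its inverse is `mob (-a)`. -/
def mob (a w : ℂ) : ℂ := (w - a) / (1 - (starRingEnd ℂ) a * w)

/-- On the unit circle `F` has no zero and winding number `k`. -/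
def Wind (k : ℤ) (F : ℂ → ℂ) : Prop :=
  ∃ g : ℝ → ℂ, Continuous g ∧ (∀ θ, g (θ + 2 * π) = g θ) ∧
    ∀ θ : ℝ, F (Complex.exp (θ * Complex.I)) = Complex.exp (g θ + k * θ * Complex.I)

variable {a u w : ℂ}

theorem mob_den_ge (hw : ‖w‖ ≤ 1) : 1 - ‖a‖ ≤ ‖1 - (starRingEnd ℂ) a * w‖ := by
  have h1 := norm_sub_norm_le (1 : ℂ) ((starRingEnd ℂ) a * w)
  rw [norm_one, norm_mul, Complex.norm_conj] at h1
  nlinarith [norm_nonneg a]

theorem mob_den (ha : ‖a‖ < 1) (hw : ‖w‖ ≤ 1) : 1 - (starRingEnd ℂ) a * w ≠ 0 :=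
  norm_pos_iff.1 ((sub_pos.2 ha).trans_le (mob_den_ge hw))

theorem mob_self (a : ℂ) : mob a a = 0 := by
  simp [mob]

theorem mob_inv (ha : ‖a‖ < 1) (hw : ‖w‖ ≤ 1) : mob (-a) (mob a w) = w := by
  have h1 := mob_den ha hw
  have h2 := mob_den ha ha.le
  have h3 : 1 - (starRingEnd ℂ) (-a) * mob a w =
      (1 - (starRingEnd ℂ) a * a) / (1 - (starRingEnd ℂ) a * w) := by
    rw [mob, map_neg]
    field_simp
    ring
  rw [mob, h3, mob, div_div_eq_mul_div, div_eq_iff h2, sub_mul, div_mul_cancel₀ _ h1]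
  ring

theorem mob_sq (a w : ℂ) : ‖1 - (starRingEnd ℂ) a * w‖ ^ 2 - ‖w - a‖ ^ 2 =
    (1 - ‖a‖ ^ 2) * (1 - ‖w‖ ^ 2) := by
  simp only [Complex.sq_norm, Complex.normSq_apply, Complex.sub_re, Complex.sub_im, Complex.mul_re,
    Complex.mul_im, Complex.conj_re, Complex.conj_im, Complex.one_re, Complex.one_im]
  ring

theorem norm_mob_le (ha : ‖a‖ < 1) (hw : ‖w‖ ≤ 1) : ‖mob a w‖ ≤ 1 := by
  rw [mob, norm_div, div_le_one (norm_pos_iff.2 (mob_den ha hw))]
  have h1 := mob_sq a w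
  have h2 : 0 ≤ (1 - ‖a‖ ^ 2) * (1 - ‖w‖ ^ 2) :=
    mul_nonneg (by nlinarith [norm_nonneg a]) (by nlinarith [norm_nonneg w])
  exact abs_le_of_sq_le_sq' (by linarith) (norm_nonneg _) |>.2

theorem norm_mob_eq (ha : ‖a‖ < 1) (hw : ‖w‖ = 1) : ‖mob a w‖ = 1 := by
  rw [mob, norm_div, div_eq_one_iff_eq (norm_ne_zero_iff.2 (mob_den ha hw.le))]
  have h1 := mob_sq a w
  rw [hw] at h1
  exact (pow_left_inj₀ (norm_nonneg _) (norm_nonneg _) two_ne_zero).1 (by linarith)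

theorem norm_mob_lt' (ha : ‖a‖ < 1) (hw : ‖w‖ < 1) : ‖mob a w‖ < 1 := by
  rw [mob, norm_div, div_lt_one (norm_pos_iff.2 (mob_den ha hw.le))]
  have h1 := mob_sq a w
  have h2 : 0 < (1 - ‖a‖ ^ 2) * (1 - ‖w‖ ^ 2) :=
    mul_pos (by nlinarith [norm_nonneg a]) (by nlinarith [norm_nonneg w])
  exact lt_of_pow_lt_pow_left₀ 2 (norm_nonneg _) (by linarith)

theorem analyticAt_mob (ha : ‖a‖ < 1) (hw : ‖w‖ ≤ 1) : AnalyticAt ℂ (mob a) w := by
  have h1 := mob_den ha hw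
  unfold mob
  fun_prop (disch := exact h1)

theorem norm_mob_lt (ha : ‖a‖ < 1) {c : ℝ} (hc : c < 1) :
    ∃ c' < 1, ∀ w : ℂ, ‖w‖ ≤ c → ‖mob a w‖ ≤ c' := by
  rcases lt_or_ge c 0 with h | h
  · exact ⟨0, one_pos, fun w hw => absurd ((norm_nonneg w).trans hw) h.not_ge⟩
  obtain ⟨w₀, h1, h2⟩ := (isCompact_closedBall (0 : ℂ) c).exists_isMaxOn
    ⟨0, mem_closedBall_self h⟩ (f := fun w => ‖mob a w‖) fun w hw =>
      (analyticAt_mob ha ((mem_closedBall_zero_iff.1 hw).trans hc.le)).continuousAt.norm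
        |>.continuousWithinAt
  exact ⟨_, norm_mob_lt' ha ((mem_closedBall_zero_iff.1 h1).trans_lt hc),
    fun w hw => h2 (mem_closedBall_zero_iff.2 hw)⟩

theorem mob_lip (ha : ‖a‖ < 1) :
    ∃ C : ℝ, ∀ u w : ℂ, ‖u‖ ≤ 1 → ‖w‖ ≤ 1 → ‖mob a u - mob a w‖ ≤ C * ‖u - w‖ := by
  refine ⟨‖1 - (starRingEnd ℂ) a * a‖ / ((1 - ‖a‖) * (1 - ‖a‖)), fun u w hu hw => ?_⟩
  have h1 := mob_den ha hu
  have h2 := mob_den ha hw
  have h3 : mob a u - mob a w = (1 - (starRingEnd ℂ) a * a) /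
      ((1 - (starRingEnd ℂ) a * u) * (1 - (starRingEnd ℂ) a * w)) * (u - w) := by
    rw [mob, mob, div_sub_div _ _ h1 h2, div_mul_eq_mul_div]
    congr 1
    ring
  have h4 := sub_pos.2 ha
  rw [h3, norm_mul, norm_div, norm_mul]
  gcongr
  exacts [mob_den_ge hu, mob_den_ge hw]

variable {k l : ℤ} {F F' : ℂ → ℂ}

theorem Wind.congr (h : Wind k F) (he : ∀ z, ‖z‖ = 1 → F' z = F z) : Wind k F' :=
  let ⟨g, h1, h2, h3⟩ := h
  ⟨g, h1, h2, fun θ => (he _ (Complex.norm_exp_ofReal_mul_I θ)).trans (h3 θ)⟩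

theorem Wind.mul (h : Wind k F) (h' : Wind l F') : Wind (k + l) fun z => F z * F' z := by
  obtain ⟨g, h1, h2, h3⟩ := h
  obtain ⟨g', a1, a2, a3⟩ := h'
  refine ⟨fun θ => g θ + g' θ, h1.add a1, fun θ => by simp only [h2, a2], fun θ => ?_⟩
  simp only [h3, a3, ← Complex.exp_add]
  congr 1
  push_cast
  ring

theorem wind_zpow (k : ℤ) : Wind k fun z => z ^ k :=
  ⟨fun _ => 0, continuous_const, fun _ => rfl, fun θ => by
    simp only [← Complex.exp_int_mul, zero_add, mul_assoc]⟩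

theorem wind_const (ha : a ≠ 0) : Wind 0 fun _ => a :=
  ⟨fun _ => Complex.log a, continuous_const, fun _ => rfl, fun θ => by simp [Complex.exp_log ha]⟩

theorem cont_circ (hF : ContinuousOn F (sphere 0 1)) :
    Continuous fun θ : ℝ => F (Complex.exp (θ * Complex.I)) :=
  hF.comp_continuous (by fun_prop) fun θ =>
    mem_sphere_zero_iff_norm.2 (Complex.norm_exp_ofReal_mul_I θ)

theorem wind_slit (hF : ContinuousOn F (sphere 0 1))
    (h : ∀ z, ‖z‖ = 1 → F z ∈ Complex.slitPlane) : Wind 0 F := by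
  have h1 := fun θ : ℝ => h _ (Complex.norm_exp_ofReal_mul_I θ)
  refine ⟨fun θ => Complex.log (F (Complex.exp (θ * Complex.I))), (cont_circ hF).clog h1,
    fun θ => ?_, fun θ => ?_⟩
  · have : Complex.exp (((θ + 2 * π : ℝ) : ℂ) * Complex.I) = Complex.exp (θ * Complex.I) := by
      push_cast
      rw [add_mul, Complex.exp_add, Complex.exp_two_pi_mul_I, mul_one]
    simp only [this]
  · simp [Complex.exp_log (Complex.slitPlane_ne_zero (h1 θ))]

theorem slit_of_lt (h : ‖w‖ < 1) : 1 + w ∈ Complex.slitPlane :=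
  Complex.mem_slitPlane_of_norm_lt_one h

theorem Wind.near (h : Wind k F) (hF : ContinuousOn F (sphere 0 1))
    (hF' : ContinuousOn F' (sphere 0 1)) (hn : ∀ z, ‖z‖ = 1 → ‖F' z - F z‖ < ‖F z‖) :
    Wind k F' := by
  have h0 : ∀ z, ‖z‖ = 1 → F z ≠ 0 := fun z hz =>
    norm_pos_iff.1 ((norm_nonneg _).trans_lt (hn z hz))
  have h1 : Wind 0 fun z => 1 + (F' z - F z) / F z :=
    wind_slit (continuousOn_const.add ((hF'.sub hF).div hF fun z hz =>
      h0 z (mem_sphere_zero_iff_norm.1 hz))) fun z hz => slit_of_lt (by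
        rw [norm_div, div_lt_one (norm_pos_iff.2 (h0 z hz))]
        exact hn z hz)
  have h2 := h.mul h1
  rw [add_zero] at h2
  refine h2.congr fun z hz => ?_
  have := h0 z hz
  field_simp
  ring

theorem Wind.mob (h : Wind k F) (hF : ContinuousOn F (sphere 0 1))
    (h1 : ∀ z, ‖z‖ = 1 → ‖F z‖ = 1) (ha : ‖a‖ < 1) : Wind k fun z => mob a (F z) := by
  have h0 : ∀ z ∈ sphere (0 : ℂ) 1, 1 - (starRingEnd ℂ) a * F z ≠ 0 := fun z hz =>
    mob_den ha (h1 z (mem_sphere_zero_iff_norm.1 hz)).le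
  have h2 : Wind k fun z => F z - a :=
    h.near hF (hF.sub continuousOn_const) fun z hz => by simpa [h1 z hz] using ha
  have h3 : Wind 0 fun z => (1 - (starRingEnd ℂ) a * F z)⁻¹ :=
    wind_slit ((continuousOn_const.sub (continuousOn_const.mul hF)).inv₀ h0) fun z hz => by
      have h4 : 1 + -((starRingEnd ℂ) a * F z) ∈ Complex.slitPlane :=
        slit_of_lt (by simpa [h1 z hz] using ha)
      rw [← sub_eq_add_neg] at h4
      have h5 := Complex.normSq_pos.2 (Complex.slitPlane_ne_zero h4)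
      rcases h4 with h4 | h4
      · exact Or.inl (by rw [Complex.inv_re]; positivity)
      · exact Or.inr (by rw [Complex.inv_im]; exact div_ne_zero (neg_ne_zero.2 h4) h5.ne')
  have h4 := h2.mul h3
  rw [add_zero] at h4
  exact h4.congr fun z _ => div_eq_mul_inv _ _

end Pool.Agent.Lib.MP_7ed551_gt.Cy
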