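import Pool.Agent.Lib.MP_7ed551_gt.Cy.B.CT
import Pool.Agent.Lib.MP_7ed551_gt.Cy.B.Cov
import Pool.Agent.Lib.MP_7ed551_gt.Cy.W.CF

/-! Nets, and the solution operator with the extremal correction. -/

open scoped ContDiff Topology
open Set Filter Metric Real

noncomputable section

namespace Pool.Agent.Lib.MP_7ed551_gt.Cy

open Pool.Agent.Lib.MP_ccffa6_gt

/- `SmoothPartitionOfUnity.exists_isSubordinate` for a finite cover by balls -/
theorem exists_net {K : Set ℂ} (hK : IsCompact K) {σ : ℝ} (hσ : 0 < σ) :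
    ∃ (ι : Type) (_ : Fintype ι) (e : ι → ℂ) (φ : ι → ℂ → ℝ), (∀ j, e j ∈ K) ∧
      (∀ j, ContDiff ℝ ∞ (φ j)) ∧ (∀ j z, 0 ≤ φ j z) ∧ (∀ z ∈ K, ∑ j, φ j z = 1) ∧
      (∀ z, ∑ j, φ j z ≤ 1) ∧ ∀ j z, φ j z ≠ 0 → ‖z - e j‖ < σ := by
  obtain ⟨t, ht, hc⟩ := hK.elim_nhds_subcover (fun x => ball x σ) fun x _ => ball_mem_nhds x hσ
  obtain ⟨f, hf⟩ := SmoothPartitionOfUnity.exists_isSubordinate (modelWithCornersSelf ℝ ℂ)
    hK.isClosed (fun j : t => ball (j : ℂ) σ) (fun _ => isOpen_ball) fun z hz => by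
      obtain ⟨x, hx, h⟩ := mem_iUnion₂.1 (hc hz)
      exact mem_iUnion.2 ⟨⟨x, hx⟩, h⟩
  refine ⟨t, inferInstance, fun j => j, fun j => f j, fun j => ht _ j.2,
    fun j => (f j).contMDiff.contDiff, fun j z => f.nonneg j z, fun z hz => ?_, fun z => ?_,
    fun j z h => ?_⟩
  · rw [← finsum_eq_sum_of_fintype]
    exact f.sum_eq_one hz
  · rw [← finsum_eq_sum_of_fintype]
    exact f.sum_le_one z
  · exact mem_ball_iff_norm.1 (hf j (subset_tsupport _ h))

theorem net_int {q : ℂ → ℂ} (hq : Continuous q) (hc : HasCompactSupport q) (z : ℂ) :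
    MeasureTheory.Integrable fun w : ℂ => ((π : ℂ) * w)⁻¹ * q (z - w) := by
  have h : MeasureTheory.LocallyIntegrable fun w : ℂ => ((π : ℂ) * w)⁻¹ := by
    refine MeasureTheory.locallyIntegrable_of_norm_le_rpow (C := π⁻¹) (α := 1) (by simp) (by simp)
      (Eventually.of_forall fun w => ?_) ?_
    · rw [Real.rpow_neg_one, norm_inv, norm_mul, Complex.norm_real,
        Real.norm_of_nonneg Real.pi_pos.le, mul_inv]
    · exact (measurable_const.mul measurable_id).inv.aestronglyMeasurable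
  exact hc.convolutionExists_right (ContinuousLinearMap.mul ℝ ℂ) h hq z


theorem cT_sub {q q' : ℂ → ℂ} (hq : Continuous q) (hc : HasCompactSupport q)
    (hq' : Continuous q') (hc' : HasCompactSupport q') (z : ℂ) :
    cT q z - cT q' z = cT (fun s => q s - q' s) z := by
  unfold cT
  rw [← MeasureTheory.integral_sub (net_int hq hc z) (net_int hq' hc' z)]
  simp only [mul_sub]

theorem dbar_add {f g : ℂ → ℂ} {z : ℂ} (hf : DifferentiableAt ℝ f z)
    (hg : DifferentiableAt ℝ g z) : dbar (fun w => f w + g w) z = dbar f z + dbar g z := by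
  simp only [dbar, px, py, fderiv_fun_add hf hg, add_apply]
  ring

theorem dbar_mul {f g : ℂ → ℂ} {z : ℂ} (hf : DifferentiableAt ℂ f z)
    (hg : DifferentiableAt ℝ g z) : dbar (fun w => f w * g w) z = f z * dbar g z := by
  have h := dbar_of_differentiableAt hf
  simp only [dbar, px, py, fderiv_fun_mul (hf.restrictScalars ℝ) hg, add_apply, smul_apply,
    smul_eq_mul] at h ⊢
  linear_combination g z * h

theorem dbar_congr {f g : ℂ → ℂ} {z : ℂ} (h : f =ᶠ[𝓝 z] g) : dbar f z = dbar g z := by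
  simp only [dbar, px, py, h.fderiv_eq]

/-- A continuous family of smooth functions with support in the disc of radius `ρ`. -/
structure Fam {Y : Type} [TopologicalSpace Y] (q : Y → ℂ → ℂ) (ρ M : ℝ) : Prop where
  sm : ∀ y, ContDiff ℝ ∞ (q y)
  supp : ∀ y z, ρ ≤ ‖z‖ → q y z = 0
  bd : ∀ y z, ‖q y z‖ ≤ M
  cont : ∀ y₀, ∀ ε > 0, ∀ᶠ y in 𝓝 y₀, ∀ z, ‖q y z - q y₀ z‖ ≤ ε

theorem net_cs {q : ℂ → ℂ} {ρ : ℝ} (h : ∀ z, ρ ≤ ‖z‖ → q z = 0) : HasCompactSupport q :=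
  HasCompactSupport.intro (isCompact_closedBall (0 : ℂ) ρ) fun z hz =>
    h z (not_le.1 fun h' => hz (mem_closedBall_zero_iff.2 h')).le

theorem net_le {q : ℂ → ℂ} {ρ m : ℝ} (h1 : ρ < 1) (h : ∀ z, ρ ≤ ‖z‖ → q z = 0)
    (hm : ∀ z, ‖q z‖ ≤ m) (z : ℂ) : ‖cT q z‖ ≤ 4 * m := by
  have h2 := norm_cT_le (c := 0) zero_le_one
    (fun s hs => h s (h1.le.trans (by simpa using hs.le))) hm z
  rwa [mul_one] at h2

theorem Fam.net_pow {Y : Type} [TopologicalSpace Y] {q : Y → ℂ → ℂ} {ρ M : ℝ} (hq : Fam q ρ M)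
    (h0 : 0 < ρ) (h1 : ρ < 1) (N : ℕ) : Fam (fun y s => s ^ N * q y s) ρ (ρ ^ N * M) := by
  refine ⟨fun y => (contDiff_id.pow N).mul (hq.sm y), fun y z hz => by rw [hq.supp y z hz, mul_zero],
    fun y z => ?_, fun y₀ ε hε => (hq.cont y₀ ε hε).mono fun y hy z => ?_⟩
  · have hM : 0 ≤ M := (norm_nonneg _).trans (hq.bd y z)
    rcases le_total ρ ‖z‖ with h | h
    · rw [hq.supp y z h, mul_zero, norm_zero]
      positivity
    · rw [norm_mul, norm_pow]
      exact mul_le_mul (pow_le_pow_left₀ (norm_nonneg _) h N) (hq.bd y z) (norm_nonneg _)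
        (pow_nonneg ((norm_nonneg _).trans h) N)
  · rcases le_total ρ ‖z‖ with h | h
    · rw [hq.supp y z h, hq.supp y₀ z h, sub_self, norm_zero]
      exact hε.le
    · rw [← mul_sub, norm_mul, norm_pow]
      exact (mul_le_of_le_one_left (norm_nonneg _)
        (pow_le_one₀ (norm_nonneg _) (h.trans h1.le))).trans (hy z)

theorem Fam.net_near {Y : Type} [TopologicalSpace Y] {q : Y → ℂ → ℂ} {ρ M : ℝ} (hq : Fam q ρ M)
    (h1 : ρ < 1) (y₀ : Y) {ε : ℝ} (hε : 0 < ε) :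
    ∀ᶠ y in 𝓝 y₀, ∀ z, ‖cT (q y) z - cT (q y₀) z‖ ≤ ε := by
  filter_upwards [hq.cont y₀ (ε / 4) (by positivity)] with y hy z
  rw [cT_sub (hq.sm y).continuous (net_cs (hq.supp y)) (hq.sm y₀).continuous (net_cs (hq.supp y₀))]
  refine (net_le h1 (fun s hs => ?_) hy z).trans (le_of_eq (by ring))
  rw [hq.supp y s hs, hq.supp y₀ s hs, sub_self]

theorem net_lip {H : ℂ → ℂ} {c ρ : ℝ} (hH : Sch c H) {z z' : ℂ} (hz' : ‖z'‖ ≤ ρ)
    (h : ‖z - z'‖ < 1 - ρ) : ‖H z - H z'‖ ≤ 2 * c / (1 - ρ) * ‖z - z'‖ := by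
  have hs : ball z' (1 - ρ) ⊆ ball 0 1 := ball_subset_ball' (by rw [dist_zero_right]; linarith)
  have h0 : z' ∈ ball (0 : ℂ) 1 := hs (mem_ball_self ((norm_nonneg _).trans_lt h))
  rw [← dist_eq_norm, ← dist_eq_norm]
  refine Complex.dist_le_div_mul_dist_of_mapsTo_ball (hH.1.mono hs) (fun w hw => ?_)
    (mem_ball_iff_norm.2 h)
  rw [mem_closedBall_iff_norm]
  linarith [norm_sub_le (H w) (H z'), hH.2 w (hs hw), hH.2 z' h0]


/- `G y z = z ^ N * cT (q y) z - cT (fun s => s ^ N * q y s) z` is entire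
(`differentiableAt_of_dbar`) and bounded by `8 M` on the disc (`norm_cT_le`); take `N` with
`4 M ρ ^ N ≤ η`, `H` from `cf`, `S y = cT (q y) + H y` made smooth by `exists_smooth_nhdsSet`.  On
the circle `z ^ N * S y z = F z + cT (fun s => s ^ N * q y s) z`.  The modulus of continuity is
`cT_modulus` and `Complex.dist_le_div_mul_dist_of_mapsTo_ball`. -/
theorem exists_sol {ρ M η : ℝ} (h0 : 0 < ρ) (h1 : ρ < 1) (hη : 0 < η) : ∃ σ > 0,
    ∀ (Y : Type) [TopologicalSpace Y] (q : Y → ℂ → ℂ), Fam q ρ M → ∃ S : Y → ℂ → ℂ,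
      (∀ z, ‖z‖ ≤ ρ → Continuous fun y => S y z) ∧ ∀ y, ContDiff ℝ ∞ (S y) ∧
        (∀ z, ‖z‖ ≤ 1 → dbar (S y) z = q y z) ∧ (∀ z, ‖z‖ ≤ ρ → ‖S y z‖ ≤ 20 * M) ∧
        (∀ z z', ‖z‖ ≤ ρ → ‖z'‖ ≤ ρ → ‖z - z'‖ ≤ σ → ‖S y z - S y z'‖ ≤ η) ∧
        ∃ (d : ℝ) (F : ℂ → ℂ), ContinuousOn F (sphere 0 1) ∧
          (∀ z, ‖z‖ = 1 → ‖F z‖ = d ∧ ‖S y z - F z‖ ≤ η) ∧
          (0 < d → ∃ m : ℕ, 1 ≤ m ∧ Wind (-m) F) := by
  have hM1 : 0 < |M| + 1 := by positivity
  have hρ : 0 < 1 - ρ := sub_pos.2 h1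
  obtain ⟨N, hN⟩ := exists_pow_lt_of_lt_one (show 0 < η / (4 * (|M| + 1)) by positivity) h1
  obtain ⟨δ, hδ, hmod⟩ := cT_modulus 1 (show 0 < η / (2 * (|M| + 1)) by positivity)
  refine ⟨min δ (min ((1 - ρ) / 2) (η * (1 - ρ) / (64 * (|M| + 1)))),
    lt_min hδ (lt_min (by positivity) (by positivity)), fun Y _ q hq => ?_⟩
  have hp := hq.net_pow h0 h1 N
  have hM : ∀ _ : Y, 0 ≤ M := fun y => (norm_nonneg _).trans (hq.bd y 0)
  have c1 : ∀ y, ContDiff ℝ ∞ (cT (q y)) := fun y => contDiff_cT (hq.sm y) (net_cs (hq.supp y))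
  have c2 : ∀ y, ContDiff ℝ ∞ (cT fun s => s ^ N * q y s) := fun y =>
    contDiff_cT (hp.sm y) (net_cs (hp.supp y))
  have b1 : ∀ y z, ‖cT (q y) z‖ ≤ 4 * M := fun y => net_le h1 (hq.supp y) (hq.bd y)
  have b2 : ∀ y z, ‖cT (fun s => s ^ N * q y s) z‖ ≤ 4 * (ρ ^ N * M) := fun y =>
    net_le h1 (hp.supp y) (hp.bd y)
  have hz1 : ∀ z ∈ ball (0 : ℂ) 1, ‖z ^ N‖ ≤ 1 := fun z hz => by
    rw [norm_pow]
    exact pow_le_one₀ (norm_nonneg _) (mem_ball_zero_iff.1 hz).le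
  obtain ⟨G, hG⟩ : ∃ G : Y → ℂ → ℂ, G = fun y z =>
      z ^ N * cT (q y) z + (-1) * cT (fun s => s ^ N * q y s) z := ⟨_, rfl⟩
  have g1 : ∀ y, Differentiable ℂ (G y) := fun y z => by
    have d1 := (c1 y).differentiable (by simp) z
    have d2 := (c2 y).differentiable (by simp) z
    have d3 : DifferentiableAt ℂ (fun w : ℂ => w ^ N) z := differentiableAt_id.pow N
    have d4 : DifferentiableAt ℝ (fun w => w ^ N * cT (q y) w) z := (d3.restrictScalars ℝ).mul d1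
    have d5 := d2.const_mul (-1 : ℂ)
    rw [hG]
    refine differentiableAt_of_dbar (d4.add d5) ?_
    beta_reduce
    rw [dbar_add d4 d5, dbar_mul d3 d1, dbar_mul (differentiableAt_const _) d2,
      dbar_cT (hq.sm y) (net_cs (hq.supp y)), dbar_cT (hp.sm y) (net_cs (hp.supp y))]
    ring
  have g2 : ∀ y, ∀ z ∈ ball (0 : ℂ) 1, ‖G y z‖ ≤ 8 * M := fun y z hz => by
    have e1 : ‖z ^ N * cT (q y) z‖ ≤ 4 * M := by
      rw [norm_mul]
      exact (mul_le_of_le_one_left (norm_nonneg _) (hz1 z hz)).trans (b1 y z)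
    have e2 := mul_le_of_le_one_left (hM y) (pow_le_one₀ h0.le h1.le : ρ ^ N ≤ 1)
    have e3 := b2 y z
    rw [hG]
    refine (norm_add_le _ _).trans ?_
    rw [neg_one_mul, norm_neg]
    linarith
  have g3 : ∀ y₀, ∀ ε > 0, ∀ᶠ y in 𝓝 y₀, ∀ z ∈ ball (0 : ℂ) 1, ‖G y z - G y₀ z‖ ≤ ε := by
    intro y₀ ε hε
    filter_upwards [hq.net_near h1 y₀ (half_pos hε), hp.net_near h1 y₀ (half_pos hε)]
      with y e1 e2 z hz
    have e3 : G y z - G y₀ z = z ^ N * (cT (q y) z - cT (q y₀) z) -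
        (cT (fun s => s ^ N * q y s) z - cT (fun s => s ^ N * q y₀ s) z) := by
      rw [hG]
      ring
    rw [e3]
    refine (norm_sub_le _ _).trans ?_
    rw [norm_mul]
    linarith [mul_le_of_le_one_left (norm_nonneg (cT (q y) z - cT (q y₀) z)) (hz1 z hz), e1 z, e2 z]
  obtain ⟨H, hc, hH⟩ := cf N g1 g2 g3
  choose K k1 k2 _ using fun y => exists_smooth_nhdsSet (A := closedBall (0 : ℂ) 1)
    (U := {z | AnalyticAt ℂ (H y) z}) (f := H y) isClosed_closedBall (isOpen_analyticAt ℂ _)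
    (hH y).1 fun z hz => (AnalyticAt.contDiffAt hz).restrict_scalars ℝ |>.contDiffWithinAt
  have k3 : ∀ y z, ‖z‖ ≤ 1 → K y =ᶠ[𝓝 z] H y := fun y z hz =>
    eventually_nhdsSet_iff_forall.1 (k2 y) z (mem_closedBall_zero_iff.2 hz)
  have k4 : ∀ y z, ‖z‖ ≤ 1 → K y z = H y z := fun y z hz => (k3 y z hz).self_of_nhds
  have hb : ∀ z : ℂ, ‖z‖ ≤ ρ → z ∈ ball (0 : ℂ) 1 := fun z hz =>
    mem_ball_zero_iff.2 (hz.trans_lt h1)
  refine ⟨fun y z => cT (q y) z + K y z, fun z hz => ?_, fun y => ⟨(c1 y).add (k1 y),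
    fun z hz => ?_, fun z hz => ?_, fun z z' hz hz' hd => ?_, ?_⟩⟩
  · simp only [k4 _ z (hz.trans h1.le)]
    refine Continuous.add (continuous_iff_continuousAt.2 fun y₀ => ?_) (hc z (hb z hz))
    refine Metric.tendsto_nhds.2 fun ε hε => ?_
    filter_upwards [hq.net_near h1 y₀ (half_pos hε)] with y hy
    rw [dist_eq_norm]
    exact (hy z).trans_lt (half_lt_self hε)
  · rw [dbar_add ((c1 y).differentiable (by simp) z) ((k1 y).differentiable (by simp) z),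
      dbar_cT (hq.sm y) (net_cs (hq.supp y)), dbar_congr (k3 y z hz), dbar_of_differentiableAt
        ((hH y).1 z (mem_closedBall_zero_iff.2 hz)).differentiableAt, add_zero]
  · refine (norm_add_le _ _).trans ?_
    rw [k4 y z (hz.trans h1.le)]
    linarith [b1 y z, (hH y).2.1.2 z (hb z hz)]
  · have m0 := hM y
    have m1 : M ≤ |M| + 1 := (le_abs_self M).trans (by linarith)
    have e1 := hmod (q y) M (hq.sm y).continuous (fun s hs => hq.supp y s (by linarith)) (hq.bd y)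
      z z' (hd.trans (min_le_left _ _))
    have e2 : ‖z - z'‖ ≤ (1 - ρ) / 2 := hd.trans ((min_le_right _ _).trans (min_le_left _ _))
    have e3 : ‖z - z'‖ ≤ η * (1 - ρ) / (64 * (|M| + 1)) :=
      hd.trans ((min_le_right _ _).trans (min_le_right _ _))
    have e4 := net_lip (hH y).2.1 hz' (e2.trans_lt (half_lt_self hρ))
    have e5 : η / (2 * (|M| + 1)) * M ≤ η / 2 :=
      (mul_le_mul_of_nonneg_left m1 (by positivity)).trans (le_of_eq (by field_simp))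
    have e6 : 2 * (2 * (8 * M)) / (1 - ρ) * ‖z - z'‖ ≤ η / 2 := by
      refine (mul_le_mul (b := 32 * (|M| + 1) / (1 - ρ))
        (div_le_div_of_nonneg_right (by linarith) hρ.le) e3 (norm_nonneg _)
        (by positivity)).trans (le_of_eq ?_)
      field_simp
      norm_num
    beta_reduce
    rw [k4 y z (hz.trans h1.le), k4 y z' (hz'.trans h1.le), add_sub_add_comm]
    linarith [norm_add_le (cT (q y) z - cT (q y) z') (H y z - H y z')]
  · obtain ⟨a1, -, d, a2, a3⟩ := hH y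
    have n0 : ∀ z : ℂ, ‖z‖ = 1 → z ≠ 0 := fun z hz => norm_ne_zero_iff.1 (hz ▸ one_ne_zero)
    have n1 : ∀ z : ℂ, ‖z‖ = 1 → ‖z ^ (-(N : ℤ))‖ = 1 := fun z hz => by
      rw [norm_zpow, hz, one_zpow]
    refine ⟨d, fun z => (G y z + z ^ N * H y z) * z ^ (-(N : ℤ)), ?_, fun z hz => ⟨?_, ?_⟩,
      fun hd => ?_⟩
    · refine ((g1 y).continuous.continuousOn.add ((continuous_pow N).continuousOn.mul
        (a1.continuousOn.mono sphere_subset_closedBall))).mul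
        (continuousOn_id.zpow₀ _ fun z hz => Or.inl (n0 z (mem_sphere_zero_iff_norm.1 hz)))
    · rw [norm_mul, a2 z hz, n1 z hz, mul_one]
    · have e1 : cT (q y) z + K y z - (G y z + z ^ N * H y z) * z ^ (-(N : ℤ)) =
          cT (fun s => s ^ N * q y s) z * z ^ (-(N : ℤ)) := by
        have e2 : z ^ N * z ^ (-(N : ℤ)) = 1 := by
          rw [zpow_neg, zpow_natCast, mul_inv_cancel₀ (pow_ne_zero N (n0 z hz))]
        rw [k4 y z hz.le, hG]
        linear_combination (-(cT (q y) z + H y z)) * e2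
      beta_reduce
      rw [e1, norm_mul, n1 z hz, mul_one]
      have e3 : ρ ^ N * (4 * (|M| + 1)) < η := (lt_div_iff₀ (by positivity)).1 hN
      have e4 := mul_le_mul_of_nonneg_left (le_abs_self M) (pow_pos h0 N).le
      linarith [b2 y z, pow_pos h0 N]
    · obtain ⟨k, hk, hw⟩ := a3 hd
      refine ⟨N - k, by omega, ?_⟩
      have e1 : -((N - k : ℕ) : ℤ) = k + -(N : ℤ) := by omega
      rw [e1]
      exact hw.mul (wind_zpow _)

end Pool.Agent.Lib.MP_7ed551_gt.Cy
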