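import Pool.Agent.Lib.MP_7ed551_gt.Cy.W.Tube

/-! Extension by zero from a tube. -/

open scoped ContDiff Topology
open Set Filter Metric Real

noncomputable section

namespace Pool.Agent.Lib.MP_7ed551_gt.Cy

open Pool.Agent.Lib.MP_ccffa6_gt

variable {Θ : E → E} {N ε : ℝ}

theorem Tube.push {V : Type} [NormedAddCommGroup V] [NormedSpace ℝ V] (h : Tube Θ N) (hε : ε < N)
    {φ : ℝ × E → V} (hs : ContDiffOn ℝ ∞ φ (univ ×ˢ Box N)) (hp : ∀ t, Per2 fun Z => φ (t, Z))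
    (h0 : ∀ t, ∀ Z ∈ Box N, Z ∉ CBox ε → φ (t, Z) = 0) :
    ∃ ψ : ℝ × E → V, ContDiff ℝ ∞ ψ ∧ (∀ t, ∀ Z ∈ Box N, ψ (t, Θ Z) = φ (t, Z)) ∧
      ∀ t y, y ∉ Θ '' CBox ε → ψ (t, y) = 0 := by
  classical
  obtain ⟨ψ, hψ⟩ : ∃ ψ : ℝ × E → V, ∀ p, ψ p =
    if hy : ∃ Z ∈ Box N, Θ Z = p.2 then φ (p.1, hy.choose) else 0 := ⟨_, fun _ => rfl⟩
  have k1 : ∀ t, ∀ Z ∈ Box N, ψ (t, Θ Z) = φ (t, Z) := fun t Z hZ => by
    have hy : ∃ W ∈ Box N, Θ W = Θ Z := ⟨Z, hZ, rfl⟩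
    obtain ⟨m, n, e⟩ := h.inj _ hy.choose_spec.1 Z hZ hy.choose_spec.2
    rw [hψ, dif_pos hy]
    exact ((hp t).int m n _).symm.trans (congrArg (fun W => φ (t, W)) e.symm)
  have k2 : ∀ t y, y ∉ Θ '' CBox ε → ψ (t, y) = 0 := fun t y hy => by
    by_cases hb : ∃ Z ∈ Box N, Θ Z = y
    · obtain ⟨Z, hZ, rfl⟩ := hb
      rw [k1 t Z hZ, h0 t Z hZ fun hc => hy ⟨Z, hc, rfl⟩]
    · rw [hψ, dif_neg hb]
  refine ⟨ψ, contDiff_iff_contDiffAt.2 fun ⟨t, y⟩ => ?_, k1, k2⟩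
  by_cases hy : y ∈ Θ '' CBox ε
  · obtain ⟨Z, hZ, rfl⟩ := hy
    have hB := CBox_sub hε hZ
    obtain ⟨A, hA⟩ := h.inv hB
    have hd : HasFDerivAt Θ (A : E →L[ℝ] E) Z :=
      hA ▸ (h.sm.differentiable (by simp) Z).hasFDerivAt
    have hn : (∞ : WithTop ℕ∞) ≠ 0 := by simp
    have g1 := h.sm.contDiffAt.to_localInverse hd hn
    have g2 := h.sm.contDiffAt.localInverse_apply_image hd hn
    have g3 : ∀ᶠ y in 𝓝 (Θ Z), Θ (h.sm.contDiffAt.localInverse hd hn y) = y :=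
      (h.sm.contDiffAt.hasStrictFDerivAt' hd hn).eventually_right_inverse
    generalize h.sm.contDiffAt.localInverse hd hn = g at g1 g2 g3
    have g4 : ∀ᶠ y in 𝓝 (Θ Z), g y ∈ Box N :=
      g1.continuousAt.eventually_mem ((isOpen_Box N).mem_nhds (g2.symm ▸ hB))
    have g5 : ContDiffAt ℝ ∞ φ (t, g (Θ Z)) :=
      hs.contDiffAt ((isOpen_univ.prod (isOpen_Box N)).mem_nhds ⟨trivial, g2.symm ▸ hB⟩)
    refine (g5.comp (t, Θ Z) (f := fun p : ℝ × E => (p.1, g p.2)) (contDiffAt_fst.prodMk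
      (g1.comp (t, Θ Z) contDiffAt_snd))).congr_of_eventuallyEq ?_
    filter_upwards [(continuous_snd.tendsto (t, Θ Z)).eventually (g3.and g4)] with p hp'
    exact (congrArg (fun y => ψ (p.1, y)) hp'.1.symm).trans (k1 _ _ hp'.2)
  · refine (contDiffAt_const (c := (0 : V))).congr_of_eventuallyEq ?_
    filter_upwards [(continuous_snd.tendsto (t, y)).eventually
      ((h.per.compact h.sm.continuous.continuousOn).isClosed.isOpen_compl.mem_nhds hy)] with p hp'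
    exact k2 _ _ hp'

/-- The real parts. -/
def pushL : E →L[ℝ] ℝ × ℝ :=
  (Complex.reCLM.comp (ContinuousLinearMap.fst ℝ ℂ ℂ)).prod
    (Complex.reCLM.comp (ContinuousLinearMap.snd ℝ ℂ ℂ))

theorem push_mem {Z : E} : Z ∈ CBox ε ↔ ‖pushL Z‖ ≤ ε := by
  rw [Prod.norm_def, max_le_iff]
  rfl

theorem push_norm : ‖pushL‖ ≤ 1 :=
  ContinuousLinearMap.opNorm_le_bound _ zero_le_one fun Z => by
    rw [one_mul, ← push_mem]
    exact ⟨(Complex.abs_re_le_norm _).trans (norm_fst_le Z),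
      (Complex.abs_re_le_norm _).trans (norm_snd_le Z)⟩

theorem exists_cut : ∃ (χ : ℝ → E → ℝ) (C : ℝ), 0 ≤ C ∧ ∀ ε > 0, ContDiff ℝ ∞ (χ ε) ∧
    Per2 (χ ε) ∧ (∀ Z, χ ε Z ∈ Icc (0 : ℝ) 1) ∧ (∀ Z ∈ CBox ε, χ ε Z = 1) ∧
    (∀ Z, Z ∉ CBox (2 * ε) → χ ε Z = 0) ∧ ∀ Z, ‖fderiv ℝ (χ ε) Z‖ ≤ C / ε := by
  let b : ContDiffBump (0 : ℝ × ℝ) := ⟨1, 2, one_pos, one_lt_two⟩
  have hb : ContDiff ℝ ∞ b := b.contDiff
  obtain ⟨C, hC⟩ := (hb.continuous_fderiv (by simp)).bounded_above_of_compact_support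
    (b.hasCompactSupport.fderiv ℝ)
  have C0 := (norm_nonneg _).trans (hC 0)
  refine ⟨fun ε Z => b ((ε⁻¹ • pushL) Z), C, C0, fun ε hε => ?_⟩
  have hn : ∀ Z, ‖(ε⁻¹ • pushL) Z‖ = ‖pushL Z‖ / ε := fun Z => by
    rw [smul_apply, norm_smul, norm_inv, Real.norm_of_nonneg hε.le, div_eq_inv_mul]
  refine ⟨hb.comp (ε⁻¹ • pushL).contDiff, ⟨fun Z => ?_, fun Z => ?_⟩,
    fun Z => ⟨b.nonneg, b.le_one⟩, fun Z hZ => b.one_of_mem_closedBall ?_,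
    fun Z hZ => b.zero_of_le_dist ?_, fun Z => ?_⟩
  · simp [pushL]
  · simp [pushL]
  · rw [mem_closedBall_zero_iff, hn]
    exact (div_le_one hε).2 (push_mem.1 hZ)
  · rw [dist_zero_right, hn]
    exact (le_div_iff₀ hε).2 (not_le.1 fun h => hZ (push_mem.2 h)).le
  · rw [show fderiv ℝ (fun Z => b ((ε⁻¹ • pushL) Z)) Z = _ from
      ((hb.differentiable (by simp) _).hasFDerivAt.comp Z (ε⁻¹ • pushL).hasFDerivAt).fderiv]
    refine (ContinuousLinearMap.opNorm_comp_le _ _).trans ?_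
    rw [div_eq_mul_inv, norm_smul, norm_inv, Real.norm_of_nonneg hε.le]
    exact mul_le_mul (hC _) (mul_le_of_le_one_right (inv_pos.2 hε).le push_norm) (by positivity) C0

theorem push_mvt {φ : Form1 E} {δ : ℝ} (hε : 0 ≤ ε)
    (hd : ∀ Z ∈ CBox ε, DifferentiableAt ℝ φ Z) (hb : ∀ Z ∈ CBox ε, ‖fderiv ℝ φ Z‖ ≤ δ)
    (h0 : ∀ Z ∈ CBox 0, φ Z = 0) {Z : E} (hZ : Z ∈ CBox ε) : ‖φ Z‖ ≤ δ * ε := by
  have hc : Convex ℝ (CBox ε) := by
    rw [show CBox ε = pushL ⁻¹' closedBall 0 ε from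
      Set.ext fun _ => push_mem.trans mem_closedBall_zero_iff.symm]
    exact (convex_closedBall _ _).linear_preimage pushL.toLinearMap
  have m : (Z - ((Z.1.re : ℂ), (Z.2.re : ℂ))) ∈ CBox 0 := by simp [CBox]
  have := hc.norm_image_sub_le_of_norm_fderiv_le hd hb ⟨m.1.trans hε, m.2.trans hε⟩ hZ
  rw [h0 _ m, sub_zero, sub_sub_cancel] at this
  refine this.trans (mul_le_mul_of_nonneg_left ?_
    ((ContinuousLinearMap.opNorm_nonneg _).trans (hb Z hZ)))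
  rw [Prod.norm_def, Complex.norm_real, Complex.norm_real]
  exact max_le hZ.1 hZ.2

theorem Tube.small (h : Tube Θ N) (hN : 0 < N) {φ : Form1 E} (hs : ContDiffOn ℝ ∞ φ (Box N))
    (hp : Per2 φ) (h0 : ∀ Z ∈ CBox 0, φ Z = 0 ∧ fderiv ℝ φ Z = 0) :
    ∃ (ε : ℝ) (β : Form1 E), 0 < ε ∧ 2 * ε < N ∧ Small β ∧ (∀ Z ∈ Box ε, β (Θ Z) = φ Z) ∧
      (∀ Z ∈ CBox 0, dF β (Θ Z) = 0) ∧ ∀ y, y ∉ Θ '' CBox (2 * ε) → β y = 0 := by
  obtain ⟨χ, C, C0, hχ⟩ := exists_cut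
  have hN2 : N / 2 < N := half_lt_self hN
  have pi : Per2 fun Z => (fderiv ℝ Θ Z).inverse :=
    ⟨fun Z => congrArg _ (h.per.fderiv.1 Z), fun Z => congrArg _ (h.per.fderiv.2 Z)⟩
  obtain ⟨M, M0, hM⟩ := (pi.compact
    (h.sm_inv.continuousOn.mono (CBox_sub hN2))).isBounded.exists_pos_norm_le
  obtain ⟨δ, δ0, hδ⟩ : ∃ δ > 0, δ * (1 + 2 * C) * M = 1 / 20 :=
    ⟨1 / (20 * (1 + 2 * C) * M), by positivity, by field_simp⟩
  have cφ : ∀ Z ∈ Box N, ContDiffAt ℝ ∞ φ Z := fun Z hZ =>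
    hs.contDiffAt ((isOpen_Box N).mem_nhds hZ)
  obtain ⟨e, e0, he⟩ := Per2.nbhd (P := fun Z => ‖fderiv ℝ φ Z‖ ≤ δ)
    ⟨fun Z => by simp only [hp.fderiv.1], fun Z => by simp only [hp.fderiv.2]⟩ fun Z hZ =>
      ((cφ Z (CBox_sub hN hZ)).continuousAt_fderiv (by simp)).norm.eventually_le_const
        (by simp only [(h0 Z hZ).2, ContinuousLinearMap.opNorm_zero, δ0.lt])
  obtain ⟨ε, ε0, h1, h2⟩ : ∃ ε > 0, 2 * ε ≤ e ∧ 2 * ε ≤ N / 2 :=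
    ⟨min e (N / 2) / 2, by positivity, by linarith [min_le_left e (N / 2)],
      by linarith [min_le_right e (N / 2)]⟩
  have h3 : 2 * ε < N := h2.trans_lt hN2
  obtain ⟨c1, c2, c3, c4, c5, c6⟩ := hχ ε ε0
  obtain ⟨ψ, s1, s2, s3⟩ := h.push h3 (φ := fun p => χ ε p.2 • φ p.2)
    ((c1.comp contDiff_snd).contDiffOn.smul (hs.comp contDiffOn_snd fun _ hp => hp.2))
    (fun _ => ⟨fun Z => by simp only [c2.1, hp.1], fun Z => by simp only [c2.2, hp.2]⟩)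
    fun _ Z _ hZ => by simp only [c5 Z hZ, zero_smul]
  have sβ : ContDiff ℝ ∞ fun y => ψ (0, y) := s1.comp (contDiff_const.prodMk contDiff_id)
  have dφ : ∀ Z ∈ Box N, DifferentiableAt ℝ φ Z := fun Z hZ => (cφ Z hZ).differentiableAt (by simp)
  have key : ∀ Z ∈ Box N, fderiv ℝ (fun y => ψ (0, y)) (Θ Z) = (χ ε Z • fderiv ℝ φ Z +
      (fderiv ℝ (χ ε) Z).smulRight (φ Z)).comp (fderiv ℝ Θ Z).inverse := fun Z hZ => by
    have e1 : (fun y => ψ (0, y)) ∘ Θ =ᶠ[𝓝 Z] fun W => χ ε W • φ W :=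
      Filter.mem_of_superset ((isOpen_Box N).mem_nhds hZ) fun W hW => s2 0 W hW
    rw [← fderiv_fun_smul (c1.differentiable (by simp) Z) (dφ Z hZ), ← e1.fderiv_eq,
      fderiv_comp Z (sβ.differentiable (by simp) _) (h.sm.differentiable (by simp) Z)]
    obtain ⟨A, hA⟩ := h.inv hZ
    rw [← hA]
    ext v <;> simp
  have kc := h.per.compact (ε := 2 * ε) h.sm.continuous.continuousOn
  have bd : ∀ y, ‖fderiv ℝ (fun y => ψ (0, y)) y‖ ≤ 1 / 20 := fun y => by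
    by_cases hy : y ∈ Θ '' CBox (2 * ε)
    · obtain ⟨Z, hZ, rfl⟩ := hy
      have sub : ∀ W ∈ CBox (2 * ε), ‖fderiv ℝ φ W‖ ≤ δ := fun W hW =>
        he W ⟨hW.1.trans h1, hW.2.trans h1⟩
      have b1 := push_mvt (by positivity) (fun W hW => dφ W (CBox_sub h3 hW)) sub
        (fun W hW => (h0 W hW).1) hZ
      rw [key Z (CBox_sub h3 hZ), ← hδ]
      refine (ContinuousLinearMap.opNorm_comp_le _ _).trans (mul_le_mul ((norm_add_le _ _).trans ?_)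
        (hM _ ⟨Z, ⟨hZ.1.trans h2, hZ.2.trans h2⟩, rfl⟩) (norm_nonneg _) (by positivity))
      rw [norm_smul, ContinuousLinearMap.norm_smulRight_apply, Real.norm_of_nonneg (c3 Z).1]
      have b2 := mul_le_mul (c3 Z).2 (sub Z hZ) (ContinuousLinearMap.opNorm_nonneg _) zero_le_one
      have b3 := mul_le_mul (c6 Z) b1 (norm_nonneg _) (by positivity)
      rw [show C / ε * (δ * (2 * ε)) = δ * (2 * C) by field_simp] at b3
      linarith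
    · have e1 : (fun y => ψ (0, y)) =ᶠ[𝓝 y] fun _ => 0 :=
        Filter.mem_of_superset (kc.isClosed.isOpen_compl.mem_nhds hy) fun W hW => s3 0 W hW
      rw [e1.fderiv_eq, fderiv_fun_const, Pi.zero_apply, ContinuousLinearMap.opNorm_zero]
      norm_num
  refine ⟨ε, fun y => ψ (0, y), ε0, h3, ⟨sβ, HasCompactSupport.intro kc (s3 0), fun x u v => ?_⟩,
    fun Z hZ => ?_, fun Z hZ => ?_, s3 0⟩
  · have b1 := ContinuousLinearMap.le_of_opNorm₂_le_of_le _ (bd x) (le_refl ‖u‖) (le_refl ‖v‖)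
    have b2 := ContinuousLinearMap.le_of_opNorm₂_le_of_le _ (bd x) (le_refl ‖v‖) (le_refl ‖u‖)
    rw [dF_apply]
    refine (abs_sub _ _).trans ?_
    rw [Real.norm_eq_abs] at b1 b2
    linarith
  · simp only [s2 0 Z (Box_mono (by linarith) hZ), c4 Z (Box_sub le_rfl hZ), one_smul]
  · rw [dF, key Z (CBox_sub hN hZ), (h0 Z hZ).1, (h0 Z hZ).2]
    ext u v <;> simp

end Pool.Agent.Lib.MP_7ed551_gt.Cy
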