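import Pool.Agent.Lib.MP_7ed551_gt.Cy.W.Mob

/-! The Schur algorithm. -/

open scoped ContDiff Topology
open Set Filter Metric Real

noncomputable section

namespace Pool.Agent.Lib.MP_7ed551_gt.Cy

open Pool.Agent.Lib.MP_ccffa6_gt

open Asymptotics

/-- Holomorphic in the unit disc and bounded by `c`. -/
def Sch (c : ℝ) (f : ℂ → ℂ) : Prop :=
  DifferentiableOn ℂ f (ball 0 1) ∧ ∀ z ∈ ball (0 : ℂ) 1, ‖f z‖ ≤ c

/-- `f` and `g` agree to order `N` at the origin. -/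
def Jet (N : ℕ) (f g : ℂ → ℂ) : Prop := (fun z => f z - g z) =O[𝓝[≠] 0] fun z : ℂ => z ^ N

/-- One step of the algorithm. -/
def step (f : ℂ → ℂ) : ℂ → ℂ := dslope (fun z => mob (f 0) (f z)) 0

variable {f g : ℂ → ℂ} {N : ℕ} {c : ℝ}

theorem ball_ev : ∀ᶠ z in 𝓝[≠] (0 : ℂ), z ∈ ball (0 : ℂ) 1 :=
  nhdsWithin_le_nhds (ball_mem_nhds _ one_pos)

theorem Sch.mono (h : Sch c f) {c' : ℝ} (hc : c ≤ c') : Sch c' f :=
  ⟨h.1, fun z hz => (h.2 z hz).trans hc⟩

theorem Sch.cont (h : Sch c f) : ContinuousAt f 0 :=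
  (h.1.differentiableAt (ball_mem_nhds _ one_pos)).continuousAt

theorem Sch.mul_le (h : Sch c f) {z : ℂ} (hz : z ∈ ball (0 : ℂ) 1) : ‖z * f z‖ ≤ c := by
  rw [norm_mul]
  exact (mul_le_of_le_one_left (norm_nonneg _) (mem_ball_zero_iff.1 hz).le).trans (h.2 z hz)

theorem Sch.diff_mob (h : Sch 1 f) {a : ℂ} (ha : ‖a‖ < 1) :
    DifferentiableOn ℂ (fun z => mob a (f z)) (ball 0 1) := fun z hz =>
  (analyticAt_mob ha (h.2 z hz)).differentiableAt.comp_differentiableWithinAt z (h.1 z hz)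

theorem Sch.mul (h : Sch c f) : Sch c fun z => z * f z :=
  ⟨differentiableOn_id.mul h.1, fun _ hz => h.mul_le hz⟩

theorem Sch.step (h : Sch 1 f) (h0 : ‖f 0‖ < 1) : Sch 1 (step f) :=
  ⟨(Complex.differentiableOn_dslope (ball_mem_nhds _ one_pos)).2 (h.diff_mob h0), fun z hz => by
    have := Complex.norm_dslope_le_div_of_mapsTo_ball (R₂ := 1) (h.diff_mob h0) (fun w hw => by
      rw [mob_self]
      exact mem_closedBall_zero_iff.2 (norm_mob_le h0 (h.2 w hw))) hz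
    rwa [div_one] at this⟩

theorem mul_step (f : ℂ → ℂ) (z : ℂ) : z * step f z = mob (f 0) (f z) := by
  have := sub_smul_dslope (fun z => mob (f 0) (f z)) 0 z
  rwa [sub_zero, mob_self, sub_zero] at this

theorem Sch.step_eq (h : Sch 1 f) (h0 : ‖f 0‖ < 1) {z : ℂ} (hz : z ∈ ball (0 : ℂ) 1) :
    f z = mob (-f 0) (z * Cy.step f z) := by
  rw [mul_step, mob_inv h0 (h.2 z hz)]

theorem Jet.zero_eq' (h : Jet (N + 1) f g) (hf : ContinuousAt f 0) (hg : ContinuousAt g 0) :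
    f 0 = g 0 := by
  have h1 : Tendsto (fun z : ℂ => z ^ (N + 1)) (𝓝[≠] 0) (𝓝 0) :=
    ((continuous_pow (N + 1)).tendsto' 0 0 (by simp)).mono_left nhdsWithin_le_nhds
  exact sub_eq_zero.1 (tendsto_nhds_unique
    ((hf.sub hg).tendsto.mono_left nhdsWithin_le_nhds) (IsBigO.trans_tendsto h h1))

theorem Jet.zero_eq (h : Jet (N + 1) f g) (hf : Sch 1 f) (hg : Sch 1 g) : f 0 = g 0 :=
  h.zero_eq' hf.cont hg.cont

theorem mob_bigO (hf : Sch 1 f) (hg : Sch 1 g) {a : ℂ} (ha : ‖a‖ < 1) :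
    (fun z => mob a (f z) - mob a (g z)) =O[𝓝[≠] 0] fun z => f z - g z :=
  let ⟨C, hC⟩ := mob_lip ha
  .of_bound C (ball_ev.mono fun z hz => hC _ _ (hf.2 z hz) (hg.2 z hz))

theorem Jet.mob (h : Jet N f g) (hf : Sch 1 f) (hg : Sch 1 g) {a : ℂ} (ha : ‖a‖ < 1) :
    Jet (N + 1) (fun z => mob a (z * f z)) fun z => mob a (z * g z) :=
  (mob_bigO hf.mul hg.mul ha).trans (((isBigO_refl (fun z : ℂ => z) _).mul h).congr
    (fun _ => mul_sub _ _ _) fun _ => (pow_succ' _ _).symm)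

theorem Jet.of_mul (h : Jet (N + 1) (fun z => z * f z) fun z => z * g z) : Jet N f g :=
  ((isBigO_refl (fun z : ℂ => z⁻¹) _).mul h).congr'
    (eventually_mem_nhdsWithin.mono fun z (hz : z ≠ 0) => by
      simp only [← mul_sub, inv_mul_cancel_left₀ hz])
    (eventually_mem_nhdsWithin.mono fun z (hz : z ≠ 0) => by
      simp only [pow_succ', inv_mul_cancel_left₀ hz])

theorem Jet.step (h : Jet (N + 1) f g) (hf : Sch 1 f) (hg : Sch 1 g) (h0 : ‖g 0‖ < 1) :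
    Jet N (step f) (step g) := by
  refine Jet.of_mul ?_
  simp only [mul_step, h.zero_eq hf hg]
  exact (mob_bigO hf hg h0).trans h

theorem Jet.congr {g' : ℂ → ℂ} (h : Jet N f g) (he : EqOn g g' (ball 0 1)) : Jet N f g' :=
  IsBigO.congr' h (ball_ev.mono fun z hz => by simp only [he hz]) .rfl

theorem Sch.const (h : Sch 1 f) (h0 : ‖f 0‖ = 1) {z : ℂ} (hz : z ∈ ball (0 : ℂ) 1) : f z = f 0 :=
  Complex.eqOn_of_isPreconnected_of_isMaxOn_norm (convex_ball 0 1).isPreconnected isOpen_ball h.1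
    (mem_ball_self one_pos) (fun w hw => (h.2 w hw).trans h0.ge) hz

theorem schur (N : ℕ) {f : ℂ → ℂ} (hf : Sch 1 f) : (∃ c < 1, ∃ g, Sch c g ∧ Jet N g f) ∨
    ((∀ g, Sch 1 g → Jet N g f → EqOn g f (ball 0 1)) ∧ ∃ (F : ℂ → ℂ) (k : ℕ), k < N ∧
      AnalyticOnNhd ℂ F (closedBall 0 1) ∧ EqOn F f (ball 0 1) ∧ (∀ z, ‖z‖ = 1 → ‖F z‖ = 1) ∧
      Wind k F) := by
  induction N generalizing f with
  | zero =>
    refine Or.inl ⟨0, one_pos, fun _ => 0, ⟨differentiableOn_const _, fun _ _ => by simp⟩,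
      .of_bound 1 (ball_ev.mono fun z hz => ?_)⟩
    simpa using hf.2 z hz
  | succ N ih =>
    rcases (hf.2 0 (mem_ball_self one_pos)).eq_or_lt with h0 | h0
    · refine Or.inr ⟨fun g hg hj z hz => ?_, fun _ => f 0, 0, N.succ_pos, analyticOnNhd_const,
        fun z hz => (hf.const h0 hz).symm, fun _ _ => h0,
        wind_const (norm_ne_zero_iff.1 (h0 ▸ one_ne_zero))⟩
      have h1 := hj.zero_eq hg hf
      rw [hg.const (h1 ▸ h0) hz, hf.const h0 hz, h1]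
    have ha : ‖-f 0‖ < 1 := by rwa [norm_neg]
    rcases ih (hf.step h0) with ⟨c, hc, g, hg, hj⟩ | ⟨hu, F, k, hk, h1, h2, h3, h4⟩
    · obtain ⟨c', a1, a2⟩ := norm_mob_lt ha hc
      exact Or.inl ⟨c', a1, fun z => mob (-f 0) (z * g z),
        ⟨(hg.mono hc.le).mul.diff_mob ha, fun z hz => a2 _ (hg.mul_le hz)⟩,
        (hj.mob (hg.mono hc.le) (hf.step h0) ha).congr fun z hz => (hf.step_eq h0 hz).symm⟩
    have h5 : ∀ z, ‖z‖ = 1 → ‖z * F z‖ = 1 := fun z hz => by rw [norm_mul, hz, h3 z hz, mul_one]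
    refine Or.inr ⟨fun g hg hj z hz => ?_, fun z => mob (-f 0) (z * F z), k + 1, by omega,
      fun z hz => ?_, fun z hz => ?_, fun z hz => norm_mob_eq ha (h5 z hz), ?_⟩
    · have h6 := hj.zero_eq hg hf
      have h7 : ‖g 0‖ < 1 := h6 ▸ h0
      rw [hg.step_eq h7 hz, hf.step_eq h0 hz, hu _ (hg.step h7) (hj.step hg hf h0) hz, h6]
    · refine (analyticAt_mob ha ?_).fun_comp_of_eq (analyticAt_id.mul (h1 z hz)) rfl
      rcases (mem_closedBall_zero_iff.1 hz).eq_or_lt with h | h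
      · exact (h5 z h).le
      · have h6 := mem_ball_zero_iff.2 h
        exact (congrArg (fun w => ‖z * w‖) (h2 h6)).trans_le ((hf.step h0).mul_le h6)
    · simp only [h2 hz]
      exact (hf.step_eq h0 hz).symm
    · have h6 := ((wind_zpow 1).mul h4).congr (F' := fun z => z * F z) fun z _ => by rw [zpow_one]
      rw [add_comm] at h6
      exact_mod_cast h6.mob (continuousOn_id.mul (h1.continuousOn.mono sphere_subset_closedBall))
        h5 ha

end Pool.Agent.Lib.MP_7ed551_gt.Cy
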