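import Pool.Agent.Lib.MP_7ed551_gt.Cy.Defs

/-! Tubular neighbourhoods of a torus. -/

open scoped ContDiff Topology
open Set Filter Metric Real

noncomputable section

namespace Pool.Agent.Lib.MP_7ed551_gt.Cy

open Pool.Agent.Lib.MP_ccffa6_gt

/-- The closed box. -/
def CBox (N : ℝ) : Set E := {Z | |Z.1.re| ≤ N ∧ |Z.2.re| ≤ N}

/-- Doubly periodic in the imaginary directions. -/
def Per2 {X : Type} (φ : E → X) : Prop :=
  (∀ Z, φ (Z + (2 * π * Complex.I, 0)) = φ Z) ∧ ∀ Z, φ (Z + (0, 2 * π * Complex.I)) = φ Z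

/-- An embedding of `Box N` modulo the periods. -/
structure Tube (Θ : E → E) (N : ℝ) : Prop where
  sm : ContDiff ℝ ∞ Θ
  per : Per2 Θ
  inj : ∀ Z ∈ Box N, ∀ Z' ∈ Box N, Θ Z = Θ Z' →
    ∃ m n : ℤ, Z' = Z + (2 * π * Complex.I * m, 2 * π * Complex.I * n)
  imm : ∀ Z ∈ Box N, Function.Injective (fderiv ℝ Θ Z)

variable {Θ : E → E} {N ε : ℝ}

theorem isOpen_Box (N : ℝ) : IsOpen (Box N) := by
  exact (isOpen_lt (f := fun Z : E => |Z.1.re|) (by fun_prop) continuous_const).inter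
    (isOpen_lt (f := fun Z : E => |Z.2.re|) (by fun_prop) continuous_const)

theorem CBox_sub (h : ε < N) : CBox ε ⊆ Box N := fun _ hZ => ⟨hZ.1.trans_lt h, hZ.2.trans_lt h⟩

theorem Box_sub (h : ε ≤ N) : Box ε ⊆ CBox N := fun _ hZ => ⟨hZ.1.le.trans h, hZ.2.le.trans h⟩

theorem Box_mono (h : ε ≤ N) : Box ε ⊆ Box N := fun _ hZ => ⟨hZ.1.trans_le h, hZ.2.trans_le h⟩

theorem Tube.mono (h : Tube Θ N) (hε : ε ≤ N) : Tube Θ ε :=
  ⟨h.sm, h.per, fun Z a Z' b => h.inj Z (Box_mono hε a) Z' (Box_mono hε b),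
    fun Z a => h.imm Z (Box_mono hε a)⟩

theorem Per2.int {X : Type} {φ : E → X} (h : Per2 φ) (m n : ℤ) (Z : E) :
    φ (Z + (2 * π * Complex.I * m, 2 * π * Complex.I * n)) = φ Z := by
  have h1 : Function.Periodic φ (2 * π * Complex.I, 0) := h.1
  have h2 : Function.Periodic φ (0, 2 * π * Complex.I) := h.2
  have e : ((2 * π * Complex.I * m, 2 * π * Complex.I * n) : E) =
      m • ((2 * π * Complex.I, 0) : E) + n • ((0, 2 * π * Complex.I) : E) := by
    ext <;> simp [mul_comm]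
  rw [e]
  exact ((h1.zsmul m).add_period (h2.zsmul n)) Z

theorem Tube_per {X : Type} {φ : E → X}
    (h : ∀ (m n : ℤ) Z, φ (Z + (2 * π * Complex.I * m, 2 * π * Complex.I * n)) = φ Z) : Per2 φ :=
  ⟨fun Z => by simpa using h 1 0 Z, fun Z => by simpa using h 0 1 Z⟩

theorem Per2.fderiv {V : Type} [NormedAddCommGroup V] [NormedSpace ℝ V] {φ : E → V} (h : Per2 φ) :
    Per2 (fderiv ℝ φ) := by
  refine Tube_per fun m n Z => ?_
  rw [← fderiv_comp_add_right]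
  exact congrArg (fun f => _root_.fderiv ℝ f Z) (funext (h.int m n))

theorem Tube_inv {A : E →L[ℝ] E} (h : Function.Injective A) : A.IsInvertible :=
  ⟨(LinearEquiv.ofInjectiveEndo (A : E →ₗ[ℝ] E) h).toContinuousLinearEquiv, rfl⟩

theorem Tube.inv (h : Tube Θ N) {Z : E} (hZ : Z ∈ Box N) : (fderiv ℝ Θ Z).IsInvertible := by
  exact Tube_inv (h.imm Z hZ)

theorem Tube.sm_inv (h : Tube Θ N) :
    ContDiffOn ℝ ∞ (fun Z => (fderiv ℝ Θ Z).inverse) (Box N) := by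
  exact fun Z hZ => ((h.inv hZ).contDiffAt_map_inverse.comp Z
    (h.sm.fderiv_right (m := ∞) le_rfl).contDiffAt).contDiffWithinAt

theorem Tube_closed (ε : ℝ) : IsClosed (CBox ε) :=
  (isClosed_le (f := fun Z : E => |Z.1.re|) (by fun_prop) continuous_const).inter
    (isClosed_le (f := fun Z : E => |Z.2.re|) (by fun_prop) continuous_const)

/- a compact fundamental domain -/
theorem exists_dom (ε : ℝ) : ∃ C : Set E, IsCompact C ∧ C ⊆ CBox ε ∧ ∀ Z ∈ CBox ε,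
    ∃ m n : ℤ, Z + (2 * π * Complex.I * m, 2 * π * Complex.I * n) ∈ C := by
  have key : ∀ z : ℂ, |z.re| ≤ ε → ∃ m : ℤ, |(z + 2 * π * Complex.I * m).re| ≤ ε ∧
      ‖z + 2 * π * Complex.I * m‖ ≤ ε + 2 * π := by
    intro z hz
    obtain ⟨m, hm, -⟩ := existsUnique_add_zsmul_mem_Ico two_pi_pos z.im 0
    have e1 : (z + 2 * π * Complex.I * m).re = z.re := by simp
    have e2 : (z + 2 * π * Complex.I * m).im = z.im + m • (2 * π) := by simp [mul_comm]
    refine ⟨m, e1 ▸ hz, (Complex.norm_le_abs_re_add_abs_im _).trans ?_⟩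
    rw [e1, e2, abs_of_nonneg hm.1]
    have := hm.2
    linarith
  refine ⟨CBox ε ∩ closedBall 0 (ε + 2 * π), (isCompact_closedBall _ _).inter_left (Tube_closed ε),
    inter_subset_left, fun Z hZ => ?_⟩
  obtain ⟨m, m1, m2⟩ := key Z.1 hZ.1
  obtain ⟨n, n1, n2⟩ := key Z.2 hZ.2
  exact ⟨m, n, ⟨m1, n1⟩, mem_closedBall_zero_iff.2 (max_le m2 n2)⟩

theorem Per2.compact {X : Type} [TopologicalSpace X] {φ : E → X} (h : Per2 φ)
    (hc : ContinuousOn φ (CBox ε)) : IsCompact (φ '' CBox ε) := by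
  obtain ⟨C, h1, h2, h3⟩ := exists_dom ε
  have e : φ '' CBox ε = φ '' C := by
    refine Subset.antisymm ?_ (image_mono h2)
    rintro _ ⟨Z, hZ, rfl⟩
    obtain ⟨m, n, hm⟩ := h3 Z hZ
    exact ⟨_, hm, h.int m n Z⟩
  rw [e]
  exact h1.image_of_continuousOn (hc.mono h2)

theorem Tube_split {Z : E} (hZ : Z ∈ CBox ε) : ∃ a : E, ‖a‖ ≤ ε ∧ Z - a ∈ CBox 0 :=
  ⟨(Z.1.re, Z.2.re), max_le (by simpa using hZ.1) (by simpa using hZ.2), by simp [CBox]⟩

/- `IsCompact.eventually_forall_of_forall_eventually` for pairs of points of the domain -/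
theorem nbhd₂ {P : E → E → Prop} (h1 : ∀ W, Per2 fun Z => P Z W) (h2 : ∀ Z, Per2 (P Z))
    (h : ∀ Z ∈ CBox 0, ∀ W ∈ CBox 0, ∀ᶠ p : E × E in 𝓝 (Z, W), P p.1 p.2) :
    ∃ ε > 0, ∀ Z ∈ CBox ε, ∀ W ∈ CBox ε, P Z W := by
  obtain ⟨C, c1, c2, c3⟩ := exists_dom 0
  have k : ∀ᶠ a : E × E in 𝓝 0, ∀ y ∈ C ×ˢ C, P (y.1 + a.1) (y.2 + a.2) := by
    refine (c1.prod c1).eventually_forall_of_forall_eventually fun y hy => ?_
    have t : Tendsto (fun z : (E × E) × E × E => z.2 + z.1) (𝓝 (0, y)) (𝓝 y) :=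
      Continuous.tendsto' (by fun_prop) _ _ (add_zero y)
    exact t.eventually (h y.1 (c2 hy.1) y.2 (c2 hy.2))
  obtain ⟨ε, hε, k⟩ := nhds_basis_closedBall.eventually_iff.1 k
  refine ⟨ε, hε, fun Z hZ W hW => ?_⟩
  obtain ⟨a, a1, a2⟩ := Tube_split hZ
  obtain ⟨b, b1, b2⟩ := Tube_split hW
  obtain ⟨m, n, hm⟩ := c3 _ a2
  obtain ⟨m', n', hm'⟩ := c3 _ b2
  have := k (x := (a, b)) (mem_closedBall_zero_iff.2 (max_le a1 b1)) (_, _) ⟨hm, hm'⟩
  dsimp only at this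
  rwa [add_right_comm, sub_add_cancel, add_right_comm, sub_add_cancel, (h2 _).int, (h1 W).int] at this

theorem Per2.nbhd {P : E → Prop} (hp : Per2 P) (h : ∀ Z ∈ CBox 0, ∀ᶠ W in 𝓝 Z, P W) :
    ∃ ε > 0, ∀ Z ∈ CBox ε, P Z := by
  obtain ⟨ε, hε, k⟩ := nbhd₂ (P := fun Z _ => P Z) (fun _ => hp) (fun _ => ⟨fun _ => rfl, fun _ => rfl⟩)
    fun Z hZ W _ => (continuous_fst.tendsto (Z, W)).eventually (h Z hZ)
  exact ⟨ε, hε, fun Z hZ => k Z hZ Z hZ⟩

/- `nbhd₂` for injectivity: near a pair with different images there is nothing to show, near a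
pair that differs by a period use the inverse function theorem -/
theorem exists_tube (hs : ContDiff ℝ ∞ Θ) (hp : Per2 Θ)
    (hi : ∀ Z ∈ CBox 0, ∀ Z' ∈ CBox 0, Θ Z = Θ Z' →
      ∃ m n : ℤ, Z' = Z + (2 * π * Complex.I * m, 2 * π * Complex.I * n))
    (hd : ∀ Z ∈ CBox 0, Function.Injective (fderiv ℝ Θ Z)) {O : Set E} (hO : IsOpen O)
    (h0 : ∀ Z ∈ CBox 0, Θ Z ∈ O) : ∃ e > 0, Tube Θ e ∧ ∀ Z ∈ Box e, Θ Z ∈ O := by
  obtain ⟨e1, p1, k1⟩ := nbhd₂ (P := fun Z W => Θ Z = Θ W →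
      ∃ m n : ℤ, W = Z + (2 * π * Complex.I * m, 2 * π * Complex.I * n))
    (fun W => Tube_per fun m n Z => by
      rw [hp.int]
      refine propext (imp_congr_right fun _ => ⟨fun ⟨a, b, e⟩ => ⟨m + a, n + b, ?_⟩,
        fun ⟨a, b, e⟩ => ⟨a - m, b - n, ?_⟩⟩) <;> rw [e] <;> ext <;> simp <;> ring)
    (fun Z => Tube_per fun m n W => by
      rw [hp.int]
      refine propext (imp_congr_right fun _ => ⟨fun ⟨a, b, e⟩ => ⟨a - m, b - n, ?_⟩,
        fun ⟨a, b, e⟩ => ⟨a + m, b + n, ?_⟩⟩)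
      · rw [eq_sub_of_add_eq e]
        ext <;> simp <;> ring
      · rw [e]
        ext <;> simp <;> ring)
    (fun Z hZ W hW => by
      by_cases e : Θ Z = Θ W
      · obtain ⟨m, n, rfl⟩ := hi Z hZ W hW e
        obtain ⟨A, hA⟩ := Tube_inv (hd Z hZ)
        have hf : HasStrictFDerivAt Θ (A : E →L[ℝ] E) Z :=
          hA ▸ hs.contDiffAt.hasStrictFDerivAt (by simp)
        have t : Tendsto (fun p : E × E => p.2 - (2 * π * Complex.I * m, 2 * π * Complex.I * n))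
            (𝓝 (Z, Z + (2 * π * Complex.I * m, 2 * π * Complex.I * n))) (𝓝 Z) :=
          Continuous.tendsto' (by fun_prop) _ _ (add_sub_cancel_right _ _)
        filter_upwards [(continuous_fst.tendsto _).eventually hf.eventually_left_inverse,
          t.eventually hf.eventually_left_inverse] with p q1 q2 q3
        refine ⟨m, n, ?_⟩
        rw [← hp.int m n, sub_add_cancel, ← q3, q1] at q2
        exact eq_add_of_sub_eq q2.symm
      · have t : IsOpen {p : E × E | Θ p.1 ≠ Θ p.2} :=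
          isOpen_ne_fun (hs.continuous.comp continuous_fst) (hs.continuous.comp continuous_snd)
        filter_upwards [t.mem_nhds (x := (Z, W)) e] with p q1 q2
        exact (q1 q2).elim)
  obtain ⟨e2, p2, k2⟩ := Per2.nbhd (P := fun Z => Function.Injective (fderiv ℝ Θ Z) ∧ Θ Z ∈ O)
    (Tube_per fun m n Z => by rw [hp.int, hp.fderiv.int])
    fun Z hZ => Eventually.and
      (((hs.continuous_fderiv (by simp)).tendsto Z).eventually
        (ContinuousLinearMap.isOpen_injective.mem_nhds (hd Z hZ)))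
      ((hs.continuous.tendsto Z).eventually (hO.mem_nhds (h0 Z hZ)))
  exact ⟨min e1 e2, lt_min p1 p2, ⟨hs, hp, fun Z a W b =>
    k1 Z (Box_sub (min_le_left _ _) a) W (Box_sub (min_le_left _ _) b),
    fun Z a => (k2 Z (Box_sub (min_le_right _ _) a)).1⟩,
    fun Z a => (k2 Z (Box_sub (min_le_right _ _) a)).2⟩

end Pool.Agent.Lib.MP_7ed551_gt.Cy
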